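import Mathlib

set_option autoImplicit false

namespace Pool.Agent.Helper957

open Set Filter Topology

/-- A real function on a vector space which is a seminorm. -/
structure IsSemi {X : Type*} [AddCommGroup X] [Module ℝ X] (g : X → ℝ) : Prop where
  add : ∀ x y, g (x + y) ≤ g x + g y
  smul : ∀ (c : ℝ) x, g (c • x) = |c| * g x

namespace IsSemi

section
variable {X : Type*} [AddCommGroup X] [Module ℝ X] {g : X → ℝ}

theorem zero (h : IsSemi g) : g 0 = 0 := by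
  have := h.smul 0 0
  simpa using this

theorem neg (h : IsSemi g) (x : X) : g (-x) = g x := by
  have := h.smul (-1) x
  simpa using this

theorem nonneg (h : IsSemi g) (x : X) : 0 ≤ g x := by
  have h1 := h.add x (-x)
  rw [add_neg_cancel, h.zero, h.neg] at h1
  linarith

theorem sub_le (h : IsSemi g) (x y : X) : g x ≤ g y + g (x - y) := by
  have := h.add y (x - y)
  simpa using this

/-- Bundle as a seminorm. -/
noncomputable def toSeminorm (h : IsSemi g) : Seminorm ℝ X :=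
  Seminorm.of g h.add (fun a x => by rw [h.smul, Real.norm_eq_abs])

theorem toSeminorm_apply (h : IsSemi g) (x : X) : h.toSeminorm x = g x := rfl

end
end IsSemi

section normed

variable {X : Type*} [NormedAddCommGroup X] [NormedSpace ℝ X]

/-- For a seminorm, an upper first order estimate implies differentiability. -/
theorem hasFDerivAt_of_upper {F : X → ℝ} (hF : IsSemi F) {x0 : X} {l : X →L[ℝ] ℝ}
    (h : ∀ η > (0 : ℝ), ∃ τ > (0 : ℝ), ∀ v : X, ‖v‖ < τ → F (x0 + v) ≤ F x0 + l v + η * ‖v‖) :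
    HasFDerivAt F l x0 := by
  rw [hasFDerivAt_iff_isLittleO_nhds_zero, Asymptotics.isLittleO_iff]
  intro c hc
  obtain ⟨τ, hτ, hup⟩ := h c hc
  filter_upwards [Metric.ball_mem_nhds (0 : X) hτ] with v hv
  rw [mem_ball_zero_iff] at hv
  have h1 := hup v hv
  have h2 := hup (-v) (by rwa [norm_neg])
  rw [map_neg, norm_neg] at h2
  have h3 : 2 * F x0 ≤ F (x0 + v) + F (x0 + -v) := by
    have h4 := hF.add (x0 + v) (x0 + -v)
    have h5 : x0 + v + (x0 + -v) = (2 : ℝ) • x0 := by rw [two_smul]; abel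
    rw [h5, hF.smul, abs_of_pos (by norm_num : (0:ℝ) < 2)] at h4
    exact h4
  rw [Real.norm_eq_abs, abs_le]
  constructor <;> linarith

/-- A Danskin type lemma for suprema of families of functions. -/
theorem danskin {Θ : Type*} (Ψ : Θ → X → ℝ) {F : X → ℝ} (hF : IsSemi F)
    (hle : ∀ θ x, Ψ θ x ≤ F x) (hsup : ∀ x r, (∀ θ, Ψ θ x ≤ r) → F x ≤ r)
    {K : ℝ} (hK0 : 0 ≤ K) (hK : ∀ θ x v, Ψ θ (x + v) ≤ Ψ θ x + K * ‖v‖) {x0 : X} {l : X →L[ℝ] ℝ}
    (H : ∀ η > (0 : ℝ), ∃ τ > (0 : ℝ), ∀ θ, F x0 - τ < Ψ θ x0 →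
      ∀ v : X, ‖v‖ < τ → Ψ θ (x0 + v) ≤ Ψ θ x0 + l v + η * ‖v‖) :
    HasFDerivAt F l x0 := by
  apply hasFDerivAt_of_upper hF
  intro η hη
  obtain ⟨τ, hτ, hH⟩ := H η hη
  have hden : 0 < K + ‖l‖ + 1 := by positivity
  refine ⟨min τ (τ / (K + ‖l‖ + 1)), lt_min hτ (by positivity), fun v hv => ?_⟩
  have hv1 : ‖v‖ < τ := lt_of_lt_of_le hv (min_le_left _ _)
  have hv2 : ‖v‖ < τ / (K + ‖l‖ + 1) := lt_of_lt_of_le hv (min_le_right _ _)
  rw [lt_div_iff₀ hden] at hv2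
  apply hsup
  intro θ
  have hn := norm_nonneg v
  by_cases hθ : F x0 - τ < Ψ θ x0
  · have h1 := hH θ hθ v hv1
    have h2 := hle θ x0
    linarith
  · have h1 := hK θ x0 v
    have h2 : -(‖l‖ * ‖v‖) ≤ l v := by
      have := l.le_opNorm v
      rw [Real.norm_eq_abs] at this
      exact (abs_le.1 this).1
    have h3 : 0 ≤ η * ‖v‖ := by positivity
    nlinarith

/-- The polar set of a seminorm. -/
def Pol (A : X → ℝ) : Set (X →L[ℝ] ℝ) := {f | ∀ x, f x ≤ A x}

theorem Pol.abs_le {A : X → ℝ} (hA : IsSemi A) {f : X →L[ℝ] ℝ} (hf : f ∈ Pol A) (x : X) :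
    |f x| ≤ A x := by
  rw [_root_.abs_le]
  constructor
  · have := hf (-x)
    rw [map_neg, hA.neg] at this
    linarith
  · exact hf x

theorem Pol.neg_mem {A : X → ℝ} (hA : IsSemi A) {f : X →L[ℝ] ℝ} (hf : f ∈ Pol A) : -f ∈ Pol A := by
  intro x
  have := hf (-x)
  rw [map_neg, hA.neg] at this
  simpa using this

theorem Pol.half_mem {A : X → ℝ} {f g : X →L[ℝ] ℝ} (hf : f ∈ Pol A)
    (hg : g ∈ Pol A) : (1/2 : ℝ) • (f + g) ∈ Pol A := by
  intro x
  have h1 := hf x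
  have h2 := hg x
  simp only [smul_apply, add_apply, smul_eq_mul]
  linarith

theorem Pol.zero_mem {A : X → ℝ} (hA : IsSemi A) : (0 : X →L[ℝ] ℝ) ∈ Pol A := by
  intro x
  simpa using hA.nonneg x

/-- Hahn-Banach: a continuous seminorm is attained on its polar. -/
theorem exists_mem_Pol {A : X → ℝ} (hA : IsSemi A) {L : ℝ} (hL : ∀ x, A x ≤ L * ‖x‖) (x : X) :
    ∃ f ∈ Pol A, f x = A x := by
  rcases eq_or_ne x 0 with rfl | hx
  · exact ⟨0, Pol.zero_mem hA, by simp [hA.zero]⟩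
  obtain ⟨g, hg1, hg2⟩ := exists_extension_of_le_sublinear
    (LinearPMap.mkSpanSingleton (σ := RingHom.id ℝ) x (A x) hx) A
    (fun c hc y => by rw [hA.smul, abs_of_pos hc]) hA.add (by
      rintro ⟨y, hy⟩
      obtain ⟨c, rfl⟩ := Submodule.mem_span_singleton.1 hy
      have e : (LinearPMap.mkSpanSingleton (σ := RingHom.id ℝ) x (A x) hx) ⟨c • x, hy⟩ = c • A x :=
        LinearPMap.mkSpanSingleton'_apply _ _ _ _ _
      rw [e]
      show c • A x ≤ A (c • x)
      rw [hA.smul, smul_eq_mul]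
      exact mul_le_mul_of_nonneg_right (le_abs_self c) (hA.nonneg x))
  have hbound : ∀ y, ‖g y‖ ≤ L * ‖y‖ := by
    intro y
    rw [Real.norm_eq_abs, abs_le]
    constructor
    · have := hg2 (-y)
      rw [map_neg, hA.neg] at this
      have := hL y
      linarith
    · exact (hg2 y).trans (hL y)
  refine ⟨g.mkContinuous L hbound, fun y => hg2 y, ?_⟩
  have h1 := hg1 ⟨x, Submodule.mem_span_singleton_self x⟩
  have e : (LinearPMap.mkSpanSingleton (σ := RingHom.id ℝ) x (A x) hx)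
      ⟨x, Submodule.mem_span_singleton_self x⟩ = A x :=
    LinearPMap.mkSpanSingleton'_apply_self _ _ _ _
  rw [e] at h1
  exact h1

/-- Conditions on a penalty function on the polar of `A`. -/
structure IsPen (A : X → ℝ) (w : (X →L[ℝ] ℝ) → ℝ) : Prop where
  nonneg : ∀ f ∈ Pol A, 0 ≤ w f
  le_one : ∀ f ∈ Pol A, w f ≤ 1
  neg : ∀ f ∈ Pol A, w (-f) = w f
  lur : ∀ f0 ∈ Pol A, ∀ η > (0:ℝ), ∃ τ > (0:ℝ), ∀ f ∈ Pol A,
    w ((1/2:ℝ) • (f0 + f)) ≤ (w f0 + w f) / 2 + τ → ‖f - f0‖ ≤ η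
  max : ∀ x : X, ∀ b > (0:ℝ), ∃ f0 ∈ Pol A, ∀ f ∈ Pol A, f x + b * w f ≤ f0 x + b * w f0

/-- The penalised supremum. -/
noncomputable def pen (A : X → ℝ) (w : (X →L[ℝ] ℝ) → ℝ) (T : X →L[ℝ] ℝ) (x : X) : ℝ :=
  ⨆ f : Pol A, (f.1 x + |T x| * w f.1)

section pen

variable {A : X → ℝ} {w : (X →L[ℝ] ℝ) → ℝ} (T : X →L[ℝ] ℝ)

theorem pen_bdd (hw : IsPen A w) (x : X) :
    BddAbove (range fun f : Pol A => f.1 x + |T x| * w f.1) := by
  refine ⟨A x + |T x|, ?_⟩
  rintro _ ⟨f, rfl⟩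
  have h1 := f.2 x
  have h2 := hw.le_one f.1 f.2
  have h3 := abs_nonneg (T x)
  show f.1 x + |T x| * w f.1 ≤ _
  nlinarith

theorem le_pen (hw : IsPen A w) {f : X →L[ℝ] ℝ} (hf : f ∈ Pol A) (x : X) :
    f x + |T x| * w f ≤ pen A w T x :=
  le_ciSup (pen_bdd T hw x) ⟨f, hf⟩

theorem pen_le_of {r : ℝ} (hA : IsSemi A) {x : X}
    (h : ∀ f ∈ Pol A, f x + |T x| * w f ≤ r) : pen A w T x ≤ r := by
  haveI : Nonempty (Pol A) := ⟨⟨0, Pol.zero_mem hA⟩⟩
  exact ciSup_le fun f => h f.1 f.2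

theorem pen_le (hA : IsSemi A) (hw : IsPen A w) (x : X) : pen A w T x ≤ A x + |T x| := by
  apply pen_le_of T hA
  intro f hf
  have h1 := hf x
  have h2 := hw.le_one f hf
  have h3 := abs_nonneg (T x)
  nlinarith

theorem pen_ge (hA : IsSemi A) {L : ℝ} (hL : ∀ x, A x ≤ L * ‖x‖) (hw : IsPen A w) (x : X) :
    A x ≤ pen A w T x := by
  obtain ⟨f, hf, hfx⟩ := exists_mem_Pol hA hL x
  have h1 := le_pen T hw hf x
  have h2 := mul_nonneg (abs_nonneg (T x)) (hw.nonneg f hf)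
  linarith

theorem pen_semi (hA : IsSemi A) (hw : IsPen A w) : IsSemi (pen A w T) := by
  have key : ∀ (c : ℝ) (x : X), pen A w T (c • x) ≤ |c| * pen A w T x := by
    intro c x
    apply pen_le_of T hA
    intro f hf
    have e1 : |T (c • x)| = |c| * |T x| := by rw [map_smul, smul_eq_mul, abs_mul]
    rw [e1, map_smul, smul_eq_mul]
    rcases le_total 0 c with hc | hc
    · have h1 := le_pen T hw hf x
      rw [abs_of_nonneg hc]
      nlinarith
    · have h1 := le_pen T hw (Pol.neg_mem hA hf) x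
      rw [hw.neg f hf] at h1
      rw [abs_of_nonpos hc]
      have h2 : (-f) x = -(f x) := rfl
      rw [h2] at h1
      nlinarith
  refine ⟨fun x y => ?_, fun c x => ?_⟩
  · apply pen_le_of T hA
    intro f hf
    have h1 := le_pen T hw hf x
    have h2 := le_pen T hw hf y
    have h3 : |T (x + y)| ≤ |T x| + |T y| := by rw [map_add]; exact abs_add_le _ _
    have h4 := hw.nonneg f hf
    rw [map_add]
    nlinarith
  · apply le_antisymm (key c x)
    rcases eq_or_ne c 0 with rfl | hc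
    · have h1 := le_pen T hw (Pol.zero_mem hA) ((0:ℝ) • x)
      simp only [zero_smul, map_zero, abs_zero, zero_mul, add_zero] at h1 ⊢
      exact h1
    · have h1 := key c⁻¹ (c • x)
      rw [smul_smul, inv_mul_cancel₀ hc, one_smul, abs_inv] at h1
      have h2 : 0 < |c| := abs_pos.2 hc
      calc |c| * pen A w T x ≤ |c| * (|c|⁻¹ * pen A w T (c • x)) := by gcongr
        _ = pen A w T (c • x) := by field_simp

theorem exists_sign {T : X →L[ℝ] ℝ} {x0 : X} (h : T x0 ≠ 0) :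
    ∃ σ : ℝ, |σ| = 1 ∧ |T x0| = σ * T x0 ∧ ∀ v, |T v| < |T x0| → |T (x0 + v)| = σ * T (x0 + v) := by
  rcases lt_or_gt_of_ne h with h | h
  · refine ⟨-1, by norm_num, by rw [abs_of_neg h]; ring, fun v hv => ?_⟩
    rw [abs_of_neg h, _root_.abs_lt] at hv
    rw [map_add, abs_of_nonpos (by linarith)]
    ring
  · refine ⟨1, by norm_num, by rw [abs_of_pos h]; ring, fun v hv => ?_⟩
    rw [abs_of_pos h, _root_.abs_lt] at hv
    rw [map_add, abs_of_nonneg (by linarith)]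
    ring

theorem abs_hasFDerivAt {T : X →L[ℝ] ℝ} {x0 : X} (h : T x0 ≠ 0) :
    ∃ l : X →L[ℝ] ℝ, HasFDerivAt (fun x => |T x|) l x0 := by
  obtain ⟨σ, hσ, h1, h2⟩ := exists_sign h
  refine ⟨σ • T, ?_⟩
  have h3 : HasFDerivAt (fun x => σ * T x) (σ • T) x0 := T.hasFDerivAt.const_mul σ
  apply h3.congr_of_eventuallyEq
  have h4 : ∀ᶠ x in 𝓝 x0, |T (x - x0)| < |T x0| := by
    have hc : Continuous fun x => |T (x - x0)| := by fun_prop
    apply hc.continuousAt.eventually (gt_mem_nhds _)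
    show |T (x0 - x0)| < |T x0|
    simpa using abs_pos.2 h
  filter_upwards [h4] with x hx
  have := h2 (x - x0) hx
  simpa using this

theorem pen_hasFDerivAt (hA : IsSemi A) {L : ℝ} (hL0 : 0 ≤ L) (hL : ∀ x, A x ≤ L * ‖x‖)
    (hw : IsPen A w) {x0 : X} (hT : T x0 ≠ 0) :
    ∃ l : X →L[ℝ] ℝ, HasFDerivAt (pen A w T) l x0 := by
  set b : ℝ := |T x0| with hb
  have hbpos : 0 < b := abs_pos.2 hT
  obtain ⟨f0, hf0, hmax⟩ := hw.max x0 b hbpos
  obtain ⟨σ, hσ, hσ1, hσ2⟩ := exists_sign hT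
  refine ⟨f0 + (σ * w f0) • T, ?_⟩
  apply danskin (Θ := Pol A) (fun f x => f.1 x + |T x| * w f.1) (pen_semi T hA hw)
    (fun f x => le_pen T hw f.2 x) (fun x r h => pen_le_of T hA fun f hf => h ⟨f, hf⟩)
    (K := L + ‖T‖) (by positivity)
  · rintro ⟨f, hf⟩ x v
    show f (x + v) + |T (x + v)| * w f ≤ f x + |T x| * w f + (L + ‖T‖) * ‖v‖
    have h1 : f v ≤ L * ‖v‖ := (hf v).trans (hL v)
    have h2 : |T (x + v)| ≤ |T x| + ‖T‖ * ‖v‖ := by
      rw [map_add]
      refine (abs_add_le _ _).trans ?_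
      have := T.le_opNorm v
      rw [Real.norm_eq_abs] at this
      linarith
    have h3 := hw.nonneg f hf
    have h4 := hw.le_one f hf
    have h5 : 0 ≤ ‖T‖ * ‖v‖ := by positivity
    rw [map_add]
    nlinarith
  · intro η hη
    set R : ℝ := 1 + ‖T‖ * ‖x0‖ / b with hR
    have hRpos : 0 < R := by positivity
    obtain ⟨τ1, hτ1, hlur⟩ := hw.lur f0 hf0 (η / (4 * R)) (by positivity)
    refine ⟨min (b / (‖T‖ + 1)) (min (2 * b * τ1) (η * b / (4 * (‖T‖ + 1)))),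
      lt_min (by positivity) (lt_min (by positivity) (by positivity)), ?_⟩
    rintro ⟨f, hf⟩ hnear v hv
    have hv1 : ‖v‖ < b / (‖T‖ + 1) := lt_of_lt_of_le hv (min_le_left _ _)
    rw [lt_div_iff₀ (by positivity)] at hv1
    have hnear0 : pen A w T x0 = f0 x0 + b * w f0 :=
      le_antisymm (pen_le_of T hA hmax) (le_pen T hw hf0 x0)
    simp only [] at hnear
    rw [hnear0, ← hb] at hnear
    set τ := min (b / (‖T‖ + 1)) (min (2 * b * τ1) (η * b / (4 * (‖T‖ + 1)))) with hτ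
    have hτa : τ ≤ 2 * b * τ1 := (min_le_right _ _).trans (min_le_left _ _)
    have hτb : τ ≤ η * b / (4 * (‖T‖ + 1)) := (min_le_right _ _).trans (min_le_right _ _)
    have hm := hmax _ (Pol.half_mem hf0 hf)
    have hm1 : ((1/2 : ℝ) • (f0 + f)) x0 = (f0 x0 + f x0) / 2 := by
      simp only [smul_apply, add_apply, smul_eq_mul]
      ring
    rw [hm1] at hm
    have hdist : ‖f - f0‖ ≤ η / (4 * R) := by
      apply hlur f hf
      have : b * w ((1/2 : ℝ) • (f0 + f)) ≤ b * ((w f0 + w f) / 2 + τ1) := by nlinarith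
      exact le_of_mul_le_mul_left this hbpos
    have hmf := hmax f hf
    have hn0 := norm_nonneg (f - f0)
    have hx1 : |(f - f0) x0| ≤ ‖f - f0‖ * ‖x0‖ := (f - f0).le_opNorm x0
    have hx2 : (f - f0) x0 = f x0 - f0 x0 := rfl
    rw [hx2, _root_.abs_le] at hx1
    have hwd : |w f - w f0| ≤ (τ + ‖f - f0‖ * ‖x0‖) / b := by
      rw [_root_.abs_le, ← neg_div, div_le_iff₀ hbpos, le_div_iff₀ hbpos]
      have : 0 < τ := lt_min (by positivity) (lt_min (by positivity) (by positivity))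
      constructor <;> nlinarith
    have hTv : |T v| ≤ ‖T‖ * ‖v‖ := T.le_opNorm v
    have hs := hσ2 v (by
      rw [← hb]
      have := norm_nonneg v
      nlinarith)
    show f (x0 + v) + |T (x0 + v)| * w f ≤ f x0 + |T x0| * w f + (f0 + (σ * w f0) • T) v + η * ‖v‖
    rw [hs, hσ1]
    have e1 : (f0 + (σ * w f0) • T) v = f0 v + (σ * w f0) * T v := rfl
    rw [e1, map_add, map_add]
    have h1 : f v - f0 v ≤ ‖f - f0‖ * ‖v‖ := by
      have := (f - f0).le_opNorm v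
      rw [Real.norm_eq_abs, _root_.abs_le] at this
      exact this.2
    have h2 : σ * T v * (w f - w f0) ≤ ‖T‖ * ‖v‖ * ((τ + ‖f - f0‖ * ‖x0‖) / b) := by
      calc σ * T v * (w f - w f0) ≤ |σ * T v * (w f - w f0)| := le_abs_self _
        _ = |T v| * |w f - w f0| := by rw [abs_mul, abs_mul, hσ, one_mul]
        _ ≤ _ := by gcongr
    have h3 : ‖f - f0‖ * ‖v‖ + ‖T‖ * ‖v‖ * ((τ + ‖f - f0‖ * ‖x0‖) / b) ≤ η * ‖v‖ := by
      have e2 : ‖f - f0‖ * ‖v‖ + ‖T‖ * ‖v‖ * ((τ + ‖f - f0‖ * ‖x0‖) / b)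
          = ‖v‖ * (‖f - f0‖ * R + ‖T‖ * τ / b) := by
        rw [hR]; field_simp; ring
      rw [e2, mul_comm η]
      apply mul_le_mul_of_nonneg_left _ (norm_nonneg v)
      have h4 : ‖f - f0‖ * R ≤ η / 4 := by
        calc ‖f - f0‖ * R ≤ η / (4 * R) * R := by gcongr
          _ = η / 4 := by field_simp
      have h5 : ‖T‖ * τ / b ≤ η / 4 := by
        rw [div_le_iff₀ hbpos]
        calc ‖T‖ * τ ≤ (‖T‖ + 1) * (η * b / (4 * (‖T‖ + 1))) := by
              gcongr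
              linarith
          _ = η / 4 * b := by field_simp
      linarith
    nlinarith

end pen

end normed

end Pool.Agent.Helper957
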