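import Mathlib
import Pool.Agent.Helper957.Smooth

set_option autoImplicit false

namespace Pool.Agent.Helper957

open Set Filter Topology

section cone

variable {X : Type*} [NormedAddCommGroup X] [NormedSpace ℝ X] {q : X → ℝ}

theorem fd_est {z : X} {l : X →L[ℝ] ℝ} (h : HasFDerivAt q l z) {c : ℝ} (hc : 0 < c) :
    ∃ r > (0 : ℝ), ∀ v : X, ‖v‖ < r → |q (z + v) - q z - l v| ≤ c * ‖v‖ := by
  rw [hasFDerivAt_iff_isLittleO_nhds_zero, Asymptotics.isLittleO_iff] at h
  obtain ⟨r, hr, hb⟩ := Metric.eventually_nhds_iff_ball.1 (h hc)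
  exact ⟨r, hr, fun v hv => hb v (by rwa [mem_ball_zero_iff])⟩

theorem fd_le (hq : IsSemi q) {z : X} {l : X →L[ℝ] ℝ} (h : HasFDerivAt q l z) (y : X) :
    l y ≤ q y := by
  apply le_of_forall_pos_le_add
  intro c hc
  obtain ⟨r, hr, hb⟩ := fd_est h (show 0 < c / (‖y‖ + 1) by positivity)
  set t : ℝ := r / (2 * (‖y‖ + 1)) with ht
  have ht0 : 0 < t := by positivity
  have h1 : ‖t • y‖ < r := by
    rw [norm_smul, Real.norm_eq_abs, abs_of_pos ht0, ht, div_mul_eq_mul_div,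
      div_lt_iff₀ (by positivity)]
    nlinarith [norm_nonneg y]
  have h2 := (abs_le.1 (hb _ h1)).1
  have h3 := hq.add z (t • y)
  rw [hq.smul, abs_of_pos ht0] at h3
  rw [map_smul, smul_eq_mul, norm_smul, Real.norm_eq_abs, abs_of_pos ht0] at h2
  have h4 : c / (‖y‖ + 1) * (t * ‖y‖) ≤ t * c := by
    have h5 : c / (‖y‖ + 1) * ‖y‖ ≤ c := by
      rw [div_mul_eq_mul_div, div_le_iff₀ (by positivity)]
      nlinarith [norm_nonneg y]
    calc c / (‖y‖ + 1) * (t * ‖y‖) = t * (c / (‖y‖ + 1) * ‖y‖) := by ring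
      _ ≤ t * c := by gcongr
  have h5 : t * l y ≤ t * (q y + c) := by linarith
  exact le_of_mul_le_mul_left h5 ht0

theorem fd_self (hq : IsSemi q) {z : X} {l : X →L[ℝ] ℝ} (h : HasFDerivAt q l z) :
    q z ≤ l z := by
  apply le_of_forall_pos_le_add
  intro c hc
  obtain ⟨r, hr, hb⟩ := fd_est h (show 0 < c / (‖z‖ + 1) by positivity)
  set t : ℝ := min (1/2) (r / (2 * (‖z‖ + 1))) with ht
  have ht0 : 0 < t := lt_min (by norm_num) (by positivity)
  have ht1 : t ≤ 1/2 := min_le_left _ _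
  have ht2 : t ≤ r / (2 * (‖z‖ + 1)) := min_le_right _ _
  have h1 : ‖-(t • z)‖ < r := by
    rw [norm_neg, norm_smul, Real.norm_eq_abs, abs_of_pos ht0]
    calc t * ‖z‖ ≤ r / (2 * (‖z‖ + 1)) * ‖z‖ := by gcongr
      _ < r := by
        rw [div_mul_eq_mul_div, div_lt_iff₀ (by positivity)]
        nlinarith [norm_nonneg z]
  have h2 := (abs_le.1 (hb _ h1)).1
  have h3 : q (z + -(t • z)) = (1 - t) * q z := by
    have e : z + -(t • z) = (1 - t) • z := by rw [sub_smul, one_smul]; abel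
    rw [e, hq.smul, abs_of_pos (by linarith)]
  rw [h3, map_neg, map_smul, smul_eq_mul, norm_neg, norm_smul, Real.norm_eq_abs,
    abs_of_pos ht0] at h2
  have h4 : c / (‖z‖ + 1) * (t * ‖z‖) ≤ t * c := by
    have h5 : c / (‖z‖ + 1) * ‖z‖ ≤ c := by
      rw [div_mul_eq_mul_div, div_le_iff₀ (by positivity)]
      nlinarith [norm_nonneg z]
    calc c / (‖z‖ + 1) * (t * ‖z‖) = t * (c / (‖z‖ + 1) * ‖z‖) := by ring
      _ ≤ t * c := by gcongr
  have h5 : t * q z ≤ t * (l z + c) := by linarith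
  exact le_of_mul_le_mul_left h5 ht0

theorem fd_grad (hq : IsSemi q) {z : X} {l : X →L[ℝ] ℝ} (h : HasFDerivAt q l z) (v : X) :
    q z + l v ≤ q (z + v) := by
  have h1 := fd_le hq h (z + v)
  have h2 := fd_self hq h
  rw [map_add] at h1
  linarith

theorem fd_cont (hq : IsSemi q) {l : X → X →L[ℝ] ℝ}
    (h : ∀ z, z ≠ 0 → HasFDerivAt q (l z) z) : ContinuousOn l {x | x ≠ 0} := by
  intro x hx
  apply ContinuousAt.continuousWithinAt
  rw [Metric.continuousAt_iff]
  intro ε hε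
  obtain ⟨r, hr, hb⟩ := fd_est (h x hx) (show 0 < ε / 6 by positivity)
  have hxn : 0 < ‖x‖ := norm_pos_iff.2 hx
  refine ⟨min (r / 4) ‖x‖, lt_min (by positivity) hxn, fun {z} hz => ?_⟩
  rw [dist_eq_norm] at hz ⊢
  have hz1 : ‖z - x‖ < r / 4 := lt_of_lt_of_le hz (min_le_left _ _)
  have hz2 : ‖z - x‖ < ‖x‖ := lt_of_lt_of_le hz (min_le_right _ _)
  have hz0 : z ≠ 0 := by
    rintro rfl
    rw [zero_sub, norm_neg] at hz2
    exact lt_irrefl _ hz2
  have key : ∀ v : X, ‖v‖ = r / 4 → (l z - l x) v ≤ ε / 2 * ‖v‖ := by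
    intro v hv
    have h1 := fd_grad hq (h z hz0) v
    have h2 := (abs_le.1 (hb (z - x + v) (by
      refine lt_of_le_of_lt (norm_add_le _ _) ?_
      rw [hv]; linarith))).2
    have h3 := (abs_le.1 (hb (z - x) (by linarith))).1
    have e1 : x + (z - x + v) = z + v := by abel
    have e2 : x + (z - x) = z := by abel
    rw [e1, map_add] at h2
    rw [e2] at h3
    have h4 : ‖z - x + v‖ ≤ ‖z - x‖ + ‖v‖ := norm_add_le _ _
    rw [sub_apply]
    nlinarith
  have key2 : ∀ v : X, (l z - l x) v ≤ ε / 2 * ‖v‖ := by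
    intro v
    rcases eq_or_ne v 0 with rfl | hv
    · simp
    · have hvn : 0 < ‖v‖ := norm_pos_iff.2 hv
      set a : ℝ := r / 4 / ‖v‖ with ha
      have ha0 : 0 < a := by positivity
      have h1 := key (a • v) (by
        rw [norm_smul, Real.norm_eq_abs, abs_of_pos ha0, ha]
        field_simp)
      rw [map_smul, smul_eq_mul, norm_smul, Real.norm_eq_abs, abs_of_pos ha0] at h1
      have h2 : a * (l z - l x) v ≤ a * (ε / 2 * ‖v‖) := by linarith
      exact le_of_mul_le_mul_left h2 ha0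
  have h5 : ‖l z - l x‖ ≤ ε / 2 := by
    apply (l z - l x).opNorm_le_bound (by positivity)
    intro v
    rw [Real.norm_eq_abs, abs_le]
    constructor
    · have := key2 (-v)
      rw [map_neg, norm_neg] at this
      linarith
    · exact key2 v
  linarith

theorem contDiffOn_of_semi (hq : IsSemi q)
    (h : ∀ z, z ≠ 0 → ∃ l : X →L[ℝ] ℝ, HasFDerivAt q l z) : ContDiffOn ℝ 1 q {x | x ≠ 0} := by
  choose! l hl using h
  intro x hx
  apply ContDiffAt.contDiffWithinAt
  rw [contDiffAt_one_iff]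
  exact ⟨l, {x | x ≠ 0}, isOpen_ne.mem_nhds hx, fd_cont hq hl, fun z hz => hl z hz⟩

end cone

end Pool.Agent.Helper957
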