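import Mathlib

set_option autoImplicit false

namespace Pool.Agent.Helper957

open Set Filter Topology

/-- Positive part cubed. -/
noncomputable def pc (t : ℝ) : ℝ := (max t 0) ^ 3

theorem pc_nonneg (t : ℝ) : 0 ≤ pc t := by unfold pc; positivity

theorem pc_of_nonpos {t : ℝ} (h : t ≤ 0) : pc t = 0 := by
  unfold pc; rw [max_eq_right h]; norm_num

theorem pc_of_nonneg {t : ℝ} (h : 0 ≤ t) : pc t = t ^ 3 := by
  unfold pc; rw [max_eq_left h]

theorem pc_mono : Monotone pc := by
  intro a b h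
  unfold pc
  gcongr

theorem pc_eq_zero_iff {t : ℝ} : pc t = 0 ↔ t ≤ 0 := by
  unfold pc
  rw [pow_eq_zero_iff (by norm_num)]
  exact max_eq_right_iff

theorem pc_one : pc 1 = 1 := by rw [pc_of_nonneg (by norm_num)]; norm_num

theorem pc_le_one_iff {t : ℝ} : pc t ≤ 1 ↔ t ≤ 1 := by
  constructor
  · intro h
    by_contra hc
    push Not at hc
    rw [pc_of_nonneg (by linarith)] at h
    nlinarith [mul_pos (show (0:ℝ) < t - 1 by linarith) (show (0:ℝ) < t by linarith)]
  · intro h
    calc pc t ≤ pc 1 := pc_mono h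
      _ = 1 := pc_one

theorem hasDerivAt_max_sq (t : ℝ) : HasDerivAt (fun s : ℝ => (max s 0) ^ 2) (2 * max t 0) t := by
  rcases lt_trichotomy t 0 with h | h | h
  · rw [max_eq_right h.le]
    have : (fun s : ℝ => (max s 0) ^ 2) =ᶠ[𝓝 t] fun _ => 0 := by
      filter_upwards [Iio_mem_nhds h] with s hs
      rw [max_eq_right (le_of_lt hs)]; norm_num
    simpa using (hasDerivAt_const t (0:ℝ)).congr_of_eventuallyEq this
  · subst h
    simp only [max_self, mul_zero]
    rw [hasDerivAt_iff_isLittleO_nhds_zero]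
    simp only [zero_add, max_self, smul_zero, sub_zero]
    norm_num
    rw [Asymptotics.isLittleO_iff]
    intro c hc
    filter_upwards [Metric.ball_mem_nhds (0:ℝ) hc] with s hs
    simp only [Metric.mem_ball, dist_zero_right, Real.norm_eq_abs] at hs
    rw [Real.norm_eq_abs, Real.norm_eq_abs, abs_of_nonneg (by positivity)]
    have h1 : max s 0 ≤ |s| := max_le (le_abs_self s) (abs_nonneg s)
    have h2 : 0 ≤ max s 0 := le_max_right _ _
    calc (max s 0)^2 ≤ |s| ^ 2 := by gcongr
      _ = |s| * |s| := by ring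
      _ ≤ c * |s| := by gcongr
  · rw [max_eq_left h.le]
    have : (fun s : ℝ => (max s 0) ^ 2) =ᶠ[𝓝 t] fun s => s ^ 2 := by
      filter_upwards [Ioi_mem_nhds h] with s hs
      rw [max_eq_left (le_of_lt hs)]
    have h2 := (hasDerivAt_pow 2 t).congr_of_eventuallyEq this
    simpa using h2

theorem hasDerivAt_pc (t : ℝ) : HasDerivAt pc (3 * (max t 0) ^ 2) t := by
  rcases lt_trichotomy t 0 with h | h | h
  · rw [max_eq_right h.le]
    have : pc =ᶠ[𝓝 t] fun _ => 0 := by
      filter_upwards [Iio_mem_nhds h] with s hs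
      exact pc_of_nonpos (le_of_lt hs)
    simpa using (hasDerivAt_const t (0:ℝ)).congr_of_eventuallyEq this
  · subst h
    simp only [max_self, ne_eq, OfNat.ofNat_ne_zero, not_false_eq_true, zero_pow, mul_zero]
    rw [hasDerivAt_iff_isLittleO_nhds_zero]
    simp only [zero_add, smul_zero, sub_zero, pc_of_nonpos le_rfl]
    rw [Asymptotics.isLittleO_iff]
    intro c hc
    filter_upwards [Metric.ball_mem_nhds (0:ℝ) (lt_min hc one_pos)] with s hs
    simp only [Metric.mem_ball, dist_zero_right, Real.norm_eq_abs] at hs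
    rw [Real.norm_eq_abs, Real.norm_eq_abs, abs_of_nonneg (pc_nonneg s)]
    unfold pc
    have h1 : max s 0 ≤ |s| := max_le (le_abs_self s) (abs_nonneg s)
    have h2 : 0 ≤ max s 0 := le_max_right _ _
    have h3 : |s| < c := lt_of_lt_of_le hs (min_le_left _ _)
    have h4 : |s| < 1 := lt_of_lt_of_le hs (min_le_right _ _)
    have h5 : 0 ≤ |s| := abs_nonneg s
    calc (max s 0)^3 ≤ |s| ^ 3 := by gcongr
      _ = (|s| * |s|) * |s| := by ring
      _ ≤ (c * 1) * |s| := by gcongr
      _ = c * |s| := by ring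
  · rw [max_eq_left h.le]
    have : pc =ᶠ[𝓝 t] fun s => s ^ 3 := by
      filter_upwards [Ioi_mem_nhds h] with s hs
      exact pc_of_nonneg (le_of_lt hs)
    have h2 := (hasDerivAt_pow 3 t).congr_of_eventuallyEq this
    simpa using h2

theorem contDiff_pc : ContDiff ℝ 2 pc := by
  have h1 : deriv pc = fun t => 3 * (max t 0) ^ 2 := funext fun t => (hasDerivAt_pc t).deriv
  have h2 : deriv (fun t : ℝ => 3 * (max t 0) ^ 2) = fun t => 3 * (2 * max t 0) :=
    funext fun t => ((hasDerivAt_max_sq t).const_mul 3).deriv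
  rw [show (2 : WithTop ℕ∞) = 1 + 1 by norm_num, contDiff_succ_iff_deriv]
  refine ⟨fun t => (hasDerivAt_pc t).differentiableAt, by simp, ?_⟩
  rw [h1, show (1 : WithTop ℕ∞) = 0 + 1 by norm_num, contDiff_succ_iff_deriv]
  refine ⟨fun t => ((hasDerivAt_max_sq t).const_mul 3).differentiableAt, by simp, ?_⟩
  rw [h2, contDiff_zero]
  fun_prop

theorem convexOn_pc : ConvexOn ℝ univ pc := by
  have h : ConvexOn ℝ univ (fun t : ℝ => max t 0) :=
    (convexOn_id convex_univ).sup (convexOn_const 0 convex_univ)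
  exact h.pow (fun x _ => le_max_right _ _) 3

/-- Composition of a convex function with `pc` is convex. -/
theorem ConvexOn.pc_comp {X : Type*} [AddCommGroup X] [Module ℝ X] {f : X → ℝ}
    (hf : ConvexOn ℝ univ f) : ConvexOn ℝ univ (fun x => pc (f x)) := by
  have h : ConvexOn ℝ univ (fun x => max (f x) 0) :=
    hf.sup (convexOn_const 0 convex_univ)
  exact h.pow (fun x _ => le_max_right _ _) 3

section gauge

variable {X : Type*} [NormedAddCommGroup X] [NormedSpace ℝ X] [CompleteSpace X]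

/-- The Minkowski functional of the sublevel set of a smooth even coercive convex function. -/
theorem exists_smooth_norm (F : X → ℝ) (hconv : ConvexOn ℝ univ F) (heven : ∀ x, F (-x) = F x)
    (h0 : F 0 < 1) (hcont : Continuous F) (hC : ∀ x, F x = 1 → ContDiffAt ℝ 2 F x)
    (R : ℝ) (hR : ∀ x, F x ≤ 1 → ‖x‖ ≤ R) :
    ∃ (N : Seminorm ℝ X) (a b : ℝ), 0 < a ∧ 0 < b ∧ (∀ x, a * ‖x‖ ≤ N x ∧ N x ≤ b * ‖x‖) ∧
      ContDiffOn ℝ 2 (fun x => N x) ({0}ᶜ : Set X) ∧ (∀ x, N x ≤ 1 ↔ F x ≤ 1) := by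
  classical
  set S : Set X := {x | F x ≤ 1} with hS
  have hSconv : Convex ℝ S := by
    have := hconv.convex_le 1
    simpa [hS] using this
  have hSclosed : IsClosed S := isClosed_le hcont continuous_const
  have hSnhds : S ∈ 𝓝 (0 : X) := by
    have : {x | F x < 1} ∈ 𝓝 (0 : X) := (isOpen_lt hcont continuous_const).mem_nhds h0
    exact mem_of_superset this fun x (hx : F x < 1) => (show F x ≤ 1 from hx.le)
  have hSabs : Absorbent ℝ S := absorbent_nhds_zero hSnhds
  have hSsym : ∀ x ∈ S, -x ∈ S := fun x hx => by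
    show F (-x) ≤ 1
    rw [heven]; exact hx
  have hSbal : Balanced ℝ S := by
    intro r hr
    rintro _ ⟨x, hx, rfl⟩
    have hx' : F x ≤ 1 := hx
    show F (r • x) ≤ 1
    have hr1 : |r| ≤ 1 := by simpa using hr
    have hcomb : F (|r| • x) ≤ 1 := by
      have := hconv.2 (mem_univ x) (mem_univ (0:X)) (abs_nonneg r) (sub_nonneg.2 hr1) (by ring)
      simp only [smul_zero, add_zero, smul_eq_mul] at this
      have h1 : 0 ≤ |r| := abs_nonneg r
      nlinarith
    rcases abs_choice r with h | h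
    · rwa [h] at hcomb
    · rw [h, neg_smul, heven] at hcomb; exact hcomb
  set N : Seminorm ℝ X := gaugeSeminorm hSbal hSconv hSabs with hN
  have hNg : ∀ x, N x = gauge S x := fun x => rfl
  have hle : ∀ x, N x ≤ 1 ↔ F x ≤ 1 := by
    intro x
    rw [hNg, gauge_le_one_iff_mem_closure hSconv hSnhds, hSclosed.closure_eq]
    rfl
  have hone : ∀ x, F x = 1 → N x = 1 := by
    intro x hx
    refine le_antisymm ((hle x).2 hx.le) ?_
    by_contra hlt
    push Not at hlt
    obtain ⟨r, hr1, hr2⟩ := exists_between hlt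
    have hr0 : 0 < r := lt_of_le_of_lt (apply_nonneg N x) hr1
    have h1 : N (r⁻¹ • x) ≤ 1 := by
      rw [map_smul_eq_mul, Real.norm_eq_abs, abs_of_pos (inv_pos.2 hr0)]
      rw [inv_mul_le_iff₀ hr0]; linarith
    have h2 := (hle _).1 h1
    have h3 := hconv.2 (mem_univ (r⁻¹ • x)) (mem_univ (0:X)) hr0.le (sub_nonneg.2 hr2.le) (by ring)
    simp only [smul_zero, add_zero, smul_eq_mul, smul_smul, mul_inv_cancel₀ hr0.ne', one_smul] at h3
    rw [hx] at h3
    nlinarith
  have hone' : ∀ x, N x = 1 → F x = 1 := by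
    intro x hx
    refine le_antisymm ((hle x).1 hx.le) ?_
    by_contra hlt
    push Not at hlt
    have hc : Continuous (fun t : ℝ => F (t • x)) := hcont.comp (by fun_prop)
    have h1 : ∀ᶠ t in 𝓝 (1:ℝ), F (t • x) < 1 := by
      have := hc.continuousAt (x := (1:ℝ))
      have h2 : F ((1:ℝ) • x) < 1 := by simpa using hlt
      exact this.eventually (gt_mem_nhds h2)
    obtain ⟨δ, hδ, hball⟩ := Metric.eventually_nhds_iff.1 h1
    have h3 : F ((1 + δ/2) • x) < 1 := by
      apply hball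
      rw [Real.dist_eq, show (1 + δ/2 - 1) = δ/2 by ring, abs_of_pos (by positivity)]
      linarith
    have h4 := (hle _).2 h3.le
    rw [map_smul_eq_mul, hx, Real.norm_eq_abs, abs_of_pos (by positivity)] at h4
    linarith
  obtain ⟨δ, hδ, hball⟩ := Metric.mem_nhds_iff.1 hSnhds
  have hRpos : 0 < |R| + 1 := by positivity
  have hlow : ∀ x, (|R| + 1)⁻¹ * ‖x‖ ≤ N x := by
    intro x
    by_contra hlt
    push Not at hlt
    have hx0 : 0 < ‖x‖ := by
      by_contra h
      have : ‖x‖ = 0 := le_antisymm (not_lt.1 h) (norm_nonneg x)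
      rw [this, mul_zero] at hlt
      exact absurd hlt (not_lt.2 (apply_nonneg N x))
    set c : ℝ := (|R| + 1) / ‖x‖ with hc
    have hcpos : 0 < c := by positivity
    have h1 : N (c • x) ≤ 1 := by
      rw [map_smul_eq_mul, Real.norm_eq_abs, abs_of_pos hcpos]
      calc c * N x ≤ c * ((|R| + 1)⁻¹ * ‖x‖) := by gcongr
        _ = 1 := by rw [hc]; field_simp
    have h2 := hR _ ((hle _).1 h1)
    rw [norm_smul, Real.norm_eq_abs, abs_of_pos hcpos, hc, div_mul_cancel₀ _ hx0.ne'] at h2
    linarith [le_abs_self R]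
  refine ⟨N, (|R| + 1)⁻¹, (δ/2)⁻¹, by positivity, by positivity, ?_, ?_, hle⟩
  · intro x
    refine ⟨hlow x, ?_⟩
    rcases eq_or_ne x 0 with rfl | hx0
    · simp
    · have hxp : 0 < ‖x‖ := norm_pos_iff.2 hx0
      set c : ℝ := (δ/2) / ‖x‖ with hc
      have hcpos : 0 < c := by positivity
      have h1 : c • x ∈ Metric.ball (0:X) δ := by
        rw [mem_ball_zero_iff, norm_smul, Real.norm_eq_abs, abs_of_pos hcpos, hc,
          div_mul_cancel₀ _ hxp.ne']
        linarith
      have h2 : F (c • x) ≤ 1 := hball h1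
      have h3 := (hle _).2 h2
      rw [map_smul_eq_mul, Real.norm_eq_abs, abs_of_pos hcpos, hc] at h3
      have h4 : N x = ((δ/2) / ‖x‖ * N x) * (‖x‖ / (δ/2)) := by
        field_simp
      rw [h4]
      calc ((δ/2) / ‖x‖ * N x) * (‖x‖ / (δ/2)) ≤ 1 * (‖x‖ / (δ/2)) := by gcongr
        _ = (δ/2)⁻¹ * ‖x‖ := by ring
  · intro x0 hx0
    apply ContDiffAt.contDiffWithinAt
    have hx0' : x0 ≠ 0 := by simpa using hx0
    have hNpos : 0 < N x0 := by
      have := hlow x0
      have h2 : 0 < (|R| + 1)⁻¹ * ‖x0‖ := mul_pos (inv_pos.2 hRpos) (norm_pos_iff.2 hx0')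
      linarith
    set l0 : ℝ := (N x0)⁻¹ with hl0
    have hl0pos : 0 < l0 := inv_pos.2 hNpos
    have hNl : N (l0 • x0) = 1 := by
      rw [map_smul_eq_mul, Real.norm_eq_abs, abs_of_pos hl0pos, hl0, inv_mul_cancel₀ hNpos.ne']
    have hF1 : F (l0 • x0) = 1 := hone' _ hNl
    have hCF : ContDiffAt ℝ 2 F (l0 • x0) := hC _ hF1
    set f : X × ℝ → ℝ := fun p => F (p.2 • p.1) with hf
    set u : X × ℝ := (x0, l0) with hu
    have hfC : ContDiffAt ℝ 2 f u := by
      have h1 : ContDiffAt ℝ 2 (fun p : X × ℝ => p.2 • p.1) u :=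
        contDiffAt_snd.smul contDiffAt_fst
      exact ContDiffAt.comp u (g := F) (f := fun p : X × ℝ => p.2 • p.1) hCF h1
    have hfd : HasFDerivAt f (fderiv ℝ f u) u := (hfC.differentiableAt (by norm_num)).hasFDerivAt
    set d : ℝ := fderiv ℝ f u (0, 1) with hd
    have hg : HasDerivAt (fun t : ℝ => F (t • x0)) d l0 := by
      have h1 : HasDerivAt (fun t : ℝ => ((x0, t) : X × ℝ)) ((0, 1) : X × ℝ) l0 :=
        (hasDerivAt_const l0 x0).prodMk (hasDerivAt_id l0)
      exact HasFDerivAt.comp_hasDerivAt (f := fun t : ℝ => ((x0, t) : X × ℝ)) l0 hfd h1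
    have hgconv : ConvexOn ℝ univ (fun t : ℝ => F (t • x0)) := by
      refine ⟨convex_univ, fun s _ t _ a b ha hb hab => ?_⟩
      have := hconv.2 (mem_univ (s • x0)) (mem_univ (t • x0)) ha hb hab
      simpa [add_smul, smul_smul] using this
    have hdpos : 0 < d := by
      have h1 := hgconv.slope_le_of_hasDerivAt (mem_univ (0:ℝ)) (mem_univ l0) hl0pos hg
      rw [slope_def_field] at h1
      simp only [zero_smul, sub_zero, hF1] at h1
      have h2 : 0 < (1 - F 0) / l0 := div_pos (by linarith) hl0pos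
      linarith
    have hinv : (fderiv ℝ f u ∘L .inr ℝ X ℝ).IsInvertible := by
      refine ⟨ContinuousLinearEquiv.unitsEquivAut ℝ (Units.mk0 d hdpos.ne'), ?_⟩
      ext
      simp [hd]
    set ψ := hfC.implicitFunction (by norm_num) hinv with hψ
    have hψC : ContDiffAt ℝ 2 ψ x0 := hfC.contDiffAt_implicitFunction (by norm_num) hinv
    have hψ0 : ψ x0 = l0 := hfC.implicitFunction_apply_self (by norm_num) hinv
    have hev : ∀ᶠ x in 𝓝 x0, F (ψ x • x) = 1 := by
      have := hfC.eventually_apply_implicitFunction (by norm_num) hinv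
      filter_upwards [this] with x hx
      have h2 : f u = 1 := hF1
      rw [h2] at hx
      exact hx
    have hpos : ∀ᶠ x in 𝓝 x0, 0 < ψ x := by
      apply hψC.continuousAt.eventually
      rw [hψ0]
      exact lt_mem_nhds hl0pos
    have heq : (fun x => N x) =ᶠ[𝓝 x0] fun x => (ψ x)⁻¹ := by
      filter_upwards [hev, hpos] with x hx hx2
      have h1 := hone _ hx
      rw [map_smul_eq_mul, Real.norm_eq_abs, abs_of_pos hx2] at h1
      exact eq_inv_of_mul_eq_one_right h1
    have hinvC : ContDiffAt ℝ 2 (fun x => (ψ x)⁻¹) x0 :=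
      hψC.inv (by rw [hψ0]; exact hl0pos.ne')
    exact hinvC.congr_of_eventuallyEq heq

end gauge

end Pool.Agent.Helper957
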