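import Mathlib
import Pool.Agent.Helper957.Gauge

set_option autoImplicit false

namespace Pool.Agent.Helper957

open Set Filter Topology

/-! ### Locally finite sums -/

section locsum

variable {X : Type*} [NormedAddCommGroup X] [NormedSpace ℝ X]

/-- The family is locally eventually zero. -/
def LocZero (g : ℕ → X → ℝ) : Prop :=
  ∀ x, ∃ n : ℕ, ∀ᶠ y in 𝓝 x, ∀ k, n ≤ k → g k y = 0

omit [NormedSpace ℝ X] in
theorem LocZero.summable {g : ℕ → X → ℝ} (h : LocZero g) (x : X) : Summable (fun k => g k x) := by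
  obtain ⟨n, hn⟩ := h x
  have h1 := hn.self_of_nhds
  apply summable_of_ne_finset_zero (s := Finset.range n)
  intro k hk
  exact h1 k (by simpa using hk)

omit [NormedAddCommGroup X] [NormedSpace ℝ X] in
theorem LocZero.tsum_eq {g : ℕ → X → ℝ} {x : X} {n : ℕ} (h : ∀ k, n ≤ k → g k x = 0) :
    ∑' k, g k x = ∑ k ∈ Finset.range n, g k x := by
  apply tsum_eq_sum
  intro k hk
  exact h k (by simpa using hk)

theorem LocZero.contDiff {g : ℕ → X → ℝ} (h : LocZero g) (hg : ∀ k, ContDiff ℝ 2 (g k)) :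
    ContDiff ℝ 2 (fun x => ∑' k, g k x) := by
  rw [contDiff_iff_contDiffAt]
  intro x
  obtain ⟨n, hn⟩ := h x
  have heq : (fun x => ∑' k, g k x) =ᶠ[𝓝 x] fun y => ∑ k ∈ Finset.range n, g k y := by
    filter_upwards [hn] with y hy
    exact LocZero.tsum_eq hy
  have hsum : ContDiff ℝ 2 (fun y => ∑ k ∈ Finset.range n, g k y) :=
    ContDiff.sum fun k _ => hg k
  exact hsum.contDiffAt.congr_of_eventuallyEq heq

theorem LocZero.convexOn {g : ℕ → X → ℝ} (h : LocZero g) (hg : ∀ k, ConvexOn ℝ univ (g k)) :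
    ConvexOn ℝ univ (fun x => ∑' k, g k x) := by
  refine ⟨convex_univ, fun x _ y _ a b ha hb hab => ?_⟩
  have h1 := h.summable x
  have h2 := h.summable y
  have h3 := h.summable (a • x + b • y)
  simp only [smul_eq_mul]
  rw [← tsum_mul_left, ← tsum_mul_left, ← (h1.mul_left a).tsum_add (h2.mul_left b)]
  exact h3.tsum_le_tsum (fun k => (hg k).2 (mem_univ x) (mem_univ y) ha hb hab)
    ((h1.mul_left a).add (h2.mul_left b))

end locsum

/-! ### The space c_0 -/

/-- The space of real null sequences. -/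
abbrev C0 := ZeroAtInftyContinuousMap ℕ ℝ

theorem abs_apply_le (x : C0) (i : ℕ) : |x i| ≤ ‖x‖ := by
  rw [← ZeroAtInftyContinuousMap.norm_toBCF_eq_norm]
  exact x.toBCF.norm_coe_le_norm i

theorem tendsto_zero (x : C0) : Tendsto (fun i => x i) atTop (𝓝 0) := by
  have h := ZeroAtInftyContinuousMapClass.zero_at_infty x
  rwa [cocompact_eq_cofinite, Nat.cofinite_eq_atTop] at h

theorem norm_le_of_forall {x : C0} {C : ℝ} (hC : 0 ≤ C) (h : ∀ i, |x i| ≤ C) : ‖x‖ ≤ C := by
  rw [← ZeroAtInftyContinuousMap.norm_toBCF_eq_norm]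
  exact (BoundedContinuousFunction.norm_le hC).2 h

/-- Coordinate functional. -/
noncomputable def ev (i : ℕ) : C0 →L[ℝ] ℝ :=
  LinearMap.mkContinuous
    { toFun := fun x => x i
      map_add' := fun _ _ => rfl
      map_smul' := fun _ _ => rfl } 1 (fun x => by simpa using abs_apply_le x i)

@[simp] theorem ev_apply (i : ℕ) (x : C0) : ev i x = x i := rfl

/-- Finitely supported sequence. -/
noncomputable def fin (s : Finset ℕ) (f : ℕ → ℝ) : C0 where
  toFun := fun i => if i ∈ s then f i else 0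
  continuous_toFun := continuous_of_discreteTopology
  zero_at_infty' := by
    rw [cocompact_eq_cofinite, Nat.cofinite_eq_atTop]
    apply tendsto_const_nhds.congr'
    filter_upwards [eventually_gt_atTop (s.sup id)] with i hi
    rw [if_neg]
    intro h
    exact absurd (Finset.le_sup (f := id) h) (not_le.2 hi)

@[simp] theorem fin_apply (s : Finset ℕ) (f : ℕ → ℝ) (i : ℕ) :
    fin s f i = if i ∈ s then f i else 0 := rfl

theorem eventually_small (x : C0) (ε : ℝ) (hε : 0 < ε) :
    ∃ n : ℕ, ∀ᶠ y in 𝓝 x, ∀ k, n ≤ k → |(y : C0) k| ≤ ε := by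
  have h1 : ∀ᶠ i in atTop, |x i| < ε / 2 := by
    have := (tendsto_zero x).abs
    rw [abs_zero] at this
    exact this.eventually (gt_mem_nhds (by positivity))
  obtain ⟨n, hn⟩ := eventually_atTop.1 h1
  refine ⟨n, ?_⟩
  filter_upwards [Metric.ball_mem_nhds x (show 0 < ε / 2 by positivity)] with y hy k hk
  have h2 := abs_apply_le (y - x) k
  rw [Metric.mem_ball, dist_eq_norm] at hy
  have h3 : |y k - x k| ≤ ‖y - x‖ := h2
  have h4 := hn k hk
  have h5 : |y k| ≤ |y k - x k| + |x k| := by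
    have := abs_add_le (y k - x k) (x k)
    simpa using this
  linarith

/-- The basic flat function on c_0. -/
noncomputable def Phi (x : C0) : ℝ := ∑' i, pc ((x i) ^ 2 - 1)

theorem Phi_loc : LocZero (fun i (x : C0) => pc ((x i) ^ 2 - 1)) := by
  intro x
  obtain ⟨n, hn⟩ := eventually_small x 1 one_pos
  refine ⟨n, ?_⟩
  filter_upwards [hn] with y hy k hk
  apply pc_of_nonpos
  have h1 := hy k hk
  have h2 : (y k) ^ 2 ≤ 1 := by
    rw [← sq_abs]
    have h0 := abs_nonneg (y k)
    nlinarith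
  linarith

theorem contDiff_apply (i : ℕ) : ContDiff ℝ 2 (fun x : C0 => x i) := (ev i).contDiff

theorem contDiff_Phi : ContDiff ℝ 2 Phi := by
  apply Phi_loc.contDiff
  intro k
  have h : ContDiff ℝ 2 (fun x : C0 => (x k) ^ 2 - 1) := ((contDiff_apply k).pow 2).sub contDiff_const
  exact contDiff_pc.comp h

theorem convexOn_sq_apply (k : ℕ) : ConvexOn ℝ univ (fun x : C0 => (x k) ^ 2) := by
  have h1 : ConvexOn ℝ univ (fun t : ℝ => t ^ 2) := (even_two).convexOn_pow
  exact h1.comp_linearMap (ev k).toLinearMap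

theorem convexOn_Phi : ConvexOn ℝ univ Phi := by
  apply Phi_loc.convexOn
  intro k
  apply ConvexOn.pc_comp
  exact (convexOn_sq_apply k).add_const (-1)

theorem Phi_nonneg (x : C0) : 0 ≤ Phi x := tsum_nonneg fun _ => pc_nonneg _

theorem Phi_neg (x : C0) : Phi (-x) = Phi x := by
  unfold Phi
  congr 1
  ext i
  congr 1
  simp

theorem Phi_term_le (x : C0) (i : ℕ) : pc ((x i) ^ 2 - 1) ≤ Phi x :=
  (Phi_loc.summable x).le_tsum i (fun _ _ => pc_nonneg _)

theorem abs_le_one_of_Phi {x : C0} (h : Phi x ≤ 0) (i : ℕ) : |x i| ≤ 1 := by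
  have h1 := Phi_term_le x i
  have h2 : pc ((x i)^2 - 1) = 0 := le_antisymm (h1.trans h) (pc_nonneg _)
  rw [pc_eq_zero_iff] at h2
  rw [← sq_le_one_iff_abs_le_one]
  linarith

theorem norm_le_of_Phi {x : C0} (h : Phi x ≤ 1) : ‖x‖ ≤ 2 := by
  apply norm_le_of_forall (by norm_num)
  intro i
  have h1 := (Phi_term_le x i).trans h
  rw [pc_le_one_iff] at h1
  apply abs_le_of_sq_le_sq _ (by norm_num)
  linarith

theorem Phi_eq_zero {x : C0} (h : ∀ i, |x i| ≤ 1) : Phi x = 0 := by
  have h1 : ∀ i, pc ((x i) ^ 2 - 1) = 0 := fun i => by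
    apply pc_of_nonpos
    have := (sq_le_one_iff_abs_le_one (x i)).2 (h i)
    linarith
  unfold Phi
  simp [h1]

end Pool.Agent.Helper957
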