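import Mathlib

set_option autoImplicit false

namespace Pool.Agent.Helper957

open Set Filter Topology
open scoped ENNReal

/-- Uncountable well order with countable initial segments. -/
class Omg (Ω : Type*) [LinearOrder Ω] [OrderBot Ω] : Prop where
  wf : WellFoundedLT Ω
  ctbl : ∀ a : Ω, (Iic a).Countable
  unc : ¬ (univ : Set Ω).Countable

section order

variable {Ω : Type*} [LinearOrder Ω] [OrderBot Ω] [hΩ : Omg Ω]

instance (priority := 100) Omg.wfl : WellFoundedLT Ω := hΩ.wf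

theorem exists_gt_of_countable {S : Set Ω} (hS : S.Countable) : ∃ b, ∀ a ∈ S, a < b := by
  by_contra hcon
  push Not at hcon
  apply hΩ.unc
  have h1 : (⋃ a ∈ S, Iic a).Countable := hS.biUnion fun a _ => hΩ.ctbl a
  apply h1.mono
  intro b _
  obtain ⟨a, ha, hab⟩ := hcon b
  exact mem_biUnion ha hab

theorem exists_gt_all {ι : Type*} [Countable ι] (f : ι → Ω) : ∃ b, ∀ i, f i < b := by
  obtain ⟨b, hb⟩ := exists_gt_of_countable (countable_range f)
  exact ⟨b, fun i => hb _ (mem_range_self i)⟩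

end order

/-- The space of left continuous, eventually zero functions, vanishing at the bottom. -/
def LX (Ω : Type*) [LinearOrder Ω] [OrderBot Ω] : Submodule ℝ (lp (fun _ : Ω => ℝ) ∞) where
  carrier := {x | x ⊥ = 0 ∧
    (∀ t, ⊥ < t → ∀ η > (0 : ℝ), ∃ s < t, ∀ u, s < u → u ≤ t → |x u - x t| ≤ η) ∧
    ∃ b, ∀ u, b < u → x u = 0}
  zero_mem' := ⟨rfl, fun t ht η hη => ⟨⊥, ht, fun u _ _ => by
    rw [lp.coeFn_zero]; simpa using hη.le⟩, ⊥, fun _ _ => rfl⟩
  add_mem' := by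
    rintro x y ⟨hx1, hx2, b, hb⟩ ⟨hy1, hy2, c, hc⟩
    refine ⟨by rw [lp.coeFn_add, Pi.add_apply, hx1, hy1, add_zero], fun t ht η hη => ?_,
      max b c, fun u hu => ?_⟩
    · obtain ⟨s1, hs1, h1⟩ := hx2 t ht (η / 2) (by positivity)
      obtain ⟨s2, hs2, h2⟩ := hy2 t ht (η / 2) (by positivity)
      refine ⟨max s1 s2, max_lt hs1 hs2, fun u hu hut => ?_⟩
      have h3 := h1 u (lt_of_le_of_lt (le_max_left _ _) hu) hut
      have h4 := h2 u (lt_of_le_of_lt (le_max_right _ _) hu) hut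
      rw [lp.coeFn_add, Pi.add_apply, Pi.add_apply]
      calc |x u + y u - (x t + y t)| = |(x u - x t) + (y u - y t)| := by congr 1; ring
        _ ≤ |x u - x t| + |y u - y t| := abs_add_le _ _
        _ ≤ η := by linarith
    · rw [lp.coeFn_add, Pi.add_apply, hb u (lt_of_le_of_lt (le_max_left _ _) hu),
        hc u (lt_of_le_of_lt (le_max_right _ _) hu), add_zero]
  smul_mem' := by
    rintro c x ⟨hx1, hx2, b, hb⟩
    refine ⟨by rw [lp.coeFn_smul, Pi.smul_apply, hx1, smul_zero], fun t ht η hη => ?_,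
      b, fun u hu => by rw [lp.coeFn_smul, Pi.smul_apply, hb u hu, smul_zero]⟩
    obtain ⟨s, hs, h⟩ := hx2 t ht (η / (|c| + 1)) (by positivity)
    refine ⟨s, hs, fun u hu hut => ?_⟩
    rw [lp.coeFn_smul, Pi.smul_apply, Pi.smul_apply, smul_eq_mul, smul_eq_mul, ← mul_sub, abs_mul]
    have h3 := h u hu hut
    calc |c| * |x u - x t| ≤ (|c| + 1) * (η / (|c| + 1)) := by
          gcongr
          linarith
      _ = η := by field_simp

section space

variable {Ω : Type*} [LinearOrder Ω] [OrderBot Ω]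

/-- The space as a type. -/
def XX (Ω : Type*) [LinearOrder Ω] [OrderBot Ω] : Type _ := ↥(LX Ω)

noncomputable instance : NormedAddCommGroup (XX Ω) := inferInstanceAs (NormedAddCommGroup ↥(LX Ω))

noncomputable instance : NormedSpace ℝ (XX Ω) := inferInstanceAs (NormedSpace ℝ ↥(LX Ω))

/-- The underlying function. -/
instance : CoeFun (XX Ω) (fun _ => Ω → ℝ) := ⟨fun x => x.1.1⟩

theorem XX.bot (x : XX Ω) : x ⊥ = 0 := x.2.1

theorem XX.left (x : XX Ω) {t : Ω} (ht : ⊥ < t) {η : ℝ} (hη : 0 < η) :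
    ∃ s < t, ∀ u, s < u → u ≤ t → |x u - x t| ≤ η := x.2.2.1 t ht η hη

theorem XX.bound (x : XX Ω) : ∃ b, ∀ u, b < u → x u = 0 := x.2.2.2

theorem XX.add_apply (x y : XX Ω) (t : Ω) : (x + y) t = x t + y t := rfl
theorem XX.sub_apply (x y : XX Ω) (t : Ω) : (x - y) t = x t - y t := rfl
theorem XX.neg_apply (x : XX Ω) (t : Ω) : (-x) t = -(x t) := rfl
theorem XX.smul_apply (c : ℝ) (x : XX Ω) (t : Ω) : (c • x) t = c * x t := rfl
theorem XX.zero_apply (t : Ω) : (0 : XX Ω) t = 0 := rfl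

theorem XX.ext {x y : XX Ω} (h : ∀ t, x t = y t) : x = y := by
  apply Subtype.ext
  apply lp.ext
  funext t
  exact h t

theorem XX.abs_le_norm (x : XX Ω) (t : Ω) : |x t| ≤ ‖x‖ :=
  lp.norm_apply_le_norm ENNReal.top_ne_zero x.1 t

theorem XX.norm_le {x : XX Ω} {C : ℝ} (hC : 0 ≤ C) (h : ∀ t, |x t| ≤ C) : ‖x‖ ≤ C :=
  lp.norm_le_of_forall_le hC h

/-- Constructor. -/
def XX.mk' (g : Ω → ℝ) (hb : ∃ C, ∀ t, |g t| ≤ C) (h0 : g ⊥ = 0)
    (h1 : ∀ t, ⊥ < t → ∀ η > (0 : ℝ), ∃ s < t, ∀ u, s < u → u ≤ t → |g u - g t| ≤ η)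
    (h2 : ∃ b, ∀ u, b < u → g u = 0) : XX Ω :=
  ⟨⟨g, memℓp_infty (by
    obtain ⟨C, hC⟩ := hb
    refine ⟨C, ?_⟩
    rintro _ ⟨t, rfl⟩
    exact hC t)⟩, h0, h1, h2⟩

theorem XX.mk'_apply (g : Ω → ℝ) (hb h0 h1 h2) (t : Ω) : (XX.mk' g hb h0 h1 h2) t = g t := rfl

/-- The indicator of the half open interval from bottom to `a`. -/
noncomputable def ch (a : Ω) : XX Ω :=
  XX.mk' (fun t => if ⊥ < t ∧ t ≤ a then 1 else 0) ⟨1, fun t => by split_ifs <;> simp⟩
    (by simp) (fun t ht η hη => by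
      by_cases h : t ≤ a
      · refine ⟨⊥, ht, fun u hu hut => ?_⟩
        rw [if_pos ⟨hu, hut.trans h⟩, if_pos ⟨ht, h⟩]
        simpa using hη.le
      · refine ⟨a, lt_of_not_ge h, fun u hu hut => ?_⟩
        rw [if_neg (fun hc => absurd hc.2 (not_le.2 hu)), if_neg (fun hc => h hc.2)]
        simpa using hη.le)
    ⟨a, fun u hu => if_neg (fun hc => absurd hc.2 (not_le.2 hu))⟩

theorem ch_apply (a t : Ω) : ch a t = if ⊥ < t ∧ t ≤ a then 1 else 0 := rfl

theorem ch_bot : ch (⊥ : Ω) = 0 := by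
  apply XX.ext
  intro t
  rw [ch_apply, if_neg (fun hc => absurd hc.1 (not_lt.2 hc.2))]
  rfl

theorem norm_ch_le (a : Ω) : ‖ch a‖ ≤ 1 := by
  apply XX.norm_le zero_le_one
  intro t
  rw [ch_apply]
  split_ifs <;> simp

/-- Difference of two indicators. -/
theorem ch_sub_apply {s u : Ω} (hsu : s ≤ u) (t : Ω) :
    (ch u - ch s) t = if s < t ∧ t ≤ u then 1 else 0 := by
  rw [XX.sub_apply, ch_apply, ch_apply]
  by_cases h1 : s < t
  · have h0 : ⊥ < t := lt_of_le_of_lt bot_le h1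
    have h2 : ¬ (⊥ < t ∧ t ≤ s) := fun hc => absurd hc.2 (not_le.2 h1)
    rw [if_neg h2]
    by_cases h3 : t ≤ u
    · rw [if_pos ⟨h0, h3⟩, if_pos ⟨h1, h3⟩]; ring
    · rw [if_neg (fun hc => h3 hc.2), if_neg (fun hc => h3 hc.2)]; ring
  · have h4 : t ≤ s := not_lt.1 h1
    have h6 : t ≤ u := h4.trans hsu
    by_cases h5 : ⊥ < t
    · simp [h1, h4, h5, h6]
    · simp [h1, h5]

variable [hΩ : Omg Ω]

theorem LX_isClosed : IsClosed (LX Ω : Set (lp (fun _ : Ω => ℝ) ∞)) := by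
  apply isClosed_of_closure_subset
  intro x hx
  rw [mem_closure_iff_seq_limit] at hx
  obtain ⟨y, hy, hlim⟩ := hx
  have hd : ∀ ε > (0 : ℝ), ∃ n, ‖y n - x‖ < ε := by
    intro ε hε
    have := (tendsto_iff_norm_sub_tendsto_zero.1 hlim).eventually (gt_mem_nhds hε)
    exact this.exists
  have hp : ∀ n t, |y n t - x t| ≤ ‖y n - x‖ := fun n t =>
    lp.norm_apply_le_norm ENNReal.top_ne_zero (y n - x) t
  refine ⟨?_, fun t ht η hη => ?_, ?_⟩
  · by_contra hne
    obtain ⟨n, hn⟩ := hd |x ⊥| (abs_pos.2 hne)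
    have h1 := hp n ⊥
    rw [(hy n).1, zero_sub, abs_neg] at h1
    linarith
  · obtain ⟨n, hn⟩ := hd (η / 3) (by positivity)
    obtain ⟨s, hs, h⟩ := (hy n).2.1 t ht (η / 3) (by positivity)
    refine ⟨s, hs, fun u hu hut => ?_⟩
    have h1 := h u hu hut
    have h2 := hp n u
    have h3 := hp n t
    rw [abs_le] at h1 h2 h3 ⊢
    constructor <;> linarith
  · have hb : ∀ n, ∃ b, ∀ u, b < u → y n u = 0 := fun n => (hy n).2.2
    choose b hb using hb
    obtain ⟨c, hc⟩ := exists_gt_all b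
    refine ⟨c, fun u hu => ?_⟩
    by_contra hne
    obtain ⟨n, hn⟩ := hd |x u| (abs_pos.2 hne)
    have h1 := hp n u
    rw [hb n u ((hc n).trans hu), zero_sub, abs_neg] at h1
    linarith

instance : CompleteSpace (XX Ω) := (LX_isClosed (Ω := Ω)).completeSpace_coe

/-- Step functions approximate on initial segments. -/
theorem approx_aux (x : XX Ω) {η : ℝ} (hη : 0 < η) (b : Ω) :
    ∃ s ∈ Submodule.span ℝ (ch '' Iic b), (∀ t, t ≤ b → |x t - s t| ≤ η) ∧ ∀ t, b < t → s t = 0 := by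
  induction b using WellFoundedLT.induction with
  | ind b ih =>
    rcases eq_or_ne b ⊥ with rfl | hb
    · refine ⟨0, Submodule.zero_mem _, fun t ht => ?_, fun t _ => rfl⟩
      rw [le_bot_iff.1 ht, XX.bot x, XX.zero_apply]
      simpa using hη.le
    · have hb' : ⊥ < b := bot_lt_iff_ne_bot.2 hb
      obtain ⟨s0, hs0, hs⟩ := XX.left x hb' hη
      obtain ⟨s', hs'1, hs'2, hs'3⟩ := ih s0 hs0
      refine ⟨s' + x b • (ch b - ch s0), ?_, fun t ht => ?_, fun t ht => ?_⟩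
      · apply Submodule.add_mem
        · exact Submodule.span_mono (image_mono (Iic_subset_Iic.2 hs0.le)) hs'1
        · apply Submodule.smul_mem
          apply Submodule.sub_mem
          · exact Submodule.subset_span ⟨b, mem_Iic.2 le_rfl, rfl⟩
          · exact Submodule.subset_span ⟨s0, mem_Iic.2 hs0.le, rfl⟩
      · rw [XX.add_apply, XX.smul_apply, ch_sub_apply hs0.le]
        by_cases h1 : s0 < t
        · rw [if_pos ⟨h1, ht⟩, hs'3 t h1, zero_add, mul_one]
          exact hs t h1 ht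
        · rw [if_neg (fun hc => h1 hc.1), mul_zero, add_zero]
          exact hs'2 t (not_lt.1 h1)
      · rw [XX.add_apply, XX.smul_apply, ch_sub_apply hs0.le,
          if_neg (fun hc => absurd hc.2 (not_le.2 ht)), hs'3 t (hs0.trans ht)]
        ring

theorem span_ch_dense (x : XX Ω) {η : ℝ} (hη : 0 < η) :
    ∃ s ∈ Submodule.span ℝ (range (ch : Ω → XX Ω)), ‖x - s‖ ≤ η := by
  obtain ⟨b, hb⟩ := XX.bound x
  obtain ⟨s, hs1, hs2, hs3⟩ := approx_aux x hη b
  refine ⟨s, Submodule.span_mono (image_subset_range _ _) hs1, ?_⟩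
  apply XX.norm_le hη.le
  intro t
  rcases le_or_gt t b with h | h
  · exact hs2 t h
  · rw [XX.sub_apply, hb t h, hs3 t h]
    simpa using hη.le

/-- Two continuous functionals which agree on the indicators are equal. -/
theorem ext_ch {f g : XX Ω →L[ℝ] ℝ} (h : ∀ a, f (ch a) = g (ch a)) : f = g := by
  have h1 : ∀ s ∈ Submodule.span ℝ (range (ch : Ω → XX Ω)), f s = g s := by
    intro s hs
    induction hs using Submodule.span_induction with
    | mem x hx =>
      obtain ⟨a, rfl⟩ := hx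
      exact h a
    | zero => simp
    | add x y _ _ hx hy => rw [map_add, map_add, hx, hy]
    | smul c x _ hx => rw [map_smul, map_smul, hx]
  ext x
  by_contra hne
  have hpos : 0 < |f x - g x| := abs_pos.2 (sub_ne_zero.2 hne)
  obtain ⟨s, hs, hxs⟩ := span_ch_dense x (η := |f x - g x| / (2 * (‖f‖ + ‖g‖ + 1))) (by positivity)
  have h2 : f x - g x = f (x - s) - g (x - s) := by
    rw [map_sub, map_sub, h1 s hs]; ring
  have h3 : |f (x - s)| ≤ ‖f‖ * ‖x - s‖ := f.le_opNorm _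
  have h4 : |g (x - s)| ≤ ‖g‖ * ‖x - s‖ := g.le_opNorm _
  have h5 : |f x - g x| ≤ (‖f‖ + ‖g‖) * ‖x - s‖ := by
    calc |f x - g x| = |f (x - s) - g (x - s)| := by rw [← h2]
      _ ≤ |f (x - s)| + |g (x - s)| := abs_sub _ _
      _ ≤ (‖f‖ + ‖g‖) * ‖x - s‖ := by linarith
  have h6 : (‖f‖ + ‖g‖) * ‖x - s‖ ≤ (‖f‖ + ‖g‖ + 1) * (|f x - g x| / (2 * (‖f‖ + ‖g‖ + 1))) := by
    apply mul_le_mul (by linarith) hxs (norm_nonneg _) (by positivity)
  have h7 : (‖f‖ + ‖g‖ + 1) * (|f x - g x| / (2 * (‖f‖ + ‖g‖ + 1))) = |f x - g x| / 2 := by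
    field_simp
  linarith

end space

end Pool.Agent.Helper957
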