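import Mathlib
import Pool.Agent.Helper957.LongC

set_option autoImplicit false

namespace Pool.Agent.Helper957

open Set Filter Topology
open scoped ENNReal

section dual

variable {Ω : Type*} [LinearOrder Ω] [OrderBot Ω]

theorem sm_mul {μ : Ω → ℝ} (hμ : Summable fun t => |μ t|) (x : XX Ω) :
    Summable fun t => μ t * x t := by
  refine (hμ.mul_right ‖x‖).of_norm_bounded (fun t => ?_)
  rw [Real.norm_eq_abs, abs_mul]
  exact mul_le_mul_of_nonneg_left (XX.abs_le_norm x t) (abs_nonneg _)

/-- The functional given by a summable family. -/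
noncomputable def J (μ : Ω → ℝ) (hμ : Summable fun t => |μ t|) : XX Ω →L[ℝ] ℝ :=
  LinearMap.mkContinuous
    { toFun := fun x => ∑' t, μ t * x t
      map_add' := fun x y => by
        rw [← (sm_mul hμ x).tsum_add (sm_mul hμ y)]
        congr 1
        ext t
        rw [XX.add_apply]
        ring
      map_smul' := fun c x => by
        simp only [RingHom.id_apply, smul_eq_mul]
        rw [← tsum_mul_left]
        congr 1
        ext t
        rw [XX.smul_apply]
        ring } (∑' t, |μ t|) (fun x => by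
      show ‖∑' t, μ t * x t‖ ≤ (∑' t, |μ t|) * ‖x‖
      rw [← tsum_mul_right]
      apply tsum_of_norm_bounded (hμ.mul_right ‖x‖).hasSum
      intro t
      rw [Real.norm_eq_abs, abs_mul]
      exact mul_le_mul_of_nonneg_left (XX.abs_le_norm x t) (abs_nonneg _))

theorem J_apply (μ : Ω → ℝ) (hμ : Summable fun t => |μ t|) (x : XX Ω) :
    J μ hμ x = ∑' t, μ t * x t := rfl

/-- Total mass on a set. -/
noncomputable def tl (μ : Ω → ℝ) (S : Set Ω) : ℝ := ∑' t, S.indicator (fun t => |μ t|) t

omit [LinearOrder Ω] [OrderBot Ω] in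
theorem tl_summable {μ : Ω → ℝ} (hμ : Summable fun t => |μ t|) (S : Set Ω) :
    Summable (S.indicator fun t => |μ t|) := hμ.indicator S

omit [LinearOrder Ω] [OrderBot Ω] in
theorem tl_mono {μ : Ω → ℝ} (hμ : Summable fun t => |μ t|) {S S' : Set Ω} (h : S ⊆ S') :
    tl μ S ≤ tl μ S' := by
  apply (tl_summable hμ S).tsum_le_tsum _ (tl_summable hμ S')
  exact indicator_le_indicator_of_subset h fun t => abs_nonneg _

omit [LinearOrder Ω] [OrderBot Ω] in
theorem tl_nonneg (μ : Ω → ℝ) (S : Set Ω) : 0 ≤ tl μ S :=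
  tsum_nonneg fun _ => indicator_nonneg (fun _ _ => abs_nonneg _) _

theorem tail_small {μ : Ω → ℝ} (hμ : Summable fun t => |μ t|) {u : Ω} (hu : ⊥ < u) {η : ℝ}
    (hη : 0 < η) : ∃ s < u, tl μ (Ioo s u) < η := by
  have h1 := _root_.tendsto_tsum_compl_atTop_zero (fun t => |μ t|)
  obtain ⟨F, hF⟩ := (h1.eventually (gt_mem_nhds hη)).exists
  refine ⟨(F.filter (· < u)).sup id, ?_, ?_⟩
  · rw [Finset.sup_lt_iff hu]
    intro v hv
    exact (Finset.mem_filter.1 hv).2
  · refine lt_of_le_of_lt ?_ hF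
    have e : ∑' a : {x // x ∉ F}, |μ a| = tl μ {x | x ∉ F} := by
      unfold tl
      rw [← tsum_subtype]
      rfl
    rw [e]
    apply tl_mono hμ
    intro t ht htF
    have : t ≤ (F.filter (· < u)).sup id :=
      Finset.le_sup (f := id) (Finset.mem_filter.2 ⟨htF, ht.2⟩)
    exact absurd ht.1 (not_lt.2 this)

theorem aux_real {A B C m e η : ℝ} (h1 : |A - B| ≤ η / 2) (h2 : |e| ≤ 1) (h3 : |C| ≤ η / 2) :
    |A + e * (m + C) - (m * e + B)| ≤ η := by
  have e5 : A + e * (m + C) - (m * e + B) = (A - B) + e * C := by ring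
  rw [e5]
  refine (abs_add_le _ _).trans ?_
  rw [abs_mul]
  have e7 := abs_nonneg C
  have e8 := abs_nonneg e
  nlinarith

theorem tsum_step {μ : Ω → ℝ} (hμ : Summable fun t => |μ t|) {s u : Ω} (hsu : s < u) :
    ∑' t, μ t * (ch u - ch s) t = μ u + ∑' t, (Ioo s u).indicator μ t := by
  have e3 : ∀ t, μ t * (ch u - ch s) t
      = (if t = u then μ u else 0) + (Ioo s u).indicator μ t := by
    intro t
    rw [ch_sub_apply hsu.le, indicator_apply]
    by_cases h1 : t = u
    · subst h1
      simp [hsu]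
    · by_cases h2 : s < t ∧ t ≤ u
      · have h3 : t ∈ Ioo s u := ⟨h2.1, lt_of_le_of_ne h2.2 h1⟩
        simp [h1, h2, h3]
      · have h3 : t ∉ Ioo s u := fun hc => h2 ⟨hc.1, hc.2.le⟩
        simp [h1, h2, h3]
  have hs : Summable μ := Summable.of_norm (by simpa only [Real.norm_eq_abs] using hμ)
  rw [tsum_congr e3, Summable.tsum_add]
  · rw [tsum_ite_eq]
  · exact summable_of_ne_finset_zero (s := {u}) fun t ht => if_neg (by simpa using ht)
  · exact hs.indicator _

omit [LinearOrder Ω] [OrderBot Ω] in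
theorem abs_tsum_indicator_le {μ : Ω → ℝ} (hμ : Summable fun t => |μ t|) (S : Set Ω) :
    |∑' t, S.indicator μ t| ≤ tl μ S := by
  rw [← Real.norm_eq_abs]
  apply tsum_of_norm_bounded (tl_summable hμ S).hasSum
  intro t
  rw [Real.norm_eq_abs]
  by_cases h : t ∈ S
  · rw [indicator_of_mem h, indicator_of_mem h]
  · rw [indicator_of_notMem h, indicator_of_notMem h, abs_zero]

/-- Interpolation by a step function with small error. -/
theorem step_approx {μ : Ω → ℝ} (hμ : Summable fun t => |μ t|) (ε : Ω → ℝ) (hε : ∀ t, |ε t| ≤ 1)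
    (F : Finset Ω) : ⊥ ∉ F → ∀ η > (0 : ℝ), ∀ b, (∀ u ∈ F, u ≤ b) →
      ∃ x ∈ Submodule.span ℝ (ch '' Iic b), (∀ t, |(x : XX Ω) t| ≤ 1) ∧ (∀ u ∈ F, x u = ε u) ∧
        (∀ t, b < t → x t = 0) ∧ |∑' t, μ t * x t - ∑ u ∈ F, μ u * ε u| ≤ η := by
  induction F using Finset.induction_on_max with
  | empty =>
    intro _ η hη b _
    refine ⟨0, Submodule.zero_mem _, fun t => ?_, fun u hu => absurd hu (Finset.notMem_empty u),
      fun t _ => rfl, ?_⟩
    · rw [XX.zero_apply]; norm_num
    · simp only [XX.zero_apply, mul_zero, tsum_zero, Finset.sum_empty, sub_zero, abs_zero]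
      exact hη.le
  | insert u F' hmax ih =>
    intro hbot η hη b hb
    have hu0 : ⊥ < u := by
      rw [bot_lt_iff_ne_bot]
      rintro rfl
      exact hbot (Finset.mem_insert_self _ _)
    obtain ⟨s0, hs0, hs0'⟩ := tail_small hμ hu0 (show 0 < η / 2 by positivity)
    set s := max s0 (F'.sup id) with hs
    have hsu : s < u := max_lt hs0 ((Finset.sup_lt_iff hu0).2 fun v hv => hmax v hv)
    have htl : tl μ (Ioo s u) < η / 2 :=
      lt_of_le_of_lt (tl_mono hμ (Ioo_subset_Ioo_left (le_max_left _ _))) hs0'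
    obtain ⟨x', hx1, hx2, hx3, hx4, hx5⟩ := ih (fun hc => hbot (Finset.mem_insert_of_mem hc))
      (η / 2) (by positivity) s (fun v hv => (Finset.le_sup (f := id) hv).trans (le_max_right _ _))
    have hub : u ≤ b := hb u (Finset.mem_insert_self _ _)
    have huF : u ∉ F' := fun hc => lt_irrefl _ (hmax u hc)
    refine ⟨x' + ε u • (ch u - ch s), ?_, fun t => ?_, fun v hv => ?_, fun t ht => ?_, ?_⟩
    · apply Submodule.add_mem
      · exact Submodule.span_mono (image_mono (Iic_subset_Iic.2 (hsu.le.trans hub))) hx1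
      · apply Submodule.smul_mem
        apply Submodule.sub_mem
        · exact Submodule.subset_span ⟨u, mem_Iic.2 hub, rfl⟩
        · exact Submodule.subset_span ⟨s, mem_Iic.2 (hsu.le.trans hub), rfl⟩
    · rw [XX.add_apply, XX.smul_apply, ch_sub_apply hsu.le]
      by_cases h1 : s < t
      · rw [hx4 t h1, zero_add]
        split_ifs
        · rw [mul_one]; exact hε u
        · norm_num
      · rw [if_neg (fun hc => h1 hc.1), mul_zero, add_zero]
        exact hx2 t
    · rw [XX.add_apply, XX.smul_apply, ch_sub_apply hsu.le]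
      rcases Finset.mem_insert.1 hv with rfl | hv'
      · rw [hx4 v hsu, if_pos ⟨hsu, le_rfl⟩]; ring
      · have h1 : v ≤ s := (Finset.le_sup (f := id) hv').trans (le_max_right _ _)
        rw [if_neg (fun hc => absurd hc.1 (not_lt.2 h1)), mul_zero, add_zero]
        exact hx3 v hv'
    · rw [XX.add_apply, XX.smul_apply, ch_sub_apply hsu.le,
        if_neg (fun hc => absurd hc.2 (not_le.2 (lt_of_le_of_lt hub ht))),
        hx4 t (hsu.trans (lt_of_le_of_lt hub ht))]
      ring
    · rw [Finset.sum_insert huF]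
      have e1 : ∑' t, μ t * (x' + ε u • (ch u - ch s)) t
          = ∑' t, μ t * x' t + ε u * ∑' t, μ t * (ch u - ch s) t := by
        rw [← tsum_mul_left, ← (sm_mul hμ x').tsum_add ((sm_mul hμ (ch u - ch s)).mul_left (ε u))]
        congr 1
        ext t
        rw [XX.add_apply, XX.smul_apply]
        ring
      have e2 := tsum_step hμ hsu
      have e4 := (abs_tsum_indicator_le hμ (Ioo s u)).trans htl.le
      rw [e1, e2]
      exact aux_real hx5 (hε u) e4

/-- The sign. -/
noncomputable def sg (r : ℝ) : ℝ := if 0 ≤ r then 1 else -1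

theorem abs_sg (r : ℝ) : |sg r| ≤ 1 := by unfold sg; split_ifs <;> simp

theorem mul_sg (r : ℝ) : r * sg r = |r| := by
  unfold sg
  split_ifs with h
  · rw [abs_of_nonneg h, mul_one]
  · rw [abs_of_neg (not_le.1 h)]; ring

/-- Lower bound on partial mass by values on step functions. -/
theorem exists_step_ge {μ : Ω → ℝ} (hμ : Summable fun t => |μ t|) (F : Finset Ω) (hF : ⊥ ∉ F)
    {η : ℝ} (hη : 0 < η) {b : Ω} (hb : ∀ u ∈ F, u ≤ b) :
    ∃ x ∈ Submodule.span ℝ (ch '' Iic b), ‖(x : XX Ω)‖ ≤ 1 ∧ ∑ u ∈ F, |μ u| ≤ J μ hμ x + η := by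
  obtain ⟨x, hx1, hx2, hx3, hx4, hx5⟩ := step_approx hμ (fun t => sg (μ t))
    (fun t => abs_sg _) F hF η hη b hb
  refine ⟨x, hx1, XX.norm_le zero_le_one hx2, ?_⟩
  rw [J_apply]
  have e : ∑ u ∈ F, μ u * sg (μ u) = ∑ u ∈ F, |μ u| := Finset.sum_congr rfl fun u _ => mul_sg _
  rw [e] at hx5
  have := (abs_le.1 hx5).1
  linarith

theorem J_ch (μ : Ω → ℝ) (hμ : Summable fun t => |μ t|) (h0 : μ ⊥ = 0) (a : Ω) :
    J μ hμ (ch a) = ∑' t, (Iic a).indicator μ t := by
  rw [J_apply]
  apply tsum_congr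
  intro t
  rw [ch_apply, indicator_apply]
  by_cases h1 : t ≤ a
  · rcases eq_or_ne t ⊥ with rfl | h2
    · simp [h0]
    · have h3 : ⊥ < t := bot_lt_iff_ne_bot.2 h2
      simp [h1, h3]
  · have h2 : t ∉ Iic a := h1
    simp [h1]

variable [hΩ : Omg Ω]

/-- The coordinates of a functional. -/
noncomputable def mu (m : Ω → ℝ) : Ω → ℝ :=
  WellFounded.fix (wellFounded_lt (α := Ω)) fun t ih => m t - ∑' s : Iio t, ih s.1 s.2

theorem mu_eq (m : Ω → ℝ) (t : Ω) : mu m t = m t - ∑' s : Iio t, mu m s := by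
  unfold mu
  rw [WellFounded.fix_eq]

theorem mu_eq' (m : Ω → ℝ) (t : Ω) : mu m t = m t - ∑' s, (Iio t).indicator (mu m) s := by
  rw [mu_eq, tsum_subtype]

theorem mu_bot {m : Ω → ℝ} (hm : m ⊥ = 0) : mu m ⊥ = 0 := by
  rw [mu_eq', hm, Iio_bot]
  simp

omit [OrderBot Ω] hΩ in
theorem summable_indicator_of {μ : Ω → ℝ} {t : Ω} (h : Summable ((Iio t).indicator fun s => |μ s|)) :
    Summable ((Iic t).indicator fun s => |μ s|) := by
  have e : (Iic t).indicator (fun s => |μ s|)
      = fun s => (Iio t).indicator (fun s => |μ s|) s + (if s = t then |μ t| else 0) := by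
    ext s
    rw [indicator_apply, indicator_apply]
    rcases lt_trichotomy s t with h1 | h1 | h1
    · simp [h1, h1.le, h1.ne]
    · subst h1; simp
    · simp [h1.not_gt, h1.not_ge, h1.ne']
  rw [e]
  apply h.add
  exact summable_of_ne_finset_zero (s := {t}) fun s hs => if_neg (by simpa using hs)

theorem mu_sum {m : Ω → ℝ} {t : Ω} (h : Summable ((Iio t).indicator fun s => |mu m s|)) :
    ∑' s, (Iic t).indicator (mu m) s = m t := by
  have e : (Iic t).indicator (mu m)
      = fun s => (Iio t).indicator (mu m) s + (if s = t then mu m t else 0) := by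
    ext s
    rw [indicator_apply, indicator_apply]
    rcases lt_trichotomy s t with h1 | h1 | h1
    · simp [h1, h1.le, h1.ne]
    · subst h1; simp
    · simp [h1.not_gt, h1.not_ge, h1.ne']
  rw [e, Summable.tsum_add, tsum_ite_eq, mu_eq' m t]
  · ring
  · apply Summable.of_norm
    refine h.congr (fun s => ?_)
    rw [indicator_apply, indicator_apply]
    split_ifs <;> simp
  · exact summable_of_ne_finset_zero (s := {t}) fun s hs => if_neg (by simpa using hs)

/-- Induction step: bounds for the partial sums. -/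
theorem mu_bound (f : XX Ω →L[ℝ] ℝ) (t : Ω) :
    Summable ((Iic t).indicator fun s => |mu (fun a => f (ch a)) s|) ∧
      ∑' s, (Iic t).indicator (fun s => |mu (fun a => f (ch a)) s|) s ≤ ‖f‖ := by
  set m : Ω → ℝ := fun a => f (ch a) with hm
  have hm0 : m ⊥ = 0 := by rw [hm]; simp [ch_bot]
  induction t using WellFoundedLT.induction with
  | ind t ih =>
    have hnn : ∀ (S : Set Ω) s, 0 ≤ S.indicator (fun s => |mu m s|) s := fun S s =>
      indicator_nonneg (fun _ _ => abs_nonneg _) _
    have hfin : ∀ F : Finset Ω, ∑ s ∈ F, (Iio t).indicator (fun s => |mu m s|) s ≤ ‖f‖ := by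
      intro F
      rcases (F.filter (· < t)).eq_empty_or_nonempty with h | h
      · have : ∑ s ∈ F, (Iio t).indicator (fun s => |mu m s|) s = 0 := by
          apply Finset.sum_eq_zero
          intro s hs
          rw [indicator_apply, if_neg]
          intro hst
          have : s ∈ F.filter (· < t) := Finset.mem_filter.2 ⟨hs, hst⟩
          rw [h] at this
          exact Finset.notMem_empty s this
        rw [this]
        exact norm_nonneg f
      · set s0 := (F.filter (· < t)).max' h with hs0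
        have hs0t : s0 < t := (Finset.mem_filter.1 (Finset.max'_mem _ h)).2
        obtain ⟨ih1, ih2⟩ := ih s0 hs0t
        refine le_trans ?_ ih2
        refine le_trans ?_ (ih1.sum_le_tsum F fun s _ => hnn _ s)
        apply Finset.sum_le_sum
        intro s hs
        rw [indicator_apply, indicator_apply]
        by_cases h1 : s ∈ Iio t
        · have h2 : s ≤ s0 := Finset.le_max' _ s (Finset.mem_filter.2 ⟨hs, h1⟩)
          rw [if_pos h1, if_pos (show s ∈ Iic s0 from h2)]
        · rw [if_neg h1]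
          split_ifs
          · exact abs_nonneg _
          · exact le_rfl
    have hs1 : Summable ((Iio t).indicator fun s => |mu m s|) :=
      summable_of_sum_le (hnn _) hfin
    have hs2 := summable_indicator_of hs1
    refine ⟨hs2, ?_⟩
    -- the truncated family
    set ν : Ω → ℝ := (Iic t).indicator (mu m) with hν
    have hνabs : ∀ s, |ν s| = (Iic t).indicator (fun s => |mu m s|) s := fun s => by
      rw [hν, indicator_apply, indicator_apply]
      split_ifs <;> simp
    have hνs : Summable fun s => |ν s| := by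
      refine hs2.congr (fun s => (hνabs s).symm)
    have hν0 : ν ⊥ = 0 := by
      rw [hν, indicator_apply, mu_bot hm0]
      simp
    have hagree : ∀ a, a ≤ t → J ν hνs (ch a) = f (ch a) := by
      intro a ha
      rw [J_ch ν hνs hν0]
      have e : (Iic a).indicator ν = (Iic a).indicator (mu m) := by
        rw [hν, indicator_indicator, inter_eq_left.2 (Iic_subset_Iic.2 ha)]
      rw [e]
      have hsa : Summable ((Iio a).indicator fun s => |mu m s|) := by
        have : (Iio a).indicator (fun s => |mu m s|)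
            = (Iio a).indicator ((Iic t).indicator fun s => |mu m s|) := by
          rw [indicator_indicator, inter_eq_left.2]
          exact fun s hs => (le_of_lt hs).trans ha
        rw [this]
        exact hs2.indicator _
      exact mu_sum hsa
    have hagree2 : ∀ x ∈ Submodule.span ℝ (ch '' Iic t), J ν hνs x = f x := by
      intro x hx
      induction hx using Submodule.span_induction with
      | mem x hx =>
        obtain ⟨a, ha, rfl⟩ := hx
        exact hagree a ha
      | zero => simp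
      | add x y _ _ hx hy => rw [map_add, map_add, hx, hy]
      | smul c x _ hx => rw [map_smul, map_smul, hx]
    have hfin2 : ∀ F : Finset Ω, ∑ s ∈ F, (Iic t).indicator (fun s => |mu m s|) s ≤ ‖f‖ := by
      intro F
      classical
      set F1 := (F.filter (· ≤ t)).erase ⊥ with hF1
      have e : ∑ s ∈ F, (Iic t).indicator (fun s => |mu m s|) s = ∑ s ∈ F1, |ν s| := by
        rw [Finset.sum_congr rfl fun s _ => (hνabs s).symm]
        symm
        apply Finset.sum_subset
        · exact (Finset.erase_subset _ _).trans (Finset.filter_subset _ _)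
        · intro s hs hs1
          rcases eq_or_ne s ⊥ with rfl | h2
          · rw [hν0, abs_zero]
          · have : ¬ s ≤ t := fun hc => hs1 (Finset.mem_erase.2 ⟨h2, Finset.mem_filter.2 ⟨hs, hc⟩⟩)
            rw [hνabs, indicator_apply, if_neg (show s ∉ Iic t from this)]
      rw [e]
      apply le_of_forall_pos_le_add
      intro η hη
      obtain ⟨x, hx1, hx2, hx3⟩ := exists_step_ge hνs F1 (by simp [hF1]) hη (b := t) (fun u hu =>
        (Finset.mem_filter.1 (Finset.mem_of_mem_erase hu)).2)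
      rw [hagree2 x hx1] at hx3
      have h1 : f x ≤ ‖f‖ * ‖x‖ := (le_abs_self _).trans (f.le_opNorm x)
      have h2 := norm_nonneg f
      nlinarith
    exact hs2.tsum_le_of_sum_le hfin2

/-- The coordinates of a functional. -/
noncomputable def co (f : XX Ω →L[ℝ] ℝ) : Ω → ℝ := mu fun a => f (ch a)

theorem co_bot (f : XX Ω →L[ℝ] ℝ) : co f ⊥ = 0 := mu_bot (by simp [ch_bot])

theorem co_finset (f : XX Ω →L[ℝ] ℝ) (F : Finset Ω) : ∑ s ∈ F, |co f s| ≤ ‖f‖ := by
  rcases F.eq_empty_or_nonempty with rfl | h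
  · simp only [Finset.sum_empty]
    exact norm_nonneg f
  · obtain ⟨h1, h2⟩ := mu_bound f (F.max' h)
    refine le_trans ?_ h2
    refine le_trans ?_ (h1.sum_le_tsum F fun s _ => indicator_nonneg (fun _ _ => abs_nonneg _) _)
    apply Finset.sum_le_sum
    intro s hs
    rw [indicator_apply, if_pos (show s ∈ Iic (F.max' h) from Finset.le_max' F s hs)]
    exact le_rfl

theorem co_summable (f : XX Ω →L[ℝ] ℝ) : Summable fun t => |co f t| :=
  summable_of_sum_le (fun _ => abs_nonneg _) (co_finset f)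

theorem co_tsum_le (f : XX Ω →L[ℝ] ℝ) : ∑' t, |co f t| ≤ ‖f‖ :=
  (co_summable f).tsum_le_of_sum_le (co_finset f)

theorem J_co (f : XX Ω →L[ℝ] ℝ) : J (co f) (co_summable f) = f := by
  apply ext_ch
  intro a
  rw [J_ch _ _ (co_bot f)]
  exact mu_sum ((co_summable f).indicator _)

theorem apply_eq (f : XX Ω →L[ℝ] ℝ) (x : XX Ω) : f x = ∑' t, co f t * x t := by
  conv_lhs => rw [← J_co f]
  rfl

omit hΩ in
theorem norm_J {μ : Ω → ℝ} (hμ : Summable fun t => |μ t|) (h0 : μ ⊥ = 0) :
    ‖J μ hμ‖ = ∑' t, |μ t| := by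
  classical
  apply le_antisymm
  · exact LinearMap.mkContinuous_norm_le _ (tsum_nonneg fun _ => abs_nonneg _) _
  · apply hμ.tsum_le_of_sum_le
    intro F
    have e : ∑ u ∈ F, |μ u| = ∑ u ∈ F.erase ⊥, |μ u| := by
      symm
      apply Finset.sum_subset (Finset.erase_subset _ _)
      intro s hs hs1
      have : s = ⊥ := by
        by_contra hne
        exact hs1 (Finset.mem_erase.2 ⟨hne, hs⟩)
      rw [this, h0, abs_zero]
    rw [e]
    apply le_of_forall_pos_le_add
    intro η hη
    obtain ⟨x, _, hx2, hx3⟩ := exists_step_ge hμ (F.erase ⊥) (by simp) hη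
      (b := (F.erase ⊥).sup id) (fun u hu => Finset.le_sup (f := id) hu)
    have h1 : J μ hμ x ≤ ‖J μ hμ‖ * ‖x‖ := (le_abs_self _).trans ((J μ hμ).le_opNorm x)
    have h2 := norm_nonneg (J μ hμ)
    nlinarith

theorem co_unique {f : XX Ω →L[ℝ] ℝ} {μ : Ω → ℝ} (hμ : Summable fun t => |μ t|) (h0 : μ ⊥ = 0)
    (h : ∀ x, f x = ∑' t, μ t * x t) : co f = μ := by
  have hd : Summable fun t => |(co f - μ) t| := by
    refine ((co_summable f).add hμ).of_nonneg_of_le (fun _ => abs_nonneg _) (fun t => ?_)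
    exact abs_sub _ _
  have h1 : J (co f - μ) hd = 0 := by
    ext x
    rw [J_apply]
    have e : ∀ t, (co f - μ) t * x t = co f t * x t - μ t * x t := fun t => by
      rw [Pi.sub_apply]; ring
    rw [tsum_congr e, (sm_mul (co_summable f) x).tsum_sub (sm_mul hμ x), ← apply_eq, ← h]
    simp
  have h2 := norm_J hd (by rw [Pi.sub_apply, co_bot, h0, sub_zero])
  rw [h1, norm_zero] at h2
  have h3 := (hasSum_zero_iff_of_nonneg (fun t => abs_nonneg ((co f - μ) t))).1 (h2 ▸ hd.hasSum)
  funext t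
  have h4 : |(co f - μ) t| = 0 := congrFun h3 t
  rw [abs_eq_zero, Pi.sub_apply] at h4
  linarith

theorem co_J {μ : Ω → ℝ} (hμ : Summable fun t => |μ t|) (h0 : μ ⊥ = 0) : co (J μ hμ) = μ :=
  co_unique hμ h0 fun _ => rfl

theorem norm_eq (f : XX Ω →L[ℝ] ℝ) : ‖f‖ = ∑' t, |co f t| := by
  conv_lhs => rw [← J_co f]
  exact norm_J _ (co_bot f)

theorem co_add (f g : XX Ω →L[ℝ] ℝ) : co (f + g) = co f + co g := by
  apply co_unique
  · refine ((co_summable f).add (co_summable g)).of_nonneg_of_le (fun _ => abs_nonneg _) (fun t => ?_)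
    exact abs_add_le _ _
  · rw [Pi.add_apply, co_bot, co_bot, add_zero]
  · intro x
    have e : ∀ t, (co f + co g) t * x t = co f t * x t + co g t * x t := fun t => by
      rw [Pi.add_apply]; ring
    rw [tsum_congr e, (sm_mul (co_summable f) x).tsum_add (sm_mul (co_summable g) x), ← apply_eq,
      ← apply_eq]
    rfl

theorem co_smul (c : ℝ) (f : XX Ω →L[ℝ] ℝ) : co (c • f) = c • co f := by
  apply co_unique
  · have : (fun t => |(c • co f) t|) = fun t => |c| * |co f t| := by
      funext t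
      rw [Pi.smul_apply, smul_eq_mul, abs_mul]
    rw [this]
    exact (co_summable f).mul_left _
  · rw [Pi.smul_apply, co_bot, smul_zero]
  · intro x
    have e : ∀ t, (c • co f) t * x t = c * (co f t * x t) := fun t => by
      rw [Pi.smul_apply, smul_eq_mul]; ring
    rw [tsum_congr e, tsum_mul_left, ← apply_eq]
    rfl

theorem co_neg (f : XX Ω →L[ℝ] ℝ) : co (-f) = -co f := by
  have h := co_smul (-1) f
  have e : (-1 : ℝ) • f = -f := by
    ext x
    show (-1 : ℝ) * f x = -(f x)
    ring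
  rw [e] at h
  rw [h]
  funext t
  show (-1 : ℝ) * co f t = -(co f t)
  ring

theorem co_sub (f g : XX Ω →L[ℝ] ℝ) : co (f - g) = co f - co g := by
  rw [sub_eq_add_neg, co_add, co_neg, ← sub_eq_add_neg]

/-- Support condition. -/
def Sp (f : XX Ω →L[ℝ] ℝ) (S : Set Ω) : Prop := ∀ t, t ∉ S → co f t = 0

theorem Sp.mono {f : XX Ω →L[ℝ] ℝ} {S S' : Set Ω} (h : Sp f S) (hS : S ⊆ S') : Sp f S' :=
  fun t ht => h t fun hc => ht (hS hc)

theorem ind_summable (f : XX Ω →L[ℝ] ℝ) (S : Set Ω) : Summable fun t => |S.indicator (co f) t| := by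
  refine (co_summable f).of_nonneg_of_le (fun _ => abs_nonneg _) (fun t => ?_)
  by_cases h : t ∈ S
  · rw [indicator_of_mem h]
  · rw [indicator_of_notMem h, abs_zero]; exact abs_nonneg _

/-- Restriction of a functional to a set. -/
noncomputable def res (S : Set Ω) (f : XX Ω →L[ℝ] ℝ) : XX Ω →L[ℝ] ℝ :=
  J (S.indicator (co f)) (ind_summable f S)

theorem co_res (S : Set Ω) (f : XX Ω →L[ℝ] ℝ) : co (res S f) = S.indicator (co f) := by
  apply co_J
  by_cases h : ⊥ ∈ S
  · rw [indicator_of_mem h, co_bot]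
  · rw [indicator_of_notMem h]

theorem co_inj {f g : XX Ω →L[ℝ] ℝ} (h : co f = co g) : f = g := by
  ext x
  rw [apply_eq, apply_eq, h]

theorem norm_res (S : Set Ω) (f : XX Ω →L[ℝ] ℝ) : ‖res S f‖ = tl (co f) S := by
  rw [norm_eq, co_res]
  unfold tl
  apply tsum_congr
  intro t
  by_cases h : t ∈ S
  · rw [indicator_of_mem h, indicator_of_mem h]
  · rw [indicator_of_notMem h, indicator_of_notMem h, abs_zero]

theorem Sp_res (S : Set Ω) (f : XX Ω →L[ℝ] ℝ) : Sp (res S f) S := fun t ht => by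
  rw [co_res, indicator_of_notMem ht]

theorem Sp_res' {S S' : Set Ω} {f : XX Ω →L[ℝ] ℝ} (h : Sp f S') : Sp (res S f) (S ∩ S') :=
  fun t ht => by
    rw [co_res]
    by_cases h1 : t ∈ S
    · rw [indicator_of_mem h1]
      exact h t fun h2 => ht ⟨h1, h2⟩
    · rw [indicator_of_notMem h1]

theorem res_eq_self {S : Set Ω} {f : XX Ω →L[ℝ] ℝ} (h : Sp f S) : res S f = f := by
  apply co_inj
  rw [co_res]
  funext t
  by_cases h1 : t ∈ S
  · rw [indicator_of_mem h1]
  · rw [indicator_of_notMem h1, h t h1]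

theorem res_union {S S' : Set Ω} (h : Disjoint S S') (f : XX Ω →L[ℝ] ℝ) :
    res (S ∪ S') f = res S f + res S' f := by
  apply co_inj
  rw [co_add, co_res, co_res, co_res, indicator_union_of_disjoint h]
  rfl

theorem res_compl (S : Set Ω) (f : XX Ω →L[ℝ] ℝ) : res S f + res Sᶜ f = f := by
  rw [← res_union disjoint_compl_right, union_compl_self]
  exact res_eq_self fun t ht => absurd (mem_univ t) ht

theorem norm_res_union {S S' : Set Ω} (h : Disjoint S S') (f : XX Ω →L[ℝ] ℝ) :
    ‖res (S ∪ S') f‖ = ‖res S f‖ + ‖res S' f‖ := by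
  rw [norm_res, norm_res, norm_res]
  unfold tl
  rw [indicator_union_of_disjoint h, Summable.tsum_add]
  · exact tl_summable (co_summable f) S
  · exact tl_summable (co_summable f) S'

theorem norm_res_le (S : Set Ω) (f : XX Ω →L[ℝ] ℝ) : ‖res S f‖ ≤ ‖f‖ := by
  rw [norm_res, norm_eq]
  refine (tl_mono (co_summable f) (subset_univ S)).trans_eq ?_
  unfold tl
  simp

theorem norm_res_mono {S S' : Set Ω} (h : S ⊆ S') (f : XX Ω →L[ℝ] ℝ) :
    ‖res S f‖ ≤ ‖res S' f‖ := by
  rw [norm_res, norm_res]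
  exact tl_mono (co_summable f) h

theorem Sp_add {f g : XX Ω →L[ℝ] ℝ} {S : Set Ω} (hf : Sp f S) (hg : Sp g S) : Sp (f + g) S :=
  fun t ht => by rw [co_add, Pi.add_apply, hf t ht, hg t ht, add_zero]

theorem Sp_sub {f g : XX Ω →L[ℝ] ℝ} {S : Set Ω} (hf : Sp f S) (hg : Sp g S) : Sp (f - g) S :=
  fun t ht => by rw [co_sub, Pi.sub_apply, hf t ht, hg t ht, sub_zero]

theorem Sp_smul {f : XX Ω →L[ℝ] ℝ} {S : Set Ω} (hf : Sp f S) (c : ℝ) : Sp (c • f) S :=
  fun t ht => by rw [co_smul, Pi.smul_apply, hf t ht, smul_zero]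

/-- Estimate of the value through the values of `x` on the support. -/
theorem abs_apply_le_of {f : XX Ω →L[ℝ] ℝ} {S : Set Ω} (hf : Sp f S) {x : XX Ω} {M : ℝ}
    (h : ∀ t ∈ S, |x t| ≤ M) : |f x| ≤ ‖f‖ * M := by
  rw [apply_eq, norm_eq, ← Real.norm_eq_abs, ← tsum_mul_right]
  apply tsum_of_norm_bounded ((co_summable f).mul_right M).hasSum
  intro t
  rw [Real.norm_eq_abs, abs_mul]
  by_cases ht : t ∈ S
  · exact mul_le_mul_of_nonneg_left (h t ht) (abs_nonneg _)
  · rw [hf t ht]; simp

theorem apply_eq_zero_of {f : XX Ω →L[ℝ] ℝ} {S : Set Ω} (hf : Sp f S) {x : XX Ω}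
    (h : ∀ t ∈ S, x t = 0) : f x = 0 := by
  have := abs_apply_le_of hf (x := x) (M := 0) (fun t ht => by rw [h t ht, abs_zero])
  rw [mul_zero] at this
  exact abs_eq_zero.1 (le_antisymm this (abs_nonneg _))

/-- Total mass of a functional. -/
noncomputable def mass (f : XX Ω →L[ℝ] ℝ) : ℝ := ∑' t, co f t

theorem co_summable' (f : XX Ω →L[ℝ] ℝ) : Summable (co f) :=
  Summable.of_norm (by simpa only [Real.norm_eq_abs] using co_summable f)

/-- Estimate for oscillation. -/
theorem abs_apply_sub_le {f : XX Ω →L[ℝ] ℝ} {S : Set Ω} (hf : Sp f S) {x : XX Ω} {M c : ℝ}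
    (h : ∀ t ∈ S, |x t - c| ≤ M) : |f x - mass f * c| ≤ ‖f‖ * M := by
  have e : f x - mass f * c = ∑' t, co f t * (x t - c) := by
    unfold mass
    rw [apply_eq, ← tsum_mul_right, ← (sm_mul (co_summable f) x).tsum_sub
      ((co_summable' f).mul_right c)]
    apply tsum_congr
    intro t
    ring
  rw [e, norm_eq, ← Real.norm_eq_abs, ← tsum_mul_right]
  apply tsum_of_norm_bounded ((co_summable f).mul_right M).hasSum
  intro t
  rw [Real.norm_eq_abs, abs_mul]
  by_cases ht : t ∈ S
  · exact mul_le_mul_of_nonneg_left (h t ht) (abs_nonneg _)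
  · rw [hf t ht]; simp

theorem mass_eq {f : XX Ω →L[ℝ] ℝ} {b : Ω} (hf : Sp f (Iic b)) : mass f = f (ch b) := by
  have h1 := J_ch (co f) (co_summable f) (co_bot f) b
  rw [J_co] at h1
  rw [h1]
  unfold mass
  apply tsum_congr
  intro t
  by_cases ht : t ∈ Iic b
  · rw [indicator_of_mem ht]
  · rw [indicator_of_notMem ht, hf t ht]

theorem abs_mass_le (f : XX Ω →L[ℝ] ℝ) : |mass f| ≤ ‖f‖ := by
  rw [norm_eq]
  unfold mass
  rw [← Real.norm_eq_abs]
  exact tsum_of_norm_bounded (co_summable f).hasSum fun t => le_rfl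

/-- Evaluation functional. -/
noncomputable def evl (t : Ω) : XX Ω →L[ℝ] ℝ :=
  LinearMap.mkContinuous
    { toFun := fun x => x t
      map_add' := fun _ _ => rfl
      map_smul' := fun _ _ => rfl } 1 (fun x => by
      rw [one_mul]
      exact XX.abs_le_norm x t)

omit hΩ in
theorem evl_apply (t : Ω) (x : XX Ω) : evl t x = x t := rfl

omit hΩ in
theorem norm_evl_le (t : Ω) : ‖evl t‖ ≤ 1 :=
  LinearMap.mkContinuous_norm_le _ zero_le_one _

omit hΩ in
theorem evl_bot : evl (⊥ : Ω) = 0 := by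
  ext x
  rw [evl_apply, XX.bot]
  rfl

theorem co_evl {t : Ω} (ht : t ≠ ⊥) : co (evl t) = fun s => if s = t then 1 else 0 := by
  apply co_unique
  · exact summable_of_ne_finset_zero (s := {t}) fun s hs => by
      rw [if_neg (by simpa using hs), abs_zero]
  · rw [if_neg ht.symm]
  · intro x
    have e : ∀ s, (if s = t then (1:ℝ) else 0) * x s = if s = t then x t else 0 := by
      intro s
      split_ifs with h
      · rw [h, one_mul]
      · rw [zero_mul]
    rw [tsum_congr e, tsum_ite_eq, evl_apply]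

theorem Sp_evl (t : Ω) : Sp (evl t) {t} := by
  intro s hs
  rcases eq_or_ne t ⊥ with rfl | ht
  · rw [evl_bot]
    have := co_smul (0:ℝ) (0 : XX Ω →L[ℝ] ℝ)
    rw [zero_smul, zero_smul] at this
    rw [this]
    rfl
  · rw [co_evl ht]
    exact if_neg (by simpa using hs)

theorem mass_evl {t : Ω} (ht : t ≠ ⊥) : mass (evl t) = 1 := by
  unfold mass
  rw [co_evl ht, tsum_ite_eq]

theorem mass_sub (f g : XX Ω →L[ℝ] ℝ) : mass (f - g) = mass f - mass g := by
  unfold mass
  rw [co_sub, ← (co_summable' f).tsum_sub (co_summable' g)]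
  rfl

theorem mass_smul (c : ℝ) (f : XX Ω →L[ℝ] ℝ) : mass (c • f) = c * mass f := by
  unfold mass
  rw [co_smul, ← tsum_mul_left]
  rfl

end dual

end Pool.Agent.Helper957
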