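import Mathlib
import Pool.Agent.Helper957.Smooth
import Pool.Agent.Helper957.Dual

set_option autoImplicit false

namespace Pool.Agent.Helper957

open Set Filter Topology

/-- Attainment of an upper semicontinuous function on the polar. -/
theorem exists_max_Pol {X : Type*} [NormedAddCommGroup X] [NormedSpace ℝ X] {A : X → ℝ}
    (hA : IsSemi A) {L : ℝ} (hL : ∀ f ∈ Pol A, ‖f‖ ≤ L) (Φ : (X →L[ℝ] ℝ) → ℝ)
    (husc : UpperSemicontinuous fun g : WeakDual ℝ X => Φ (WeakDual.toStrongDual g)) :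
    ∃ f ∈ Pol A, ∀ g ∈ Pol A, Φ g ≤ Φ f := by
  set K : Set (WeakDual ℝ X) := {g | WeakDual.toStrongDual g ∈ Pol A} with hK
  have hcl : IsClosed K := by
    have : K = ⋂ x : X, {g : WeakDual ℝ X | g x ≤ A x} := by
      ext g
      rw [mem_iInter]
      exact Iff.rfl
    rw [this]
    exact isClosed_iInter fun x => isClosed_le (WeakDual.eval_continuous x) continuous_const
  have hcomp : IsCompact K := by
    apply (WeakDual.isCompact_closedBall (0 : X →L[ℝ] ℝ) L).of_isClosed_subset hcl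
    intro g hg
    show WeakDual.toStrongDual g ∈ Metric.closedBall 0 L
    rw [mem_closedBall_zero_iff]
    exact hL _ hg
  have hne : K.Nonempty := ⟨StrongDual.toWeakDual 0, Pol.zero_mem hA⟩
  obtain ⟨g, hg, hmax⟩ := UpperSemicontinuousOn.exists_isMaxOn hne hcomp
    (husc.upperSemicontinuousOn K)
  exact ⟨WeakDual.toStrongDual g, hg, fun f hf => hmax (a := StrongDual.toWeakDual f) hf⟩

section lur

variable {Ω : Type*} [LinearOrder Ω] [OrderBot Ω] [hΩ : Omg Ω]

theorem res_add (S : Set Ω) (f g : XX Ω →L[ℝ] ℝ) : res S (f + g) = res S f + res S g := by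
  apply co_inj
  rw [co_add, co_res, co_res, co_res, co_add]
  exact indicator_add' _ _ _

theorem res_smul (S : Set Ω) (a : ℝ) (f : XX Ω →L[ℝ] ℝ) : res S (a • f) = a • res S f := by
  classical
  apply co_inj
  rw [co_smul, co_res, co_res, co_smul]
  funext t
  rw [Pi.smul_apply, indicator_apply, indicator_apply]
  split_ifs
  · rfl
  · rw [smul_zero]

/-- Norm of the functional without one coordinate. -/
noncomputable def vt (t : Ω) (f : XX Ω →L[ℝ] ℝ) : ℝ := ‖res {t}ᶜ f‖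

theorem vt_nonneg (t : Ω) (f : XX Ω →L[ℝ] ℝ) : 0 ≤ vt t f := norm_nonneg _

theorem vt_add (t : Ω) (f g : XX Ω →L[ℝ] ℝ) : vt t (f + g) ≤ vt t f + vt t g := by
  unfold vt
  rw [res_add]
  exact norm_add_le _ _

theorem vt_smul (t : Ω) (a : ℝ) (f : XX Ω →L[ℝ] ℝ) : vt t (a • f) = |a| * vt t f := by
  unfold vt
  rw [res_smul, norm_smul, Real.norm_eq_abs]

theorem vt_neg (t : Ω) (f : XX Ω →L[ℝ] ℝ) : vt t (-f) = vt t f := by
  have := vt_smul t (-1) f
  have e : (-1 : ℝ) • f = -f := by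
    ext x
    show (-1 : ℝ) * f x = -(f x)
    ring
  rw [abs_neg, abs_one, one_mul, e] at this
  exact this

theorem vt_le (t : Ω) (f : XX Ω →L[ℝ] ℝ) : vt t f ≤ ‖f‖ := norm_res_le _ _

theorem norm_eq_vt (t : Ω) (f : XX Ω →L[ℝ] ℝ) : ‖f‖ = |co f t| + vt t f := by
  have h1 := norm_res_union (disjoint_compl_right (a := ({t} : Set Ω))) f
  rw [union_compl_self, res_eq_self (fun t ht => absurd (mem_univ t) ht)] at h1
  rw [h1]
  congr 1
  rw [norm_res]
  unfold tl
  rw [tsum_eq_single t]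
  · rw [indicator_of_mem (mem_singleton t)]
  · intro s hs
    rw [indicator_of_notMem (by simpa using hs)]

theorem vt_bot (f : XX Ω →L[ℝ] ℝ) : vt ⊥ f = ‖f‖ := by
  rw [norm_eq_vt ⊥ f, co_bot, abs_zero, zero_add]

theorem vt_witness (t : Ω) (f : XX Ω →L[ℝ] ℝ) {y : ℝ} (hy : y < vt t f) :
    ∃ x : XX Ω, (∀ g : XX Ω →L[ℝ] ℝ, g x ≤ vt t g) ∧ y < f x := by
  classical
  unfold vt at hy
  rw [norm_res] at hy
  have h1 := (tl_summable (co_summable f) {t}ᶜ).hasSum
  obtain ⟨F0, hF0⟩ := (h1.eventually (lt_mem_nhds hy)).exists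
  set F := (insert t F0).erase ⊥ with hF
  set ε : Ω → ℝ := fun s => if s = t then 0 else sg (co f s) with hε
  have hε1 : ∀ s, |ε s| ≤ 1 := by
    intro s
    rw [hε]
    simp only
    split_ifs
    · rw [abs_zero]; exact zero_le_one
    · exact abs_sg _
  set d := ∑ s ∈ F0, ({t}ᶜ : Set Ω).indicator (fun t => |co f t|) s - y with hd
  have hdpos : 0 < d := sub_pos.2 hF0
  obtain ⟨x, _, hx2, hx3, _, hx5⟩ := step_approx (co_summable f) ε hε1 F (by simp [hF]) (d / 2)
    (by positivity) (F.sup id) (fun u hu => Finset.le_sup (f := id) hu)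
  have hxt : x t = 0 := by
    rcases eq_or_ne t ⊥ with rfl | ht
    · exact XX.bot x
    · rw [hx3 t (Finset.mem_erase.2 ⟨ht, Finset.mem_insert_self _ _⟩), hε]
      simp
  refine ⟨x, fun g => ?_, ?_⟩
  · have h2 : (res {t} g) x = 0 := by
      apply apply_eq_zero_of (Sp_res _ _)
      intro s hs
      rw [mem_singleton_iff.1 hs, hxt]
    have h3 : g x = (res {t}ᶜ g) x := by
      conv_lhs => rw [← res_compl {t} g]
      rw [add_apply, h2, zero_add]
    rw [h3]
    have h4 := (res {t}ᶜ g).le_opNorm x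
    have h5 : ‖x‖ ≤ 1 := XX.norm_le zero_le_one hx2
    have h6 := norm_nonneg (res {t}ᶜ g)
    rw [Real.norm_eq_abs] at h4
    have h7 := le_abs_self ((res {t}ᶜ g) x)
    unfold vt
    nlinarith
  · rw [apply_eq]
    have e : ∑ u ∈ F, co f u * ε u = ∑ s ∈ F0, ({t}ᶜ : Set Ω).indicator (fun t => |co f t|) s := by
      have e1 : ∀ u, co f u * ε u = ({t}ᶜ : Set Ω).indicator (fun t => |co f t|) u := by
        intro u
        rw [hε]
        simp only
        by_cases hu : u = t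
        · rw [if_pos hu, indicator_of_notMem (by simpa using hu), mul_zero]
        · rw [if_neg hu, indicator_of_mem (by simpa using hu), mul_sg]
      rw [Finset.sum_congr rfl fun u _ => e1 u]
      have e2 : ∑ u ∈ F, ({t}ᶜ : Set Ω).indicator (fun t => |co f t|) u
          = ∑ u ∈ insert t F0, ({t}ᶜ : Set Ω).indicator (fun t => |co f t|) u := by
        apply Finset.sum_subset (Finset.erase_subset _ _)
        intro s hs hs1
        have : s = ⊥ := by
          by_contra hne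
          exact hs1 (Finset.mem_erase.2 ⟨hne, hs⟩)
        subst this
        rw [indicator_apply, co_bot, abs_zero]
        simp
      rw [e2]
      symm
      apply Finset.sum_subset (Finset.subset_insert _ _)
      intro s hs hs1
      have : s = t := by
        rcases Finset.mem_insert.1 hs with h | h
        · exact h
        · exact absurd h hs1
      rw [this, indicator_of_notMem (by simp)]
    rw [e] at hx5
    have := (abs_le.1 hx5).1
    linarith

theorem vt_lsc (t : Ω) :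
    LowerSemicontinuous fun g : WeakDual ℝ (XX Ω) => vt t (WeakDual.toStrongDual g) := by
  intro f y hy
  obtain ⟨x, hx1, hx2⟩ := vt_witness t (WeakDual.toStrongDual f) hy
  have h1 : ∀ᶠ g : WeakDual ℝ (XX Ω) in 𝓝 f, y < g x :=
    (WeakDual.eval_continuous x).continuousAt.eventually (lt_mem_nhds hx2)
  filter_upwards [h1] with g hg
  exact lt_of_lt_of_le hg (hx1 (WeakDual.toStrongDual g))

/-- Existence of good weights. -/
theorem exists_wt (c : Ω) : ∃ W : Ω → ℝ, (∀ t, 0 ≤ W t) ∧ (∀ t ≤ c, 0 < W t) ∧ Summable W ∧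
    ∑' t, W t ≤ 1 := by
  classical
  obtain ⟨e, he⟩ := Set.countable_iff_exists_injOn.1 (hΩ.ctbl c)
  set W : Ω → ℝ := (Iic c).indicator fun t => (1/2 : ℝ) ^ (e t + 1) with hW
  have hnn : ∀ t, 0 ≤ W t := fun t => indicator_nonneg (fun _ _ => by positivity) _
  have hbd : ∀ F : Finset Ω, ∑ t ∈ F, W t ≤ 1 := by
    intro F
    have h1 : ∑ t ∈ F, W t = ∑ t ∈ F.filter (· ≤ c), (1/2 : ℝ) ^ (e t + 1) := by
      rw [Finset.sum_filter]
      apply Finset.sum_congr rfl
      intro t _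
      rw [hW, indicator_apply]
      rfl
    rw [h1]
    have h2 : ∑ t ∈ F.filter (· ≤ c), (1/2 : ℝ) ^ (e t + 1)
        = ∑ n ∈ (F.filter (· ≤ c)).image e, (1/2 : ℝ) ^ (n + 1) := by
      rw [Finset.sum_image]
      intro a ha b hb hab
      exact he (Finset.mem_filter.1 ha).2 (Finset.mem_filter.1 hb).2 hab
    rw [h2]
    have h3 : HasSum (fun n : ℕ => (1/2 : ℝ) ^ (n + 1)) 1 := by
      have h4 := hasSum_geometric_two.mul_left (1/2 : ℝ)
      have e1 : (fun n : ℕ => (1/2 : ℝ) ^ (n + 1)) = fun i => 1/2 * (1/2 : ℝ) ^ i := by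
        funext n
        rw [pow_succ]; ring
      have e2 : (1/2 : ℝ) * 2 = 1 := by norm_num
      rw [e1]
      rw [e2] at h4
      exact h4
    exact sum_le_hasSum _ (fun n _ => by positivity) h3
  refine ⟨W, hnn, fun t ht => ?_, summable_of_sum_le hnn hbd, ?_⟩
  · rw [hW, indicator_of_mem (show t ∈ Iic c from ht)]
    positivity
  · exact (summable_of_sum_le hnn hbd).tsum_le_of_sum_le hbd

/-- The quadratic functional. -/
noncomputable def DD (W : Ω → ℝ) (f : XX Ω →L[ℝ] ℝ) : ℝ := ∑' t, W t * vt t f ^ 2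

section DDsec

variable {W : Ω → ℝ} (h0 : ∀ t, 0 ≤ W t) (hs : Summable W)

include h0 hs

theorem DD_summable (f : XX Ω →L[ℝ] ℝ) : Summable fun t => W t * vt t f ^ 2 := by
  refine (hs.mul_right (‖f‖ ^ 2)).of_nonneg_of_le (fun t => mul_nonneg (h0 t) (sq_nonneg _))
    (fun t => ?_)
  have h1 := vt_le t f
  have h2 := vt_nonneg t f
  have h3 := h0 t
  gcongr

omit hs in
theorem DD_nonneg (f : XX Ω →L[ℝ] ℝ) : 0 ≤ DD W f :=
  tsum_nonneg fun t => mul_nonneg (h0 t) (sq_nonneg _)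

theorem DD_le (h1 : ∑' t, W t ≤ 1) {f : XX Ω →L[ℝ] ℝ} {L : ℝ} (hf : ‖f‖ ≤ L) :
    DD W f ≤ L ^ 2 := by
  have h2 : DD W f ≤ ∑' t, W t * L ^ 2 := by
    apply (DD_summable h0 hs f).tsum_le_tsum _ (hs.mul_right _)
    intro t
    have h3 := (vt_le t f).trans hf
    have h4 := vt_nonneg t f
    have h5 := h0 t
    gcongr
  rw [tsum_mul_right] at h2
  have := sq_nonneg L
  nlinarith

theorem DD_lsc :
    LowerSemicontinuous fun g : WeakDual ℝ (XX Ω) => DD W (WeakDual.toStrongDual g) := by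
  intro f y hy
  have h1 := (DD_summable h0 hs (WeakDual.toStrongDual f)).hasSum
  obtain ⟨F, hF⟩ := (h1.eventually (lt_mem_nhds hy)).exists
  have h2 : LowerSemicontinuous fun g : WeakDual ℝ (XX Ω) =>
      ∑ t ∈ F, W t * vt t (WeakDual.toStrongDual g) ^ 2 := by
    apply lowerSemicontinuous_sum
    intro t _
    have h3 : Monotone fun r : ℝ => W t * (max r 0) ^ 2 := by
      intro a b hab
      have h4 : max a 0 ≤ max b 0 := max_le_max hab le_rfl
      have h5 : 0 ≤ max a 0 := le_max_right _ _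
      have h6 := h0 t
      show W t * (max a 0) ^ 2 ≤ W t * (max b 0) ^ 2
      gcongr
    have h4 : Continuous fun r : ℝ => W t * (max r 0) ^ 2 := by fun_prop
    have h5 := h4.comp_lowerSemicontinuous (vt_lsc t) h3
    have e : (fun g : WeakDual ℝ (XX Ω) => W t * vt t (WeakDual.toStrongDual g) ^ 2)
        = (fun r : ℝ => W t * (max r 0) ^ 2) ∘ fun g => vt t (WeakDual.toStrongDual g) := by
      funext g
      show _ = W t * (max (vt t (WeakDual.toStrongDual g)) 0) ^ 2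
      rw [max_eq_left (vt_nonneg _ _)]
    rw [e]
    exact h5
  filter_upwards [h2 f y hF] with g hg
  exact lt_of_lt_of_le hg ((DD_summable h0 hs (WeakDual.toStrongDual g)).sum_le_tsum F
    fun t _ => mul_nonneg (h0 t) (sq_nonneg _))

end DDsec

theorem scal_lur {a b N σ : ℝ} (ha : 0 ≤ N) (hσ : 0 < σ)
    (hN : N ≤ (a + b) / 2) (h : (a ^ 2 + b ^ 2) / 2 - N ^ 2 ≤ σ ^ 2 / 4) :
    |a - b| ≤ σ ∧ a + b - 2 * N ≤ σ := by
  have h1 : 0 ≤ ((a + b) / 2 - N) * N := mul_nonneg (by linarith) ha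
  constructor
  · apply abs_le_of_sq_le_sq _ hσ.le
    nlinarith
  · have h2 : ((a + b) - 2 * N) ^ 2 ≤ σ ^ 2 := by nlinarith [sq_nonneg (a - b)]
    exact (le_abs_self _).trans (abs_le_of_sq_le_sq h2 hσ.le)

theorem scal_co {x y z N1 N2 N3 v1 v2 v3 σ : ℝ} (h1 : N1 = |x| + v1) (h2 : N2 = |y| + v2)
    (h3 : N3 = |x + y| + v3) (h4 : |N1 - N2| ≤ σ) (h5 : |v1 - v2| ≤ σ) (h6 : N1 + N2 - N3 ≤ σ)
    (h7 : v3 ≤ v1 + v2) (hz : z = y - x) : |z| ≤ 3 * σ := by
  rw [abs_le] at h4 h5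
  subst hz
  rw [abs_le]
  rcases abs_cases x with ⟨hx, hx'⟩ | ⟨hx, hx'⟩ <;> rcases abs_cases y with ⟨hy, hy'⟩ | ⟨hy, hy'⟩ <;>
    rcases abs_cases (x + y) with ⟨hxy, hxy'⟩ | ⟨hxy, hxy'⟩ <;> rw [hx] at h1 <;> rw [hy] at h2 <;>
    rw [hxy] at h3 <;> constructor <;> linarith

/-- The penalty function. -/
noncomputable def pw (W : Ω → ℝ) (L : ℝ) (f : XX Ω →L[ℝ] ℝ) : ℝ := 1 - DD W f / L ^ 2

theorem tail_sub_le (f f0 : XX Ω →L[ℝ] ℝ) (F : Finset Ω) :
    ∑' t : {t // t ∉ F}, |co (f - f0) t|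
      ≤ ∑' t : {t // t ∉ F}, |co f t| + ∑' t : {t // t ∉ F}, |co f0 t| := by
  have h1 : Summable fun t : {t // t ∉ F} => |co f t| := (co_summable f).subtype _
  have h2 : Summable fun t : {t // t ∉ F} => |co f0 t| := (co_summable f0).subtype _
  have h3 : Summable fun t : {t // t ∉ F} => |co (f - f0) t| := (co_summable (f - f0)).subtype _
  rw [← h1.tsum_add h2]
  apply h3.tsum_le_tsum _ (h1.add h2)
  intro t
  rw [co_sub]
  exact abs_sub _ _

theorem pw_lur {A : XX Ω → ℝ} {L : ℝ} (hL : 0 < L) {c : Ω}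
    (hsp : ∀ f ∈ Pol A, Sp f (Iic c)) {W : Ω → ℝ}
    (h0 : ∀ t, 0 ≤ W t) (hpos : ∀ t ≤ c, 0 < W t) (hs : Summable W) :
    ∀ f0 ∈ Pol A, ∀ η > (0:ℝ), ∃ τ > (0:ℝ), ∀ f ∈ Pol A,
    pw W L ((1/2:ℝ) • (f0 + f)) ≤ (pw W L f0 + pw W L f) / 2 + τ → ‖f - f0‖ ≤ η := by
  classical
  intro f0 hf0 η hη
  -- finite set with small tail
  have hsum := (co_summable f0).hasSum
  rw [← norm_eq] at hsum
  obtain ⟨F0, hF0⟩ := (hsum.eventually (lt_mem_nhds (show ‖f0‖ - η / 8 < ‖f0‖ by linarith))).exists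
  set F := insert ⊥ (F0.filter (· ≤ c)) with hF
  have hFc : ∀ t ∈ F, t ≤ c := by
    intro t ht
    rcases Finset.mem_insert.1 ht with rfl | ht
    · exact bot_le
    · exact (Finset.mem_filter.1 ht).2
  have hF1 : ‖f0‖ - η / 8 < ∑ t ∈ F, |co f0 t| := by
    refine lt_of_lt_of_le hF0 ?_
    have : ∑ t ∈ F0, |co f0 t| = ∑ t ∈ F0.filter (· ≤ c), |co f0 t| := by
      symm
      apply Finset.sum_subset (Finset.filter_subset _ _)
      intro t ht ht1
      have : ¬ t ≤ c := fun hc => ht1 (Finset.mem_filter.2 ⟨ht, hc⟩)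
      rw [hsp f0 hf0 t this, abs_zero]
    rw [this]
    apply Finset.sum_le_sum_of_subset_of_nonneg (Finset.subset_insert _ _)
    intro t _ _
    exact abs_nonneg _
  set σ : ℝ := η / (16 * (F.card + 1)) with hσ
  have hσpos : 0 < σ := by positivity
  -- lower bound for the weights
  obtain ⟨m, hm0, hm⟩ : ∃ m > (0:ℝ), ∀ t ∈ F, m ≤ W t := by
    have hne : F.Nonempty := ⟨⊥, Finset.mem_insert_self _ _⟩
    obtain ⟨t0, ht0, hmin⟩ := Finset.exists_min_image F W hne
    exact ⟨W t0, hpos t0 (hFc t0 ht0), hmin⟩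
  refine ⟨m * (σ ^ 2 / 4) / L ^ 2, by positivity, ?_⟩
  intro f hf hlur
  unfold pw at hlur
  set h : XX Ω →L[ℝ] ℝ := (1/2 : ℝ) • (f0 + f) with hh
  have hgap : (DD W f0 + DD W f) / 2 - DD W h ≤ m * (σ ^ 2 / 4) := by
    have e : (1 - DD W h / L ^ 2) - ((1 - DD W f0 / L ^ 2) + (1 - DD W f / L ^ 2)) / 2
        = ((DD W f0 + DD W f) / 2 - DD W h) / L ^ 2 := by ring
    have h2 : ((DD W f0 + DD W f) / 2 - DD W h) / L ^ 2 ≤ m * (σ ^ 2 / 4) / L ^ 2 := by
      rw [← e]; linarith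
    rwa [div_le_div_iff_of_pos_right (by positivity)] at h2
  -- termwise
  have hvh : ∀ t, vt t h ≤ (vt t f0 + vt t f) / 2 := by
    intro t
    rw [hh, vt_smul, abs_of_pos (by norm_num : (0:ℝ) < 1/2)]
    have := vt_add t f0 f
    linarith
  have hterm : ∀ t, 0 ≤ W t * ((vt t f0 ^ 2 + vt t f ^ 2) / 2 - vt t h ^ 2) := by
    intro t
    apply mul_nonneg (h0 t)
    have h3 := hvh t
    have h4 := vt_nonneg t h
    nlinarith [sq_nonneg (vt t f0 - vt t f)]
  have hsummable : Summable fun t => W t * ((vt t f0 ^ 2 + vt t f ^ 2) / 2 - vt t h ^ 2) := by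
    have := (((DD_summable h0 hs f0).add (DD_summable h0 hs f)).mul_left (1/2)).sub
      (DD_summable h0 hs h)
    refine this.congr (fun t => ?_)
    ring
  have htot : ∑' t, W t * ((vt t f0 ^ 2 + vt t f ^ 2) / 2 - vt t h ^ 2)
      = (DD W f0 + DD W f) / 2 - DD W h := by
    have e1 : ∀ t, W t * ((vt t f0 ^ 2 + vt t f ^ 2) / 2 - vt t h ^ 2)
        = (1/2 * (W t * vt t f0 ^ 2 + W t * vt t f ^ 2)) - W t * vt t h ^ 2 := fun t => by ring
    rw [tsum_congr e1, (((DD_summable h0 hs f0).add (DD_summable h0 hs f)).mul_left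
      (1/2)).tsum_sub (DD_summable h0 hs h), tsum_mul_left,
      (DD_summable h0 hs f0).tsum_add (DD_summable h0 hs f)]
    unfold DD
    ring
  have hb : ∀ t ∈ F, |vt t f0 - vt t f| ≤ σ ∧ vt t f0 + vt t f - 2 * vt t h ≤ σ := by
    intro t ht
    apply scal_lur (vt_nonneg t h) hσpos (hvh t)
    have h3 : W t * ((vt t f0 ^ 2 + vt t f ^ 2) / 2 - vt t h ^ 2) ≤ m * (σ ^ 2 / 4) :=
      (hsummable.le_tsum t fun s _ => hterm s).trans (htot ▸ hgap)
    have h4 := hm t ht
    have h5 : 0 < W t := lt_of_lt_of_le hm0 h4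
    have h6 : W t * ((vt t f0 ^ 2 + vt t f ^ 2) / 2 - vt t h ^ 2) ≤ W t * (σ ^ 2 / 4) :=
      h3.trans (mul_le_mul_of_nonneg_right h4 (by positivity))
    exact le_of_mul_le_mul_left h6 h5
  have hbot := hb ⊥ (Finset.mem_insert_self _ _)
  rw [vt_bot, vt_bot, vt_bot] at hbot
  have hh2 : 2 * ‖h‖ = ‖f0 + f‖ := by
    rw [hh, norm_smul, Real.norm_eq_abs, abs_of_pos (by norm_num : (0:ℝ) < 1/2)]
    ring
  have hco : ∀ t ∈ F, |co (f - f0) t| ≤ 3 * σ := by
    intro t ht
    apply scal_co (norm_eq_vt t f0) (norm_eq_vt t f) (N3 := ‖f0 + f‖) (v3 := vt t (f0 + f))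
      (by rw [norm_eq_vt t (f0 + f), co_add]; rfl) hbot.1 (hb t ht).1
      (by have := hbot.2; linarith) (vt_add t f0 f)
    rw [co_sub]
    rfl
  -- the tails
  have hfs : ∑ t ∈ F, |co f0 t| - 3 * σ * F.card ≤ ∑ t ∈ F, |co f t| := by
    have : ∑ t ∈ F, (|co f0 t| - 3 * σ) ≤ ∑ t ∈ F, |co f t| := by
      apply Finset.sum_le_sum
      intro t ht
      have h3 := hco t ht
      rw [co_sub, Pi.sub_apply] at h3
      have h4 : |co f0 t| - |co f t| ≤ |co f t - co f0 t| := by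
        rw [abs_sub_comm]; exact abs_sub_abs_le_abs_sub _ _
      linarith
    rw [Finset.sum_sub_distrib, Finset.sum_const, nsmul_eq_mul] at this
    linarith
  have hsplit : ∀ g : XX Ω →L[ℝ] ℝ, ‖g‖ = ∑ t ∈ F, |co g t| + ∑' t : {t // t ∉ F}, |co g t| := by
    intro g
    rw [norm_eq]
    exact ((co_summable g).sum_add_tsum_subtype_compl F).symm
  have htail : ∑' t : {t // t ∉ F}, |co (f - f0) t|
      ≤ ∑' t : {t // t ∉ F}, |co f t| + ∑' t : {t // t ∉ F}, |co f0 t| := by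
    exact tail_sub_le f f0 F
  have hdf : ∑ t ∈ F, |co (f - f0) t| ≤ 3 * σ * F.card := by
    have : ∑ t ∈ F, |co (f - f0) t| ≤ ∑ t ∈ F, (3 * σ) := Finset.sum_le_sum hco
    rw [Finset.sum_const, nsmul_eq_mul] at this
    linarith
  have e1 := hsplit (f - f0)
  have e2 := hsplit f
  have e3 := hsplit f0
  have e4 := (abs_le.1 hbot.1).1
  have e5 : σ * (F.card + 1) = η / 16 := by
    rw [hσ]; field_simp
  have e6 : 0 ≤ (F.card : ℝ) := by positivity
  nlinarith

theorem isPen_pw {A : XX Ω → ℝ} (hA : IsSemi A) {L : ℝ} (hL : 0 < L) {c : Ω}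
    (hn : ∀ f ∈ Pol A, ‖f‖ ≤ L) (hsp : ∀ f ∈ Pol A, Sp f (Iic c)) {W : Ω → ℝ}
    (h0 : ∀ t, 0 ≤ W t) (hpos : ∀ t ≤ c, 0 < W t) (hs : Summable W) (h1 : ∑' t, W t ≤ 1) :
    IsPen A (pw W L) where
  nonneg := by
    intro f hf
    unfold pw
    have h2 := DD_le h0 hs h1 (hn f hf)
    have : DD W f / L ^ 2 ≤ 1 := by
      rw [div_le_one (by positivity)]
      exact h2
    linarith
  le_one := by
    intro f hf
    unfold pw
    have h2 := DD_nonneg h0 f
    have : 0 ≤ DD W f / L ^ 2 := by positivity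
    linarith
  neg := by
    intro f _
    unfold pw DD
    simp only [vt_neg]
  max := by
    intro x b hb
    have husc : UpperSemicontinuous fun g : WeakDual ℝ (XX Ω) =>
        (fun f : XX Ω →L[ℝ] ℝ => f x + b * pw W L f) (WeakDual.toStrongDual g) := by
      have e : (fun g : WeakDual ℝ (XX Ω) =>
          (fun f : XX Ω →L[ℝ] ℝ => f x + b * pw W L f) (WeakDual.toStrongDual g))
          = fun g : WeakDual ℝ (XX Ω) => (g x + b) + (fun r : ℝ => -(b / L ^ 2) * r)
            (DD W (WeakDual.toStrongDual g)) := by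
        funext g
        unfold pw
        show (WeakDual.toStrongDual g) x + b * (1 - DD W (WeakDual.toStrongDual g) / L ^ 2)
          = (g x + b) + -(b / L ^ 2) * (DD W (WeakDual.toStrongDual g))
        have : (WeakDual.toStrongDual g) x = g x := rfl
        rw [this]
        ring
      rw [e]
      apply UpperSemicontinuous.add
      · apply Continuous.upperSemicontinuous
        exact (WeakDual.eval_continuous x).add continuous_const
      · have hc : Continuous fun r : ℝ => -(b / L ^ 2) * r := by fun_prop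
        apply hc.comp_lowerSemicontinuous_antitone (DD_lsc h0 hs)
        intro r r' hr
        have : 0 ≤ b / L ^ 2 := by positivity
        show -(b / L ^ 2) * r' ≤ -(b / L ^ 2) * r
        nlinarith
    exact exists_max_Pol hA hn _ husc
  lur := pw_lur hL hsp h0 hpos hs

end lur

end Pool.Agent.Helper957
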