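import Mathlib
import Pool.Agent.Helper957.Lur

set_option autoImplicit false

namespace Pool.Agent.Helper957

open Set Filter Topology

section order

variable {Ω : Type*} [LinearOrder Ω] [OrderBot Ω] [hΩ : Omg Ω]

/-- Closing off under a function. -/
theorem exists_closed_gt (h : Ω → Ω) (δ : Ω) : ∃ β, δ < β ∧ ∀ γ < β, h γ < β := by
  classical
  have hstep : ∀ a : Ω, ∃ b, a < b ∧ ∀ γ ≤ a, h γ < b := by
    intro a
    obtain ⟨b, hb⟩ := exists_gt_of_countable (S := insert a (h '' Iic a))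
      (((hΩ.ctbl a).image h).insert a)
    exact ⟨b, hb a (mem_insert _ _), fun γ hγ => hb _ (mem_insert_of_mem _ ⟨γ, hγ, rfl⟩)⟩
  choose g hg1 hg2 using hstep
  set s : ℕ → Ω := fun n => g^[n + 1] δ with hs
  have hs1 : ∀ n, s n < s (n + 1) := by
    intro n
    rw [hs]
    simp only
    rw [Function.iterate_succ_apply' g (n + 1)]
    exact hg1 _
  have hs2 : ∀ n, ∀ γ ≤ s n, h γ < s (n + 1) := by
    intro n γ hγ
    rw [hs]
    simp only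
    rw [Function.iterate_succ_apply' g (n + 1)]
    exact hg2 _ γ hγ
  obtain ⟨b, hb⟩ := exists_gt_all s
  obtain ⟨β, hβ, hmin⟩ := (wellFounded_lt (α := Ω)).has_min {b | ∀ n, s n < b} ⟨b, hb⟩
  refine ⟨β, lt_trans (hg1 δ) (hβ 0), fun γ hγ => ?_⟩
  have : ¬ ∀ n, s n < γ := fun hc => hmin γ hc hγ
  push Not at this
  obtain ⟨n, hn⟩ := this
  exact (hs2 n γ hn).trans (hβ (n + 1))

end order

section sep

variable {Ω : Type*} [LinearOrder Ω] [OrderBot Ω] [hΩ : Omg Ω]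

theorem res_empty (f : XX Ω →L[ℝ] ℝ) : res ∅ f = 0 := by
  have h := norm_res ∅ f
  unfold tl at h
  rw [indicator_empty] at h
  simpa using h

theorem res_univ (f : XX Ω →L[ℝ] ℝ) : res univ f = f :=
  res_eq_self fun t ht => absurd (mem_univ t) ht

theorem res_finset_apply (f : XX Ω →L[ℝ] ℝ) (F : Finset Ω) :
    res (F : Set Ω) f = ∑ t ∈ F, co f t • evl t := by
  ext x
  rw [apply_eq, co_res, tsum_eq_sum (s := F), sum_apply]
  · apply Finset.sum_congr rfl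
    intro t ht
    rw [indicator_of_mem (Finset.mem_coe.2 ht), smul_apply, evl_apply, smul_eq_mul]
  · intro t ht
    rw [indicator_of_notMem (fun hc => ht (Finset.mem_coe.1 hc)), zero_mul]

theorem res_finite_approx (f : XX Ω →L[ℝ] ℝ) {η : ℝ} (hη : 0 < η) :
    ∃ F : Finset Ω, ‖res (F : Set Ω)ᶜ f‖ < η := by
  have h1 := _root_.tendsto_tsum_compl_atTop_zero (fun t => |co f t|)
  obtain ⟨F, hF⟩ := (h1.eventually (gt_mem_nhds hη)).exists
  refine ⟨F, ?_⟩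
  rw [norm_res]
  refine lt_of_le_of_lt (le_of_eq ?_) hF
  unfold tl
  rw [← tsum_subtype]
  rfl

theorem tail_res (f : XX Ω →L[ℝ] ℝ) {β : Ω} (hβ : ⊥ < β) {η : ℝ} (hη : 0 < η) :
    ∃ s < β, ‖res (Ioo s β) f‖ < η := by
  obtain ⟨s, hs, h⟩ := tail_small (co_summable f) hβ hη
  exact ⟨s, hs, by rwa [norm_res]⟩

theorem sub_res (S : Set Ω) (f : XX Ω →L[ℝ] ℝ) : f - res S f = res Sᶜ f := by
  have h := res_compl S f
  rw [sub_eq_iff_eq_add, add_comm]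
  exact h.symm

theorem isSep (γ : Ω) : TopologicalSpace.IsSeparable {f : XX Ω →L[ℝ] ℝ | Sp f (Iic γ)} := by
  have h1 : TopologicalSpace.IsSeparable
      (closure (Submodule.span ℝ ((evl : Ω → XX Ω →L[ℝ] ℝ) '' Iic γ) : Set (XX Ω →L[ℝ] ℝ))) :=
    ((hΩ.ctbl γ).image evl).isSeparable.span.closure
  apply h1.mono
  intro f hf
  rw [Metric.mem_closure_iff]
  intro η hη
  obtain ⟨F, hF⟩ := res_finite_approx f hη
  refine ⟨res (F : Set Ω) f, ?_, ?_⟩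
  · rw [res_finset_apply]
    apply Submodule.sum_mem
    intro t _
    by_cases ht : t ≤ γ
    · exact Submodule.smul_mem _ _ (Submodule.subset_span ⟨t, ht, rfl⟩)
    · rw [hf t ht, zero_smul]
      exact Submodule.zero_mem _
  · rw [dist_eq_norm, sub_res]
    exact hF

/-- A dense sequence in a set of functionals with common support bound. -/
theorem exists_dense_seq {γ : Ω} {T : Set (XX Ω →L[ℝ] ℝ)} (hT : ∀ f ∈ T, Sp f (Iic γ))
    (hne : T.Nonempty) : ∃ τ : ℕ → XX Ω →L[ℝ] ℝ, (∀ n, τ n ∈ T) ∧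
      ∀ f ∈ T, ∀ η > (0 : ℝ), ∃ n, ‖f - τ n‖ < η := by
  have h1 : TopologicalSpace.IsSeparable T := (isSep γ).mono hT
  obtain ⟨D, hD1, hD2, hD3⟩ := h1.exists_countable_dense_subset
  have hDne : D.Nonempty := by
    obtain ⟨f, hf⟩ := hne
    by_contra hc
    rw [not_nonempty_iff_eq_empty] at hc
    have := hD3 hf
    rw [hc, closure_empty] at this
    exact this
  obtain ⟨τ, hτ⟩ := hD2.exists_eq_range hDne
  refine ⟨τ, fun n => hD1 (hτ ▸ mem_range_self n), fun f hf η hη => ?_⟩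
  have := hD3 hf
  rw [Metric.mem_closure_iff] at this
  obtain ⟨g, hg, hd⟩ := this η hη
  rw [hτ] at hg
  obtain ⟨n, rfl⟩ := hg
  exact ⟨n, by rwa [dist_eq_norm] at hd⟩

theorem Sp_bound (f : XX Ω →L[ℝ] ℝ) : ∃ b, Sp f (Iic b) := by
  have h1 : (Function.support (co f)).Countable := (co_summable' f).countable_support
  obtain ⟨b, hb⟩ := exists_gt_of_countable h1
  refine ⟨b, fun t ht => ?_⟩
  by_contra hne
  exact ht (hb t hne).le

end sep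

section club

variable {Ω : Type*} [LinearOrder Ω] [OrderBot Ω] [hΩ : Omg Ω]

/-- Functionals vanishing on the kernel. -/
def Zf (p : XX Ω → ℝ) : Set (XX Ω →L[ℝ] ℝ) := {f | ∀ x, p x = 0 → f x = 0}

variable {p : XX Ω → ℝ}

omit hΩ in
theorem Zf.zero : (0 : XX Ω →L[ℝ] ℝ) ∈ Zf p := fun _ _ => rfl

omit hΩ in
theorem Zf.add {f g : XX Ω →L[ℝ] ℝ} (hf : f ∈ Zf p) (hg : g ∈ Zf p) : f + g ∈ Zf p :=
  fun x hx => by rw [add_apply, hf x hx, hg x hx, add_zero]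

omit hΩ in
theorem Zf.sub {f g : XX Ω →L[ℝ] ℝ} (hf : f ∈ Zf p) (hg : g ∈ Zf p) : f - g ∈ Zf p :=
  fun x hx => by rw [sub_apply, hf x hx, hg x hx, sub_zero]

omit hΩ in
theorem Zf.smul {f : XX Ω →L[ℝ] ℝ} (hf : f ∈ Zf p) (c : ℝ) : c • f ∈ Zf p :=
  fun x hx => by rw [smul_apply, hf x hx, smul_zero]

omit hΩ in
theorem Zf.neg {f : XX Ω →L[ℝ] ℝ} (hf : f ∈ Zf p) : -f ∈ Zf p :=
  fun x hx => by
    show -(f x) = 0
    rw [hf x hx, neg_zero]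

omit hΩ in
theorem Zf.of_Pol (hp : IsSemi p) {f : XX Ω →L[ℝ] ℝ} (hf : f ∈ Pol p) : f ∈ Zf p := by
  intro x hx
  have := Pol.abs_le hp hf x
  rw [hx] at this
  exact abs_eq_zero.1 (le_antisymm this (abs_nonneg _))

/-- The good points. -/
def CR (p : XX Ω → ℝ) : Set Ω := {β | ∀ f ∈ Pol p, res (Iio β) f ∈ Pol p}

theorem CR_closed (hp : IsSemi p) {β : Ω} (h : ∀ δ < β, ∃ γ ∈ CR p, δ < γ ∧ γ < β) : β ∈ CR p := by
  intro f hf x
  rcases eq_or_ne β ⊥ with h0 | hβ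
  · rw [h0, Iio_bot, res_empty]
    exact hp.nonneg x
  · have hβ' : ⊥ < β := bot_lt_iff_ne_bot.2 hβ
    apply le_of_forall_pos_le_add
    intro η hη
    obtain ⟨s, hs, hs2⟩ := tail_res f hβ' (show 0 < η / (‖x‖ + 1) by positivity)
    obtain ⟨γ, hγ, h1, h2⟩ := h s hs
    have e : res (Iio β) f = res (Iio γ) f + res (Ico γ β) f := by
      rw [← res_union, Iio_union_Ico_eq_Iio h2.le]
      rw [Set.disjoint_left]
      intro t ht ht2
      exact absurd ht (not_lt.2 ht2.1)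
    have h3 : ‖res (Ico γ β) f‖ ≤ ‖res (Ioo s β) f‖ :=
      norm_res_mono (S := Ico γ β) (S' := Ioo s β) (fun t ht => ⟨lt_of_lt_of_le h1 ht.1, ht.2⟩) f
    have h4 := hγ f hf x
    have h5 : (res (Ico γ β) f) x ≤ ‖res (Ico γ β) f‖ * ‖x‖ :=
      (le_abs_self _).trans ((res (Ico γ β) f).le_opNorm x)
    have h6 : ‖res (Ico γ β) f‖ * ‖x‖ ≤ η / (‖x‖ + 1) * (‖x‖ + 1) := by
      have := norm_nonneg x
      have h7 := norm_nonneg (res (Ico γ β) f)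
      apply mul_le_mul (h3.trans hs2.le) (by linarith) this (by positivity)
    have h7 : η / (‖x‖ + 1) * (‖x‖ + 1) = η := by field_simp
    rw [e, add_apply]
    linarith

/-- Unboundedness of the good points. -/
theorem exists_CR (p : XX Ω → ℝ) (h : Ω → Ω) (δ : Ω) :
    ∃ β, δ < β ∧ (∀ γ < β, h γ < β) ∧ β ∈ CR p := by
  classical
  have hD : ∀ γ : Ω, ∃ τ : ℕ → XX Ω →L[ℝ] ℝ, (∀ n, τ n ∈ {f : XX Ω →L[ℝ] ℝ | Sp f (Iic γ)}) ∧
      ∀ f ∈ {f : XX Ω →L[ℝ] ℝ | Sp f (Iic γ)}, ∀ η > (0 : ℝ), ∃ n, ‖f - τ n‖ < η := fun γ =>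
    exists_dense_seq (γ := γ) (T := {f : XX Ω →L[ℝ] ℝ | Sp f (Iic γ)}) (fun f hf => hf)
      ⟨res ∅ 0, (Sp_res _ _).mono (empty_subset _)⟩
  choose τ hτ1 hτ2 using hD
  -- bounds
  have hb : ∀ (γ : Ω) (n k : ℕ), ∃ b : Ω,
      (∀ x : XX Ω, τ γ n x ≤ p x + 1 / ((k : ℝ) + 1) * ‖x‖) ∨
      ∀ β, b < β → ∀ f ∈ Pol p, 1 / ((k : ℝ) + 1) < ‖res (Iio β) f - τ γ n‖ := by
    intro γ n k
    by_cases hgood : ∀ x : XX Ω, τ γ n x ≤ p x + 1 / ((k : ℝ) + 1) * ‖x‖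
    · exact ⟨⊥, Or.inl hgood⟩
    · push Not at hgood
      obtain ⟨x, hx⟩ := hgood
      obtain ⟨b, hb⟩ := XX.bound x
      refine ⟨b, Or.inr fun β hβ f hf => ?_⟩
      by_contra hc
      push Not at hc
      have h1 : (res (Iio β) f) x = f x := by
        have h2 := res_compl (Iio β) f
        have h3 : (res (Iio β)ᶜ f) x = 0 := by
          apply apply_eq_zero_of (Sp_res _ _)
          intro t ht
          apply hb
          exact lt_of_lt_of_le hβ (not_lt.1 ht)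
        conv_rhs => rw [← h2]
        rw [add_apply, h3, add_zero]
      have h2 : (τ γ n - res (Iio β) f) x ≤ ‖res (Iio β) f - τ γ n‖ * ‖x‖ := by
        rw [norm_sub_rev]
        exact (le_abs_self _).trans ((τ γ n - res (Iio β) f).le_opNorm x)
      rw [sub_apply, h1] at h2
      have h3 := hf x
      have h4 := mul_le_mul_of_nonneg_right hc (norm_nonneg x)
      linarith
  choose b hb using hb
  have hg : ∀ γ : Ω, ∃ c : Ω, (∀ n k, b γ n k < c) ∧ h γ < c ∧ γ < c := by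
    intro γ
    obtain ⟨c1, hc1⟩ := exists_gt_all fun q : ℕ × ℕ => b γ q.1 q.2
    obtain ⟨c2, hc2⟩ := exists_gt_of_countable (S := {c1, h γ, γ})
      (((Set.finite_singleton γ).insert _).insert _).countable
    refine ⟨c2, fun n k => (hc1 (n, k)).trans (hc2 c1 (by simp)), hc2 _ (by simp), hc2 _ (by simp)⟩
  choose g hg1 hg2 hg3 using hg
  obtain ⟨β, hβ1, hβ2⟩ := exists_closed_gt g δ
  refine ⟨β, hβ1, fun γ hγ => (hg2 γ).trans (hβ2 γ hγ), ?_⟩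
  intro f hf x
  have hβ' : ⊥ < β := lt_of_le_of_lt bot_le hβ1
  apply le_of_forall_pos_le_add
  intro η hη
  obtain ⟨k, hk⟩ := exists_nat_one_div_lt (show 0 < η / (2 * (‖x‖ + 1)) by positivity)
  obtain ⟨s, hs, hs2⟩ := tail_res f hβ' (show 0 < 1 / (2 * ((k : ℝ) + 1)) by positivity)
  obtain ⟨n, hn⟩ := hτ2 s (res (Iic s) f) (Sp_res _ _) (1 / (2 * ((k : ℝ) + 1))) (by positivity)
  have e : res (Iio β) f = res (Iic s) f + res (Ioo s β) f := by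
    rw [← res_union, Iic_union_Ioo_eq_Iio hs]
    rw [Set.disjoint_left]
    intro t ht ht2
    exact absurd ht2.1 (not_lt.2 ht)
  have h1 : ‖res (Iio β) f - τ s n‖ ≤ 1 / ((k : ℝ) + 1) := by
    have e2 : res (Iio β) f - τ s n = (res (Iic s) f - τ s n) + res (Ioo s β) f := by
      rw [e]; abel
    rw [e2]
    refine (norm_add_le _ _).trans ?_
    have e3 : 1 / ((k : ℝ) + 1) = 1 / (2 * ((k : ℝ) + 1)) + 1 / (2 * ((k : ℝ) + 1)) := by
      field_simp; ring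
    rw [e3]
    exact add_le_add hn.le hs2.le
  have h2 : ∀ x : XX Ω, τ s n x ≤ p x + 1 / ((k : ℝ) + 1) * ‖x‖ := by
    rcases hb s n k with hgood | hbad
    · exact hgood
    · exact absurd (hbad β ((hg1 s n k).trans (hβ2 s hs)) f hf) (not_lt.2 h1)
  have h3 : (res (Iio β) f - τ s n) x ≤ ‖res (Iio β) f - τ s n‖ * ‖x‖ :=
    (le_abs_self _).trans ((res (Iio β) f - τ s n).le_opNorm x)
  rw [sub_apply] at h3
  have h4 := h2 x
  have h5 := norm_nonneg x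
  have h6 : 1 / ((k : ℝ) + 1) * ‖x‖ ≤ η / (2 * (‖x‖ + 1)) * (‖x‖ + 1) :=
    mul_le_mul hk.le (by linarith) h5 (by positivity)
  have h7 : η / (2 * (‖x‖ + 1)) * (‖x‖ + 1) = η / 2 := by field_simp
  have h8 := mul_le_mul_of_nonneg_right h1 h5
  linarith

omit hΩ in
theorem evl_closed {β : Ω} (h : ∀ δ < β, ∃ γ, evl γ ∈ Zf p ∧ δ < γ ∧ γ < β) :
    evl β ∈ Zf p := by
  intro x hx
  rw [evl_apply]
  rcases eq_or_ne β ⊥ with rfl | hβ
  · exact XX.bot x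
  · by_contra hne
    have hpos : 0 < |x β| := abs_pos.2 hne
    obtain ⟨s, hs, hs2⟩ := XX.left x (bot_lt_iff_ne_bot.2 hβ) (show 0 < |x β| / 2 by positivity)
    obtain ⟨γ, hγ, h1, h2⟩ := h s hs
    have h3 := hs2 γ h1 h2.le
    have h4 : x γ = 0 := by rw [← evl_apply]; exact hγ x hx
    rw [h4, zero_sub, abs_neg] at h3
    linarith

/-- The dichotomy. -/
theorem dichotomy (p : XX Ω → ℝ) :
    (∀ δ, ∃ β, δ < β ∧ β ∈ CR p ∧ evl β ∈ Zf p) ∨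
      ∃ b : Ω, ∀ ν ∈ Zf p, Sp ν (Ici b) → mass ν = 0 := by
  classical
  by_contra hcon
  rw [not_or] at hcon
  obtain ⟨h1, h2⟩ := hcon
  push Not at h2
  have hM : ∃ M : ℝ, ∀ b : Ω, ∃ ν ∈ Zf p, Sp ν (Ici b) ∧ mass ν = 1 ∧ ‖ν‖ ≤ M := by
    by_contra hc
    push Not at hc
    have hc' : ∀ n : ℕ, ∃ b : Ω, ∀ ν ∈ Zf p, Sp ν (Ici b) → mass ν = 1 → (n : ℝ) < ‖ν‖ :=
      fun n => hc n
    choose b hb using hc'
    obtain ⟨c, hcb⟩ := exists_gt_all b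
    obtain ⟨ν, hν1, hν2, hν3⟩ := h2 c
    set ν' := (mass ν)⁻¹ • ν with hν'
    obtain ⟨n, hn⟩ := exists_nat_gt ‖ν'‖
    have h3 := hb n ν' (Zf.smul hν1 _)
      ((Sp_smul hν2 _).mono (Ici_subset_Ici.2 (hcb n).le))
      (by rw [hν', mass_smul, inv_mul_cancel₀ hν3])
    linarith
  obtain ⟨M, hM⟩ := hM
  choose ν hν1 hν2 hν3 hν4 using hM
  have hh : ∀ b : Ω, ∃ c, b < c ∧ Sp (ν b) (Iic c) := by
    intro b
    obtain ⟨c1, hc1⟩ := Sp_bound (ν b)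
    obtain ⟨c2, hc2⟩ := exists_gt_of_countable (S := {c1, b})
      ((Set.finite_singleton b).insert _).countable
    exact ⟨c2, hc2 b (by simp), hc1.mono (Iic_subset_Iic.2 (hc2 c1 (by simp)).le)⟩
  choose h hh1 hh2 using hh
  apply h1
  intro δ
  obtain ⟨β, hβ1, hβ2, hβ3⟩ := exists_CR p h δ
  refine ⟨β, hβ1, hβ3, ?_⟩
  intro x hx
  rw [evl_apply]
  have hβ' : ⊥ < β := lt_of_le_of_lt bot_le hβ1
  by_contra hne
  have hpos : 0 < |x β| := abs_pos.2 hne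
  have hM0 : 0 ≤ M := (norm_nonneg _).trans (hν4 ⊥)
  obtain ⟨s, hs, hs2⟩ := XX.left x hβ' (show 0 < |x β| / (2 * (M + 1)) by positivity)
  set b := h s with hb
  have hbβ : b < β := hβ2 s hs
  have hsb : s < b := hh1 s
  have h3 : |ν b x - mass (ν b) * x β| ≤ ‖ν b‖ * (|x β| / (2 * (M + 1))) := by
    apply abs_apply_sub_le (S := Icc b (h b))
    · intro t ht
      by_cases h4 : b ≤ t
      · exact hh2 b t fun h5 => ht ⟨h4, h5⟩
      · exact hν2 b t h4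
    · intro t ht
      exact hs2 t (lt_of_lt_of_le hsb ht.1) (ht.2.trans (hβ2 b hbβ).le)
  rw [hν1 b x hx, hν3 b, zero_sub, abs_neg, one_mul] at h3
  have h4 : ‖ν b‖ * (|x β| / (2 * (M + 1))) ≤ (M + 1) * (|x β| / (2 * (M + 1))) := by
    have := hν4 b
    gcongr
    linarith
  have h5 : (M + 1) * (|x β| / (2 * (M + 1))) = |x β| / 2 := by field_simp
  linarith

/-- A closed unbounded set with all the required properties. -/
structure Clb (p : XX Ω → ℝ) (C : Set Ω) (nx : Ω → Ω) : Prop where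
  cls : ∀ β, (∀ δ < β, ∃ γ ∈ C, δ < γ ∧ γ < β) → β ∈ C
  nx_mem : ∀ t, nx t ∈ C
  lt_nx : ∀ t, t < nx t
  nx_le : ∀ t, ∀ γ ∈ C, t < γ → nx t ≤ γ
  good : ∀ β ∈ C, ∀ f ∈ Pol p, res (Iio β) f ∈ Pol p
  msd : ∀ β ∈ C, β ≠ ⊥ → ∀ ν ∈ Zf p, Sp ν (Ici β) → ∀ γ ∈ C, mass ν • evl γ ∈ Zf p

theorem exists_Clb (hp : IsSemi p) : ∃ C nx, Clb p C nx := by
  have key : ∃ C : Set Ω, (∀ β, (∀ δ < β, ∃ γ ∈ C, δ < γ ∧ γ < β) → β ∈ C) ∧
      (∀ δ, ∃ β ∈ C, δ < β) ∧ (C ⊆ CR p) ∧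
      ∀ β ∈ C, β ≠ ⊥ → ∀ ν ∈ Zf p, Sp ν (Ici β) → ∀ γ ∈ C, mass ν • evl γ ∈ Zf p := by
    rcases dichotomy p with h | ⟨b, h⟩
    · refine ⟨{β | β ∈ CR p ∧ evl β ∈ Zf p}, fun β hβ => ⟨?_, ?_⟩, fun δ => ?_,
        fun β hβ => hβ.1, fun β _ _ ν _ _ γ hγ => Zf.smul hγ.2 _⟩
      · apply CR_closed hp
        intro δ hδ
        obtain ⟨γ, hγ, h1⟩ := hβ δ hδ
        exact ⟨γ, hγ.1, h1⟩
      · apply evl_closed
        intro δ hδ
        obtain ⟨γ, hγ, h1⟩ := hβ δ hδ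
        exact ⟨γ, hγ.2, h1⟩
      · obtain ⟨β, h1, h2, h3⟩ := h δ
        exact ⟨β, ⟨h2, h3⟩, h1⟩
    · refine ⟨{β | β ∈ CR p ∧ (β = ⊥ ∨ b ≤ β)}, fun β hβ => ⟨?_, ?_⟩, fun δ => ?_,
        fun β hβ => hβ.1, fun β hβ hβ0 ν hν1 hν2 γ _ => ?_⟩
      · apply CR_closed hp
        intro δ hδ
        obtain ⟨γ, hγ, h1⟩ := hβ δ hδ
        exact ⟨γ, hγ.1, h1⟩
      · rcases eq_or_ne β ⊥ with h0 | h0
        · exact Or.inl h0
        · right
          obtain ⟨γ, hγ, h1, h2⟩ := hβ ⊥ (bot_lt_iff_ne_bot.2 h0)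
          rcases hγ.2 with h3 | h3
          · exact absurd h3 h1.ne'
          · exact h3.trans h2.le
      · obtain ⟨β, h1, h2, h3⟩ := exists_CR p (fun _ => ⊥) (max δ b)
        exact ⟨β, ⟨h3, Or.inr ((le_max_right _ _).trans h1.le)⟩, lt_of_le_of_lt (le_max_left _ _) h1⟩
      · rcases hβ.2 with h3 | h3
        · exact absurd h3 hβ0
        · rw [h ν hν1 (hν2.mono (Ici_subset_Ici.2 h3)), zero_smul]
          exact Zf.zero
  obtain ⟨C, h1, h2, h3, h4⟩ := key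
  have hn : ∀ t : Ω, ∃ n ∈ C, t < n ∧ ∀ γ ∈ C, t < γ → n ≤ γ := by
    intro t
    obtain ⟨β, hβ, hβ2⟩ := h2 t
    obtain ⟨n, hn, hmin⟩ := (wellFounded_lt (α := Ω)).has_min {γ | γ ∈ C ∧ t < γ} ⟨β, hβ, hβ2⟩
    exact ⟨n, hn.1, hn.2, fun γ hγ hγt => not_lt.1 (hmin γ ⟨hγ, hγt⟩)⟩
  choose nx hn1 hn2 hn3 using hn
  exact ⟨C, nx, h1, hn1, hn2, hn3, fun β hβ => h3 hβ, h4⟩

namespace Clb

variable {C : Set Ω} {nx : Ω → Ω} (hC : Clb p C nx)

include hC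

theorem bot_mem : ⊥ ∈ C := hC.cls ⊥ fun _ hδ => absurd hδ not_lt_bot

theorem nx_mono {s t : Ω} (h : s ≤ t) : nx s ≤ nx t :=
  hC.nx_le s _ (hC.nx_mem t) (lt_of_le_of_lt h (hC.lt_nx t))

theorem exists_pr (t : Ω) : ∃ β ∈ C, β ≤ t ∧ t < nx β := by
  obtain ⟨β, hβ, hmin⟩ := (wellFounded_lt (α := Ω)).has_min {b | ∀ γ ∈ C, γ ≤ t → γ ≤ b}
    ⟨t, fun γ _ h => h⟩
  have hβt : β ≤ t := not_lt.1 fun h => hmin t (fun γ _ h => h) h
  have hβC : β ∈ C := by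
    by_contra hc
    apply hc
    apply hC.cls
    intro δ hδ
    have : ¬ ∀ γ ∈ C, γ ≤ t → γ ≤ δ := fun h => hmin δ h hδ
    push Not at this
    obtain ⟨γ, h1, h2, h3⟩ := this
    refine ⟨γ, h1, h3, lt_of_le_of_ne (hβ γ h1 h2) ?_⟩
    rintro rfl
    exact hc h1
  refine ⟨β, hβC, hβt, ?_⟩
  by_contra hc
  have h1 := hβ _ (hC.nx_mem β) (not_lt.1 hc)
  exact absurd (hC.lt_nx β) (not_lt.2 h1)

/-- Each element of `C` is the bottom or a successor or a limit. -/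
theorem succ_or_lim {β : Ω} (hβ : β ∈ C) :
    (∃ γ ∈ C, γ < β ∧ nx γ = β) ∨ ∀ δ < β, ∃ γ ∈ C, δ < γ ∧ γ < β := by
  by_cases h : ∀ δ < β, ∃ γ ∈ C, δ < γ ∧ γ < β
  · exact Or.inr h
  · left
    push Not at h
    obtain ⟨δ, hδ, h⟩ := h
    obtain ⟨γ, hγ, h1, h2⟩ := hC.exists_pr δ
    have hγβ : γ < β := lt_of_le_of_lt h1 hδ
    exact ⟨γ, hγ, hγβ, le_antisymm (hC.nx_le γ β hβ hγβ) (h _ (hC.nx_mem γ) h2)⟩

end Clb

end club

end Pool.Agent.Helper957
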