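import Mathlib
import Pool.Agent.Helper957.Club

set_option autoImplicit false

namespace Pool.Agent.Helper957

open Set Filter Topology

section sfn

variable {X : Type*} [NormedAddCommGroup X] [NormedSpace ℝ X]

/-- The support function of a set of functionals. -/
noncomputable def sfn (S : Set (X →L[ℝ] ℝ)) (x : X) : ℝ := ⨆ f : S, f.1 x

/-- A bounded symmetric set of functionals. -/
structure Sym (S : Set (X →L[ℝ] ℝ)) (M : ℝ) : Prop where
  zero : (0 : X →L[ℝ] ℝ) ∈ S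
  neg : ∀ f ∈ S, -f ∈ S
  bd : ∀ f ∈ S, ‖f‖ ≤ M

variable {S : Set (X →L[ℝ] ℝ)} {M : ℝ}

theorem Sym.le (h : Sym S M) {f : X →L[ℝ] ℝ} (hf : f ∈ S) (x : X) : f x ≤ sfn S x := by
  apply le_ciSup (f := fun f : S => f.1 x) _ (⟨f, hf⟩ : S)
  refine ⟨M * ‖x‖, ?_⟩
  rintro _ ⟨g, rfl⟩
  have h1 := (le_abs_self _).trans (g.1.le_opNorm x)
  exact h1.trans (mul_le_mul_of_nonneg_right (h.bd _ g.2) (norm_nonneg x))

theorem Sym.le_of (h : Sym S M) {x : X} {r : ℝ} (H : ∀ f ∈ S, f x ≤ r) : sfn S x ≤ r := by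
  have : Nonempty S := ⟨⟨0, h.zero⟩⟩
  exact ciSup_le fun f => H f.1 f.2

theorem Sym.abs_le (h : Sym S M) {f : X →L[ℝ] ℝ} (hf : f ∈ S) (x : X) : |f x| ≤ sfn S x := by
  rw [_root_.abs_le]
  constructor
  · have h1 := h.le (h.neg f hf) x
    have h2 : (-f) x = -(f x) := rfl
    linarith
  · exact h.le hf x

theorem Sym.bound (h : Sym S M) (x : X) : sfn S x ≤ M * ‖x‖ := by
  apply h.le_of
  intro f hf
  have h1 := (le_abs_self _).trans (f.le_opNorm x)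
  exact h1.trans (mul_le_mul_of_nonneg_right (h.bd _ hf) (norm_nonneg x))

theorem Sym.semi (h : Sym S M) : IsSemi (sfn S) := by
  have key : ∀ (c : ℝ) (x : X), sfn S (c • x) ≤ |c| * sfn S x := by
    intro c x
    apply h.le_of
    intro f hf
    rw [map_smul, smul_eq_mul]
    calc c * f x ≤ |c * f x| := le_abs_self _
      _ = |c| * |f x| := abs_mul _ _
      _ ≤ |c| * sfn S x := mul_le_mul_of_nonneg_left (h.abs_le hf x) (abs_nonneg c)
  refine ⟨fun x y => ?_, fun c x => le_antisymm (key c x) ?_⟩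
  · apply h.le_of
    intro f hf
    rw [map_add]
    exact add_le_add (h.le hf x) (h.le hf y)
  · rcases eq_or_ne c 0 with rfl | hc
    · have h1 := h.le h.zero ((0:ℝ) • x)
      rw [abs_zero, zero_mul]
      exact h1
    · have h1 := key c⁻¹ (c • x)
      rw [smul_smul, inv_mul_cancel₀ hc, one_smul, abs_inv] at h1
      have h2 : 0 < |c| := abs_pos.2 hc
      calc |c| * sfn S x ≤ |c| * (|c|⁻¹ * sfn S (c • x)) := by gcongr
        _ = sfn S (c • x) := by field_simp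

end sfn

section clubA

variable {Ω : Type*} [LinearOrder Ω] [OrderBot Ω] [hΩ : Omg Ω]

theorem Sp_zero (S : Set Ω) : Sp (0 : XX Ω →L[ℝ] ℝ) S := by
  have := Sp_res (Ω := Ω) ∅ 0
  rw [res_empty] at this
  exact this.mono (empty_subset _)

theorem Sp_neg {f : XX Ω →L[ℝ] ℝ} {S : Set Ω} (hf : Sp f S) : Sp (-f) S := by
  intro t ht
  rw [co_neg, Pi.neg_apply, hf t ht, neg_zero]

theorem res_congr {f : XX Ω →L[ℝ] ℝ} {S S' : Set Ω} (h : ∀ t, co f t ≠ 0 → (t ∈ S ↔ t ∈ S')) :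
    res S f = res S' f := by
  classical
  apply co_inj
  rw [co_res, co_res]
  funext t
  rw [indicator_apply, indicator_apply]
  by_cases h0 : co f t = 0
  · rw [h0]; split_ifs <;> rfl
  · by_cases h1 : t ∈ S
    · rw [if_pos h1, if_pos ((h t h0).1 h1)]
    · rw [if_neg h1, if_neg (fun h2 => h1 ((h t h0).2 h2))]

theorem res_Ico_split (f : XX Ω →L[ℝ] ℝ) {a b c : Ω} (h1 : a ≤ b) (h2 : b ≤ c) :
    res (Ico a c) f = res (Ico a b) f + res (Ico b c) f ∧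
      ‖res (Ico a c) f‖ = ‖res (Ico a b) f‖ + ‖res (Ico b c) f‖ := by
  have hd : Disjoint (Ico a b) (Ico b c) := by
    rw [Set.disjoint_left]
    intro t ht ht2
    exact absurd ht.2 (not_lt.2 ht2.1)
  rw [← Ico_union_Ico_eq_Ico h1 h2]
  exact ⟨res_union hd f, norm_res_union hd f⟩

theorem res_Ici_split (f : XX Ω →L[ℝ] ℝ) {a b : Ω} (h1 : a ≤ b) :
    res (Ici a) f = res (Ico a b) f + res (Ici b) f ∧
      ‖res (Ici a) f‖ = ‖res (Ico a b) f‖ + ‖res (Ici b) f‖ := by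
  have hd : Disjoint (Ico a b) (Ici b) := by
    rw [Set.disjoint_left]
    intro t ht ht2
    exact absurd ht.2 (not_lt.2 ht2)
  rw [← Ico_union_Ici_eq_Ici h1]
  exact ⟨res_union hd f, norm_res_union hd f⟩

theorem res_Iio_Ici (f : XX Ω →L[ℝ] ℝ) (b : Ω) : f = res (Iio b) f + res (Ici b) f := by
  have := res_compl (Iio b) f
  rw [compl_Iio] at this
  exact this.symm

/-- First family. -/
def Ea (p : XX Ω → ℝ) (nx : Ω → Ω) (β : Ω) : Set (XX Ω →L[ℝ] ℝ) :=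
  {f | f ∈ Pol p ∧ Sp f (Iio (nx β))}

/-- Second family. -/
def Eb (p : XX Ω → ℝ) (nx : Ω → Ω) (β : Ω) : Set (XX Ω →L[ℝ] ℝ) :=
  {f | f ∈ Zf p ∧ ‖f‖ ≤ 1 ∧ Sp f (Ico β (nx β))}

/-- Third family. -/
def TT (p : XX Ω → ℝ) (nx : Ω → Ω) (β : Ω) : Set (XX Ω →L[ℝ] ℝ) :=
  {f | f ∈ Zf p ∧ ‖f‖ ≤ 1 ∧ Sp f (Icc β (nx β)) ∧ (β ≠ ⊥ → mass f = 0)}

/-- The functions. -/
noncomputable def AA (p : XX Ω → ℝ) (nx : Ω → Ω) (δ : ℝ) (β : Ω) (x : XX Ω) : ℝ :=
  sfn (Ea p nx β) x + δ * sfn (Eb p nx β) x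

variable {p : XX Ω → ℝ} {C : Set Ω} {nx : Ω → Ω} {L : ℝ}

omit hΩ in
theorem norm_le_of_Pol (hp : IsSemi p) (hL0 : 0 ≤ L) (hL : ∀ x, p x ≤ L * ‖x‖)
    {f : XX Ω →L[ℝ] ℝ} (hf : f ∈ Pol p) : ‖f‖ ≤ L :=
  f.opNorm_le_bound hL0 fun x => (Pol.abs_le hp hf x).trans (hL x)

theorem sym_Ea (hp : IsSemi p) (hL0 : 0 ≤ L) (hL : ∀ x, p x ≤ L * ‖x‖) (β : Ω) :
    Sym (Ea p nx β) L where
  zero := ⟨Pol.zero_mem hp, Sp_zero _⟩
  neg := fun _ hf => ⟨Pol.neg_mem hp hf.1, Sp_neg hf.2⟩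
  bd := fun _ hf => norm_le_of_Pol hp hL0 hL hf.1

theorem sym_Eb (β : Ω) : Sym (Eb p nx β) 1 where
  zero := ⟨Zf.zero, by rw [norm_zero]; exact zero_le_one, Sp_zero _⟩
  neg := fun _ hf => ⟨Zf.neg hf.1, by rw [norm_neg]; exact hf.2.1, Sp_neg hf.2.2⟩
  bd := fun _ hf => hf.2.1

theorem eb_nonneg (β : Ω) (x : XX Ω) : 0 ≤ sfn (Eb p nx β) x := (sym_Eb β).semi.nonneg x

theorem eb_le_norm (β : Ω) (x : XX Ω) : sfn (Eb p nx β) x ≤ ‖x‖ := by
  have := (sym_Eb (p := p) (nx := nx) β).bound x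
  rwa [one_mul] at this

theorem eb_le {ν : XX Ω →L[ℝ] ℝ} (hν : ν ∈ Zf p) {β : Ω} (hsp : Sp ν (Ico β (nx β))) (x : XX Ω) :
    |ν x| ≤ ‖ν‖ * sfn (Eb p nx β) x := by
  rcases eq_or_ne ν 0 with rfl | h0
  · simp
  · have hpos : 0 < ‖ν‖ := norm_pos_iff.2 h0
    have h1 : ‖ν‖⁻¹ • ν ∈ Eb p nx β := by
      refine ⟨Zf.smul hν _, ?_, Sp_smul hsp _⟩
      rw [norm_smul, norm_inv, norm_norm, inv_mul_cancel₀ hpos.ne']
    have h2 := (sym_Eb β).abs_le h1 x
    rw [smul_apply, smul_eq_mul, abs_mul, abs_inv, abs_norm] at h2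
    calc |ν x| = ‖ν‖ * (‖ν‖⁻¹ * |ν x|) := by field_simp
      _ ≤ ‖ν‖ * sfn (Eb p nx β) x := by gcongr

theorem eb_le_K {K : ℝ} (hp : IsSemi p) (hK0 : 0 ≤ K)
    (hK : ∀ f ∈ Zf p, ∀ x, f x ≤ K * ‖f‖ * p x) (β : Ω) (x : XX Ω) :
    sfn (Eb p nx β) x ≤ K * p x := by
  apply (sym_Eb β).le_of
  intro f hf
  have h1 := hK f hf.1 x
  have h2 := hf.2.1
  have h3 := hp.nonneg x
  have h4 := norm_nonneg f
  calc f x ≤ K * ‖f‖ * p x := h1
    _ ≤ K * 1 * p x := by gcongr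
    _ = K * p x := by ring

theorem eb_evl (hC : Clb p C nx) {γ : Ω} {c : ℝ} (hc : c • evl γ ∈ Zf p)
    (hc1 : |c| ≤ 1) (x : XX Ω) : c * x γ ≤ sfn (Eb p nx γ) x := by
  have h1 : c • evl γ ∈ Eb p nx γ := by
    refine ⟨hc, ?_, (Sp_smul (Sp_evl γ) _).mono ?_⟩
    · rw [norm_smul, Real.norm_eq_abs]
      have := norm_evl_le (Ω := Ω) γ
      have h2 := abs_nonneg c
      have h3 := norm_nonneg (evl γ)
      nlinarith
    · rintro t rfl
      exact ⟨le_rfl, hC.lt_nx _⟩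
  have h2 := (sym_Eb γ).le h1 x
  exact h2

theorem ea_mono (hp : IsSemi p) (hL0 : 0 ≤ L) (hL : ∀ x, p x ≤ L * ‖x‖) (hC : Clb p C nx)
    {β γ : Ω} (h : β ≤ γ) (x : XX Ω) : sfn (Ea p nx β) x ≤ sfn (Ea p nx γ) x := by
  apply (sym_Ea hp hL0 hL β).le_of
  intro f hf
  exact (sym_Ea hp hL0 hL γ).le ⟨hf.1, hf.2.mono (Iio_subset_Iio (hC.nx_mono h))⟩ x

theorem ea_le (hp : IsSemi p) (hL0 : 0 ≤ L) (hL : ∀ x, p x ≤ L * ‖x‖) (β : Ω) (x : XX Ω) :
    sfn (Ea p nx β) x ≤ p x :=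
  (sym_Ea hp hL0 hL β).le_of fun _ hf => hf.1 x

theorem res_Ico_mem (hp : IsSemi p) (hC : Clb p C nx) {f : XX Ω →L[ℝ] ℝ} (hf : f ∈ Pol p)
    {α β : Ω} (hα : α ∈ C) (hβ : β ∈ C) (h : α ≤ β) : res (Ico α β) f ∈ Zf p := by
  have h1 := Zf.of_Pol hp (hC.good β hβ f hf)
  have h2 := Zf.of_Pol hp (hC.good α hα f hf)
  have h3 : res (Ico α β) f = res (Iio β) f - res (Iio α) f := by
    have hd : Disjoint (Iio α) (Ico α β) := by
      rw [Set.disjoint_left]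
      intro t ht ht2
      exact absurd ht (not_lt.2 ht2.1)
    rw [← Iio_union_Ico_eq_Iio h, res_union hd]
    abel
  rw [h3]
  exact Zf.sub h1 h2

/-- Block estimate. -/
theorem BL (hp : IsSemi p) (hC : Clb p C nx) {f : XX Ω →L[ℝ] ℝ} (hf : f ∈ Pol p) {x : XX Ω}
    {M : ℝ} {α : Ω} (hα : α ∈ C)
    (hM : ∀ γ ∈ C, α ≤ γ → sfn (Eb p nx γ) x ≤ M) (β : Ω) :
    β ∈ C → α ≤ β → |(res (Ico α β) f) x| ≤ M * ‖res (Ico α β) f‖ := by
  induction β using WellFoundedLT.induction with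
  | ind β ih =>
    intro hβ hαβ
    rcases eq_or_lt_of_le hαβ with rfl | hlt
    · rw [Ico_self, res_empty]
      simp
    · rcases hC.succ_or_lim hβ with ⟨γ, hγ, h1, h2⟩ | hlim
      · have hαγ : α ≤ γ := by
          by_contra hc
          have := hC.nx_le γ α hα (not_le.1 hc)
          rw [h2] at this
          exact absurd hlt (not_lt.2 this)
        obtain ⟨e1, e2⟩ := res_Ico_split f hαγ h1.le
        have h3 := ih γ h1 hγ hαγ
        have h4 : |(res (Ico γ β) f) x| ≤ ‖res (Ico γ β) f‖ * sfn (Eb p nx γ) x := by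
          apply eb_le (res_Ico_mem hp hC hf hγ hβ h1.le)
          rw [h2]
          exact Sp_res _ _
        have h5 := mul_le_mul_of_nonneg_left (hM γ hγ hαγ) (norm_nonneg (res (Ico γ β) f))
        rw [e1, add_apply, ← e1, e2]
        refine (abs_add_le _ _).trans ?_
        linarith
      · apply le_of_forall_pos_le_add
        intro η hη
        obtain ⟨s, hs, hs2⟩ := tail_res f (lt_of_le_of_lt bot_le hlt)
          (show 0 < η / (‖x‖ + 1) by positivity)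
        obtain ⟨γ, hγ, h1, h2⟩ := hlim (max s α) (max_lt hs hlt)
        have hαγ : α ≤ γ := (le_max_right _ _).trans h1.le
        have hsγ : s < γ := lt_of_le_of_lt (le_max_left _ _) h1
        obtain ⟨e1, e2⟩ := res_Ico_split f hαγ h2.le
        have h3 := ih γ h2 hγ hαγ
        have h4 : ‖res (Ico γ β) f‖ ≤ ‖res (Ioo s β) f‖ :=
          norm_res_mono (S := Ico γ β) (S' := Ioo s β)
            (fun t ht => ⟨lt_of_lt_of_le hsγ ht.1, ht.2⟩) f
        have h5 : |(res (Ico γ β) f) x| ≤ ‖res (Ico γ β) f‖ * ‖x‖ :=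
          (res (Ico γ β) f).le_opNorm x
        have h6 : ‖res (Ico γ β) f‖ * ‖x‖ ≤ η / (‖x‖ + 1) * (‖x‖ + 1) :=
          mul_le_mul (h4.trans hs2.le) (by linarith [norm_nonneg x]) (norm_nonneg x) (by positivity)
        have h7 : η / (‖x‖ + 1) * (‖x‖ + 1) = η := by field_simp
        have h8 : 0 ≤ M * ‖res (Ico γ β) f‖ :=
          mul_nonneg ((eb_nonneg γ x).trans (hM γ hγ hαγ)) (norm_nonneg _)
        rw [e1, add_apply, ← e1, e2]
        refine (abs_add_le _ _).trans ?_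
        linarith

theorem BL_tail (hp : IsSemi p) (hC : Clb p C nx) {f : XX Ω →L[ℝ] ℝ} (hf : f ∈ Pol p) {x : XX Ω}
    {M : ℝ} {α : Ω} (hα : α ∈ C)
    (hM : ∀ γ ∈ C, α ≤ γ → sfn (Eb p nx γ) x ≤ M) :
    |(res (Ici α) f) x| ≤ M * ‖res (Ici α) f‖ := by
  obtain ⟨b, hb⟩ := Sp_bound f
  have h1 : b < nx (max b α) := lt_of_le_of_lt (le_max_left _ _) (hC.lt_nx _)
  have h2 : α < nx (max b α) := lt_of_le_of_lt (le_max_right _ _) (hC.lt_nx _)
  have e : res (Ici α) f = res (Ico α (nx (max b α))) f := by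
    apply res_congr
    intro t ht
    have : t ≤ b := by
      by_contra hc
      exact ht (hb t hc)
    exact ⟨fun h => ⟨h, lt_of_le_of_lt this h1⟩, fun h => h.1⟩
  rw [e]
  exact BL hp hC hf hα hM _ (hC.nx_mem _) h2.le

/-- Claim 1. -/
theorem claim1 (hp : IsSemi p) (hL0 : 0 ≤ L) (hL : ∀ x, p x ≤ L * ‖x‖) (hC : Clb p C nx)
    {δ : ℝ} (hδ : 0 < δ) {x : XX Ω} (hx : p x ≠ 0) : ∃ γ ∈ C, p x < AA p nx δ γ x := by
  by_contra hcon
  push Not at hcon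
  obtain ⟨f, hf, hfx⟩ := exists_mem_Pol hp hL x
  -- basic inequality
  have hb : ∀ γ ∈ C, δ * sfn (Eb p nx γ) x ≤ (res (Ici (nx γ)) f) x := by
    intro γ hγ
    have h1 := hcon γ hγ
    unfold AA at h1
    have h2 := (sym_Ea hp hL0 hL γ).le (f := res (Iio (nx γ)) f)
      ⟨hC.good _ (hC.nx_mem γ) f hf, Sp_res _ _⟩ x
    have h3 := res_Iio_Ici f (nx γ)
    have h4 : f x = (res (Iio (nx γ)) f) x + (res (Ici (nx γ)) f) x := by
      conv_lhs => rw [h3]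
      rw [add_apply]
    linarith
  -- all vanish
  have hall : ∀ γ ∈ C, sfn (Eb p nx γ) x = 0 := by
    obtain ⟨b, hbf⟩ := Sp_bound f
    obtain ⟨β, hβ, hmin⟩ := (wellFounded_lt (α := Ω)).has_min
      {β | β ∈ C ∧ ∀ γ ∈ C, β ≤ γ → sfn (Eb p nx γ) x = 0} ⟨nx b, hC.nx_mem b, fun γ hγ hbγ => by
        have h1 : res (Ici (nx γ)) f = 0 := by
          rw [← res_empty f]
          apply res_congr
          intro t ht
          have h2 : t ≤ b := by
            by_contra hc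
            exact ht (hbf t hc)
          refine ⟨fun h => ?_, fun h => absurd h (notMem_empty t)⟩
          exact absurd ((hC.lt_nx b).trans_le (hbγ.trans ((hC.lt_nx γ).le.trans h))) (not_lt.2 h2)
        have h2 := hb γ hγ
        rw [h1] at h2
        have h3 : (0 : XX Ω →L[ℝ] ℝ) x = 0 := rfl
        rw [h3] at h2
        have h4 := eb_nonneg (p := p) (nx := nx) γ x
        nlinarith⟩
    obtain ⟨hβC, hβ0⟩ := hβ
    have htail : (res (Ici β) f) x = 0 := by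
      have := BL_tail hp hC hf (x := x) (M := 0) hβC (fun γ hγ hβγ => (hβ0 γ hγ hβγ).le)
      rw [zero_mul] at this
      exact abs_eq_zero.1 (le_antisymm this (abs_nonneg _))
    rcases eq_or_ne β ⊥ with rfl | hβbot
    · exact fun γ hγ => hβ0 γ hγ bot_le
    · exfalso
      -- choose the starting point
      obtain ⟨γ0, hγ0, hγ0β, hsmall⟩ : ∃ γ0 ∈ C, γ0 < β ∧ ‖res (Ico (nx γ0) β) f‖ ≤ δ / 2 := by
        rcases hC.succ_or_lim hβC with ⟨γ, hγ, h1, h2⟩ | hlim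
        · refine ⟨γ, hγ, h1, ?_⟩
          rw [h2, Ico_self, res_empty, norm_zero]
          positivity
        · obtain ⟨s, hs, hs2⟩ := tail_res f (bot_lt_iff_ne_bot.2 hβbot)
            (show 0 < δ / 2 by positivity)
          obtain ⟨γ, hγ, h1, h2⟩ := hlim s hs
          refine ⟨γ, hγ, h2, le_trans ?_ hs2.le⟩
          exact norm_res_mono (S := Ico (nx γ) β) (S' := Ioo s β)
            (fun t ht => ⟨h1.trans ((hC.lt_nx γ).trans_le ht.1), ht.2⟩) f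
      -- iterate
      have hit : ∀ n : ℕ, ∀ γ ∈ C, γ0 ≤ γ → sfn (Eb p nx γ) x ≤ ‖x‖ * (1/2) ^ n := by
        intro n
        induction n with
        | zero =>
          intro γ _ _
          rw [pow_zero, mul_one]
          exact eb_le_norm γ x
        | succ n ihn =>
          intro γ hγ hγγ
          rcases lt_or_ge γ β with hlt | hge
          · have h1 : nx γ ≤ β := hC.nx_le γ β hβC hlt
            obtain ⟨e1, _⟩ := res_Ici_split f h1
            have h2 := hb γ hγ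
            rw [e1, add_apply, htail, add_zero] at h2
            have h3 := BL hp hC hf (x := x) (M := ‖x‖ * (1/2) ^ n) (hC.nx_mem γ)
              (fun γ' hγ' h => ihn γ' hγ' (hγγ.trans ((hC.lt_nx γ).le.trans h))) β hβC h1
            have h4 : ‖res (Ico (nx γ) β) f‖ ≤ δ / 2 :=
              (norm_res_mono (S := Ico (nx γ) β) (S' := Ico (nx γ0) β)
                (fun t ht => ⟨(hC.nx_mono hγγ).trans ht.1, ht.2⟩) f).trans hsmall
            have h5 := (le_abs_self _).trans h3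
            have h6 : ‖x‖ * (1/2) ^ n * ‖res (Ico (nx γ) β) f‖ ≤ ‖x‖ * (1/2) ^ n * (δ / 2) :=
              mul_le_mul_of_nonneg_left h4 (by positivity)
            have h7 : δ * sfn (Eb p nx γ) x ≤ δ * (‖x‖ * (1/2) ^ (n + 1)) := by
              rw [pow_succ]
              linarith
            exact le_of_mul_le_mul_left h7 hδ
          · rw [hβ0 γ hγ hge]
            positivity
      apply hmin γ0 ⟨hγ0, fun γ hγ hγγ => ?_⟩ hγ0β
      apply le_antisymm _ (eb_nonneg γ x)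
      have hlim : Tendsto (fun n : ℕ => ‖x‖ * (1/2 : ℝ) ^ n) atTop (𝓝 (‖x‖ * 0)) :=
        (tendsto_pow_atTop_nhds_zero_of_lt_one (by norm_num) (by norm_num)).const_mul _
      rw [mul_zero] at hlim
      exact ge_of_tendsto' hlim fun n => hit n γ hγ hγγ
  have h1 := BL_tail hp hC hf (x := x) (M := 0) hC.bot_mem (fun γ hγ _ => (hall γ hγ).le)
  rw [zero_mul, Ici_bot, res_univ] at h1
  apply hx
  rw [← hfx]
  exact abs_eq_zero.1 (le_antisymm h1 (abs_nonneg _))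

/-- Claim 2. -/
theorem claim2 (hp : IsSemi p) (hL0 : 0 ≤ L) (hL : ∀ x, p x ≤ L * ‖x‖) (hC : Clb p C nx)
    {δ : ℝ} (hδ : 0 < δ) {β : Ω} (hβ : β ∈ C) (hβ0 : β ≠ ⊥) (x : XX Ω) {η : ℝ} (hη : 0 < η) :
    ∃ s < β, ∀ γ ∈ C, s < γ → γ < β → AA p nx δ γ x ≤ AA p nx δ β x + η := by
  obtain ⟨s, hs, hs2⟩ := XX.left x (bot_lt_iff_ne_bot.2 hβ0) (show 0 < η / δ by positivity)
  refine ⟨s, hs, fun γ hγ h1 h2 => ?_⟩
  have h3 : sfn (Eb p nx γ) x ≤ sfn (Eb p nx β) x + η / δ := by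
    apply (sym_Eb γ).le_of
    intro ν hν
    have hnx : nx γ ≤ β := hC.nx_le γ β hβ h2
    have h4 : |ν x - mass ν * x β| ≤ ‖ν‖ * (η / δ) := by
      apply abs_apply_sub_le hν.2.2
      intro t ht
      exact hs2 t (lt_of_lt_of_le h1 ht.1) (ht.2.le.trans hnx)
    have h5 : ‖ν‖ * (η / δ) ≤ η / δ := mul_le_of_le_one_left (by positivity) hν.2.1
    have h6 : mass ν • evl β ∈ Zf p := hC.msd γ hγ (lt_of_le_of_lt bot_le h1).ne' ν hν.1
      (hν.2.2.mono Ico_subset_Ici_self) β hβ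
    have h7 := eb_evl hC h6 ((abs_mass_le ν).trans hν.2.1) x
    have h8 := (abs_le.1 h4).2
    linarith
  have h4 := ea_mono hp hL0 hL hC h2.le x
  unfold AA
  have h5 : δ * sfn (Eb p nx γ) x ≤ δ * (sfn (Eb p nx β) x + η / δ) := by gcongr
  have h6 : δ * (sfn (Eb p nx β) x + η / δ) = δ * sfn (Eb p nx β) x + η := by field_simp
  linarith

/-- Claim 3. -/
theorem claim3 (hp : IsSemi p) (hL0 : 0 ≤ L) (hL : ∀ x, p x ≤ L * ‖x‖)
    {δ : ℝ} {x : XX Ω} {b : Ω} (hb : ∀ u, b < u → x u = 0) {γ : Ω} (hγ : b < γ) :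
    AA p nx δ γ x ≤ p x := by
  have h1 : sfn (Eb p nx γ) x = 0 := by
    apply le_antisymm _ (eb_nonneg γ x)
    apply (sym_Eb γ).le_of
    intro ν hν
    exact (apply_eq_zero_of hν.2.2 fun t ht => hb t (lt_of_lt_of_le hγ ht.1)).le
  unfold AA
  rw [h1, mul_zero, add_zero]
  exact ea_le hp hL0 hL γ x

/-- Claim 4. -/
theorem claim4 (hp : IsSemi p) (hL0 : 0 ≤ L) (hL : ∀ x, p x ≤ L * ‖x‖) (hC : Clb p C nx)
    {δ : ℝ} (hδ : 0 < δ) {x : XX Ω} {γ : Ω} (hγ : γ ∈ C) (h : ∀ f ∈ TT p nx γ, f x = 0) :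
    AA p nx δ γ x ≤ p x ∨ AA p nx δ γ x ≤ AA p nx δ (nx γ) x := by
  rcases eq_or_ne γ ⊥ with rfl | h0
  · left
    have h1 : sfn (Eb p nx ⊥) x = 0 := by
      apply le_antisymm _ (eb_nonneg _ x)
      apply (sym_Eb _).le_of
      intro ν hν
      exact (h ν ⟨hν.1, hν.2.1, hν.2.2.mono Ico_subset_Icc_self, fun h => absurd rfl h⟩).le
    unfold AA
    rw [h1, mul_zero, add_zero]
    exact ea_le hp hL0 hL _ x
  · right
    have h1 : sfn (Eb p nx γ) x ≤ sfn (Eb p nx (nx γ)) x := by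
      apply (sym_Eb γ).le_of
      intro ν hν
      have hm : mass ν • evl (nx γ) ∈ Zf p := hC.msd γ hγ h0 ν hν.1
        (hν.2.2.mono Ico_subset_Ici_self) _ (hC.nx_mem γ)
      have hmass : |mass ν| ≤ 1 := (abs_mass_le ν).trans hν.2.1
      have hnxbot : nx γ ≠ ⊥ := (lt_of_le_of_lt bot_le (hC.lt_nx γ)).ne'
      have h2 : (1/2 : ℝ) • (ν - mass ν • evl (nx γ)) ∈ TT p nx γ := by
        refine ⟨Zf.smul (Zf.sub hν.1 hm) _, ?_, Sp_smul (Sp_sub (hν.2.2.mono Ico_subset_Icc_self)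
          ((Sp_smul (Sp_evl _) _).mono ?_)) _, fun _ => ?_⟩
        · rw [norm_smul, Real.norm_eq_abs, abs_of_pos (by norm_num : (0:ℝ) < 1/2)]
          have h3 : ‖ν - mass ν • evl (nx γ)‖ ≤ ‖ν‖ + ‖mass ν • evl (nx γ)‖ := norm_sub_le _ _
          have h4 : ‖mass ν • evl (nx γ)‖ ≤ 1 := by
            rw [norm_smul, Real.norm_eq_abs]
            have h5 := norm_evl_le (nx γ)
            have h6 := abs_nonneg (mass ν)
            have h7 := norm_nonneg (evl (nx γ))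
            nlinarith
          have h5 := hν.2.1
          linarith
        · rintro t rfl
          exact ⟨(hC.lt_nx γ).le, le_rfl⟩
        · rw [mass_smul, mass_sub, mass_smul, mass_evl hnxbot]
          ring
      have h3 := h _ h2
      have e : ((1/2 : ℝ) • (ν - mass ν • evl (nx γ))) x = 1/2 * (ν x - mass ν * x (nx γ)) := rfl
      rw [e] at h3
      have h4 := eb_evl hC hm hmass x
      linarith
    have h2 := ea_mono hp hL0 hL hC (hC.lt_nx γ).le x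
    unfold AA
    have h3 : δ * sfn (Eb p nx γ) x ≤ δ * sfn (Eb p nx (nx γ)) x := by gcongr
    linarith

theorem AA_le (hp : IsSemi p) (hL0 : 0 ≤ L) (hL : ∀ x, p x ≤ L * ‖x‖)
    {δ : ℝ} (hδ : 0 < δ) (γ : Ω) (x : XX Ω) : AA p nx δ γ x ≤ (L + δ) * ‖x‖ := by
  have h1 := (sym_Ea (nx := nx) hp hL0 hL γ).bound x
  have h2 := eb_le_norm (p := p) (nx := nx) γ x
  unfold AA
  have h3 : δ * sfn (Eb p nx γ) x ≤ δ * ‖x‖ := by gcongr
  linarith

/-- The key property. -/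
theorem propP (hp : IsSemi p) (hL0 : 0 ≤ L) (hL : ∀ x, p x ≤ L * ‖x‖) (hC : Clb p C nx)
    {δ : ℝ} (hδ : 0 < δ) {x : XX Ω} (hx : p x ≠ 0) :
    ∃ β ∈ C, (∃ f ∈ TT p nx β, f x ≠ 0) ∧ ∀ γ ∈ C, AA p nx δ γ x ≤ AA p nx δ β x := by
  set S : Set ℝ := (fun γ => AA p nx δ γ x) '' C with hS
  have hbdd : BddAbove S := by
    refine ⟨(L + δ) * ‖x‖, ?_⟩
    rintro _ ⟨γ, _, rfl⟩
    exact AA_le hp hL0 hL hδ γ x
  have hne : S.Nonempty := ⟨_, ⊥, hC.bot_mem, rfl⟩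
  set ss := sSup S with hss
  have hle : ∀ γ ∈ C, AA p nx δ γ x ≤ ss := fun γ hγ => le_csSup hbdd ⟨γ, hγ, rfl⟩
  obtain ⟨γ1, hγ1, hγ1x⟩ := claim1 hp hL0 hL hC hδ hx
  have hps : p x < ss := lt_of_lt_of_le hγ1x (hle γ1 hγ1)
  obtain ⟨b, hb⟩ := XX.bound x
  obtain ⟨β, hβ, hmin⟩ := (wellFounded_lt (α := Ω)).has_min
    {b | ∃ r, p x ≤ r ∧ r < ss ∧ ∀ γ ∈ C, r < AA p nx δ γ x → γ ≤ b} ⟨b, p x, le_rfl, hps,
      fun γ hγ h => by
        by_contra hc
        exact absurd h (not_lt.2 (claim3 hp hL0 hL hb (not_le.1 hc)))⟩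
  obtain ⟨r0, hr0, hr1, hr2⟩ := hβ
  have hnear : ∀ r, r0 ≤ r → r < ss → ∀ δ' < β, ∃ γ ∈ C, δ' < γ ∧ γ ≤ β ∧ r < AA p nx δ γ x := by
    intro r h1 h2 δ' hδ'
    by_contra hc
    push Not at hc
    apply hmin δ' ⟨r, hr0.trans h1, h2, fun γ hγ h3 => ?_⟩ hδ'
    by_contra h4
    exact absurd h3 (not_lt.2 (hc γ hγ (not_le.1 h4) (hr2 γ hγ (lt_of_le_of_lt h1 h3))))
  have hβC : β ∈ C := by
    by_contra hc
    apply hc
    apply hC.cls
    intro δ' hδ'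
    obtain ⟨γ, h1, h2, h3, _⟩ := hnear r0 le_rfl hr1 δ' hδ'
    refine ⟨γ, h1, h2, lt_of_le_of_ne h3 ?_⟩
    rintro rfl
    exact hc h1
  have hmax : ss ≤ AA p nx δ β x := by
    by_contra hc
    rw [not_le] at hc
    set r := (max r0 (AA p nx δ β x) + ss) / 2 with hr
    have hm : max r0 (AA p nx δ β x) < ss := max_lt hr1 hc
    have hr3 : r < ss := by rw [hr]; linarith
    have hr4 : max r0 (AA p nx δ β x) < r := by rw [hr]; linarith
    have hr5 : r0 < r := lt_of_le_of_lt (le_max_left _ _) hr4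
    have hr6 : AA p nx δ β x < r := lt_of_le_of_lt (le_max_right _ _) hr4
    rcases eq_or_ne β ⊥ with h0 | h0
    · obtain ⟨_, ⟨γ, hγ, rfl⟩, hlt⟩ := exists_lt_of_lt_csSup hne hr3
      simp only at hlt
      have h1 := hr2 γ hγ (hr5.trans hlt)
      rw [h0, le_bot_iff] at h1
      rw [h0] at hr6
      rw [h1] at hlt
      exact absurd hlt (not_lt.2 hr6.le)
    · obtain ⟨s, hs, hs2⟩ := claim2 hp hL0 hL hC hδ hβC h0 x
        (show 0 < r - AA p nx δ β x by linarith)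
      obtain ⟨γ, h1, h2, h3, h4⟩ := hnear r hr5.le hr3 s hs
      rcases eq_or_lt_of_le h3 with h5 | h5
      · rw [h5] at h4
        exact absurd h4 (not_lt.2 hr6.le)
      · have := hs2 γ h1 h2 h5
        linarith
  refine ⟨β, hβC, ?_, fun γ hγ => (hle γ hγ).trans hmax⟩
  by_contra hc
  push Not at hc
  rcases claim4 hp hL0 hL hC hδ hβC hc with h | h
  · linarith
  · have h1 := hr2 (nx β) (hC.nx_mem β) (by linarith)
    exact absurd (hC.lt_nx β) (not_lt.2 h1)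

end clubA

end Pool.Agent.Helper957
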