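import Mathlib
import Pool.Agent.Helper957.Smooth

set_option autoImplicit false

namespace Pool.Agent.Helper957

open Set Filter Topology

/-- Finitely supported probability weights. -/
structure Wt (I : Type*) where
  F : Finset I
  l : I → ℝ
  nonneg : ∀ i, 0 ≤ l i
  off : ∀ i, i ∉ F → l i = 0
  sum : ∑ i ∈ F, l i = 1

namespace Wt

variable {I : Type*}

theorem le_one (t : Wt I) (i : I) : t.l i ≤ 1 := by
  by_cases h : i ∈ t.F
  · rw [← t.sum]
    exact Finset.single_le_sum (fun j _ => t.nonneg j) h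
  · rw [t.off i h]; norm_num

theorem sum_of_subset (t : Wt I) {G : Finset I} (h : t.F ⊆ G) : ∑ i ∈ G, t.l i = 1 := by
  rw [← t.sum]
  exact (Finset.sum_subset h fun i _ hi => t.off i hi).symm

end Wt

section comb

variable {X : Type*} [NormedAddCommGroup X] [NormedSpace ℝ X] {I : Type*}

/-- One term of the combination. -/
noncomputable def trm (g b : I → X → ℝ) (v : ℝ) (i : I) (x : X) : ℝ :=
  v * g i x + (v - v ^ 2 / 2) * b i x

/-- The value of a weight. -/
noncomputable def vl (g b : I → X → ℝ) (t : Wt I) (x : X) : ℝ :=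
  ∑ i ∈ t.F, trm g b (t.l i) i x

omit [NormedAddCommGroup X] [NormedSpace ℝ X] in
theorem vl_eq (g b : I → X → ℝ) (t : Wt I) {G : Finset I} (h : t.F ⊆ G) (x : X) :
    vl g b t x = ∑ i ∈ G, trm g b (t.l i) i x := by
  unfold vl
  apply Finset.sum_subset h
  intro i _ hi
  unfold trm
  rw [t.off i hi]
  ring

/-- The smooth supremum of the family `g`. -/
noncomputable def comb (g b : I → X → ℝ) (x : X) : ℝ := ⨆ t : Wt I, vl g b t x

/-- Standing hypotheses. -/
structure CombHyp (g b : I → X → ℝ) (K : ℝ) : Prop where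
  g_semi : ∀ i, IsSemi (g i)
  b_semi : ∀ i, IsSemi (b i)
  g_le : ∀ i x, g i x ≤ K * ‖x‖
  b_le : ∀ i x, b i x ≤ K * ‖x‖

theorem ev_nonneg {v : ℝ} (h0 : 0 ≤ v) (h1 : v ≤ 1) : 0 ≤ v - v ^ 2 / 2 := by nlinarith

theorem ev_le {v : ℝ} : v - v ^ 2 / 2 ≤ v := by nlinarith [sq_nonneg v]

/-- Single weight. -/
def Wt.one [DecidableEq I] (i : I) : Wt I where
  F := {i}
  l := fun j => if j = i then 1 else 0
  nonneg := fun j => by split_ifs <;> norm_num
  off := fun j hj => by
    rw [Finset.mem_singleton] at hj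
    rw [if_neg hj]
  sum := by simp

variable {g b : I → X → ℝ} {K : ℝ}

theorem trm_le (h : CombHyp g b K) {v : ℝ} (h0 : 0 ≤ v) (i : I) (x : X) :
    trm g b v i x ≤ v * (g i x + b i x) := by
  unfold trm
  have h2 := (h.b_semi i).nonneg x
  have h3 := @ev_le v
  nlinarith

theorem vl_le (h : CombHyp g b K) (t : Wt I) {x : X} {r : ℝ} (hr : ∀ i, g i x + b i x ≤ r) :
    vl g b t x ≤ r := by
  calc vl g b t x ≤ ∑ i ∈ t.F, t.l i * r := by
        apply Finset.sum_le_sum
        intro i _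
        refine (trm_le h (t.nonneg i) i x).trans ?_
        exact mul_le_mul_of_nonneg_left (hr i) (t.nonneg i)
    _ = r := by rw [← Finset.sum_mul, t.sum, one_mul]

theorem comb_bdd (h : CombHyp g b K) (x : X) : BddAbove (range fun t : Wt I => vl g b t x) := by
  refine ⟨2 * K * ‖x‖, ?_⟩
  rintro _ ⟨t, rfl⟩
  apply vl_le h
  intro i
  have h1 := h.g_le i x
  have h2 := h.b_le i x
  linarith

theorem le_comb (h : CombHyp g b K) (t : Wt I) (x : X) : vl g b t x ≤ comb g b x :=
  le_ciSup (comb_bdd h x) t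

omit [NormedAddCommGroup X] [NormedSpace ℝ X] in
theorem comb_le [Nonempty I] {x : X} {r : ℝ} (hr : ∀ t, vl g b t x ≤ r) : comb g b x ≤ r := by
  classical
  have : Nonempty (Wt I) := ⟨Wt.one (Classical.arbitrary I)⟩
  exact ciSup_le hr

theorem g_le_comb (h : CombHyp g b K) (i : I) (x : X) : g i x ≤ comb g b x := by
  classical
  refine le_trans ?_ (le_comb h (Wt.one i) x)
  unfold vl Wt.one trm
  simp only [Finset.sum_singleton, if_true]
  have := (h.b_semi i).nonneg x
  linarith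

theorem vl_semi (h : CombHyp g b K) (t : Wt I) : IsSemi (vl g b t) := by
  refine ⟨fun x y => ?_, fun c x => ?_⟩
  · unfold vl
    rw [← Finset.sum_add_distrib]
    apply Finset.sum_le_sum
    intro i _
    unfold trm
    have h1 := (h.g_semi i).add x y
    have h2 := (h.b_semi i).add x y
    have h3 := t.nonneg i
    have h4 := ev_nonneg h3 (t.le_one i)
    nlinarith
  · unfold vl
    rw [Finset.mul_sum]
    apply Finset.sum_congr rfl
    intro i _
    unfold trm
    rw [(h.g_semi i).smul, (h.b_semi i).smul]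
    ring

theorem comb_semi [Nonempty I] (h : CombHyp g b K) : IsSemi (comb g b) := by
  refine ⟨fun x y => ?_, fun c x => ?_⟩
  · apply comb_le
    intro t
    exact ((vl_semi h t).add x y).trans (add_le_add (le_comb h t x) (le_comb h t y))
  · unfold comb
    rw [Real.mul_iSup_of_nonneg (abs_nonneg c)]
    congr 1
    ext t
    exact (vl_semi h t).smul c x

/-- Near maximisers have small mass outside of `Γ`. -/
theorem near_out [DecidableEq I] (h : CombHyp g b K) {x0 : X} {Γ : Finset I} {i0 : I} {ρ : ℝ} (hρ : 0 < ρ)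
    (hout : ∀ i, i ∉ Γ → g i x0 + b i x0 ≤ g i0 x0 - ρ) (t : Wt I) {τ : ℝ}
    (ht : comb g b x0 - τ < vl g b t x0) {G : Finset I} (hG : t.F ⊆ G) (hG2 : Γ ⊆ G) :
    (∑ i ∈ G, if i ∈ Γ then 0 else t.l i) * ρ ≤ τ := by
  have hi0 : i0 ∈ Γ := by
    by_contra hc
    have h1 := hout i0 hc
    have h2 := (h.b_semi i0).nonneg x0
    linarith
  set m : ℝ := ∑ i ∈ G, if i ∈ Γ then 0 else t.l i with hm
  have hm0 : 0 ≤ m := Finset.sum_nonneg fun i _ => by
    split_ifs
    · exact le_rfl
    · exact t.nonneg i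
  have hsumG := t.sum_of_subset hG
  have hsplit : ∑ i ∈ G, (if i ∈ Γ then t.l i else 0) + m = 1 := by
    rw [hm, ← Finset.sum_add_distrib, ← hsumG]
    apply Finset.sum_congr rfl
    intro i _
    split_ifs <;> simp
  let t' : Wt I :=
    { F := G
      l := fun i => if i ∈ Γ then t.l i + (if i = i0 then m else 0) else 0
      nonneg := fun i => by
        have := t.nonneg i
        split_ifs <;> positivity
      off := fun i hi => by
        rw [if_neg (fun hc => hi (hG2 hc))]
      sum := by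
        have : ∑ i ∈ G, (if i ∈ Γ then t.l i + (if i = i0 then m else 0) else 0)
            = ∑ i ∈ G, (if i ∈ Γ then t.l i else 0) + ∑ i ∈ G, (if i = i0 then m else 0) := by
          rw [← Finset.sum_add_distrib]
          apply Finset.sum_congr rfl
          intro i _
          by_cases h1 : i ∈ Γ
          · simp [h1]
          · have : i ≠ i0 := fun hc => h1 (hc ▸ hi0)
            simp [h1, this]
        rw [this, Finset.sum_ite_eq' G i0, if_pos (hG2 hi0), hsplit] }
  have hle := le_comb h t' x0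
  rw [vl_eq g b t hG] at ht
  have hv' : vl g b t' x0 = ∑ i ∈ G, trm g b (t'.l i) i x0 := rfl
  rw [hv'] at hle
  have hdiff : ∑ i ∈ G, ((t'.l i - t.l i) * g i0 x0 + ρ * (if i ∈ Γ then 0 else t.l i))
      ≤ ∑ i ∈ G, (trm g b (t'.l i) i x0 - trm g b (t.l i) i x0) := by
    apply Finset.sum_le_sum
    intro i _
    by_cases h1 : i ∈ Γ
    · by_cases h2 : i = i0
      · subst h2
        have e1 : t'.l i = t.l i + m := by simp [t', h1]
        rw [e1, if_pos h1]
        unfold trm
        have h3 := (h.b_semi i).nonneg x0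
        have h4 := t'.le_one i
        rw [e1] at h4
        have h5 := t.nonneg i
        have h6 : 0 ≤ (t.l i + m - (t.l i + m) ^ 2 / 2) - (t.l i - (t.l i) ^ 2 / 2) := by nlinarith
        nlinarith
      · have e1 : t'.l i = t.l i := by simp [t', h1, h2]
        rw [e1, if_pos h1]
        simp
    · have e1 : t'.l i = 0 := by simp [t', h1]
      rw [e1, if_neg h1]
      have h3 := trm_le h (t.nonneg i) i x0
      have h4 := hout i h1
      have h5 := t.nonneg i
      have h6 : trm g b 0 i x0 = 0 := by unfold trm; ring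
      rw [h6]
      nlinarith
  rw [Finset.sum_sub_distrib, Finset.sum_add_distrib, ← Finset.sum_mul, ← Finset.mul_sum,
    Finset.sum_sub_distrib, t'.sum_of_subset (le_refl G), hsumG, ← hm] at hdiff
  linarith

/-- Two near maximisers are close on the coordinates where `b` is positive. -/
theorem near_close (h : CombHyp g b K) {x0 : X} (t s : Wt I) {τ : ℝ}
    (ht : comb g b x0 - τ < vl g b t x0) (hs : comb g b x0 - τ < vl g b s x0) (i : I) :
    b i x0 * (t.l i - s.l i) ^ 2 ≤ 8 * τ := by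
  classical
  set G := t.F ∪ s.F with hG
  have hG1 : t.F ⊆ G := Finset.subset_union_left
  have hG2 : s.F ⊆ G := Finset.subset_union_right
  let u : Wt I :=
    { F := G
      l := fun i => (t.l i + s.l i) / 2
      nonneg := fun i => by
        have := t.nonneg i
        have := s.nonneg i
        positivity
      off := fun i hi => by
        rw [t.off i (fun hc => hi (hG1 hc)), s.off i (fun hc => hi (hG2 hc))]
        norm_num
      sum := by
        rw [← Finset.sum_div, Finset.sum_add_distrib, t.sum_of_subset hG1, s.sum_of_subset hG2]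
        norm_num }
  have hu := le_comb h u x0
  have hu' : vl g b u x0 = ∑ i ∈ G, trm g b (u.l i) i x0 := rfl
  rw [vl_eq g b t hG1] at ht
  rw [vl_eq g b s hG2] at hs
  have hid : ∑ i ∈ G, trm g b (u.l i) i x0 = (∑ i ∈ G, trm g b (t.l i) i x0
      + ∑ i ∈ G, trm g b (s.l i) i x0) / 2 + ∑ i ∈ G, b i x0 * (t.l i - s.l i) ^ 2 / 8 := by
    rw [← Finset.sum_add_distrib, Finset.sum_div, ← Finset.sum_add_distrib]
    apply Finset.sum_congr rfl
    intro i _
    show trm g b ((t.l i + s.l i) / 2) i x0 = _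
    unfold trm
    ring
  rw [hu', hid] at hu
  have hnn : ∀ j ∈ G, 0 ≤ b j x0 * (t.l j - s.l j) ^ 2 / 8 := fun j _ => by
    have := (h.b_semi j).nonneg x0
    positivity
  by_cases hi : i ∈ G
  · have := Finset.single_le_sum hnn hi
    linarith
  · rw [t.off i (fun hc => hi (hG1 hc)), s.off i (fun hc => hi (hG2 hc))]
    have : 0 < τ := by
      have := le_comb h t x0
      rw [vl_eq g b t hG1] at this
      linarith
    simp
    linarith

/-- Existence of the limit weight. -/
theorem exists_lim [Nonempty I] (h : CombHyp g b K) {x0 : X} {i : I} (hi : 0 < b i x0) :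
    ∃ L : ℝ, ∀ τ : ℝ, ∀ t : Wt I, comb g b x0 - τ < vl g b t x0 →
      b i x0 * (t.l i - L) ^ 2 ≤ 8 * τ := by
  classical
  have hex : ∀ n : ℕ, ∃ t : Wt I, comb g b x0 - 1 / ((n : ℝ) + 1) < vl g b t x0 := by
    intro n
    have : Nonempty (Wt I) := ⟨Wt.one (Classical.arbitrary I)⟩
    have hn : comb g b x0 - 1 / ((n : ℝ) + 1) < comb g b x0 := by
      have : 0 < 1 / ((n : ℝ) + 1) := by positivity
      linarith
    exact exists_lt_of_lt_ciSup hn
  choose u hu using hex
  have hcs : CauchySeq fun n => (u n).l i := by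
    have hlim : Tendsto (fun n : ℕ => Real.sqrt (8 / b i x0 * (1 / ((n : ℝ) + 1)))) atTop (𝓝 0) := by
      have h1 := tendsto_one_div_add_atTop_nhds_zero_nat (𝕜 := ℝ)
      have h2 := (h1.const_mul (8 / b i x0)).sqrt
      simpa using h2
    refine cauchySeq_of_le_tendsto_0 _ (fun n m N hn hm => ?_) hlim
    rw [Real.dist_eq]
    apply Real.abs_le_sqrt
    have hN : ∀ k, N ≤ k → comb g b x0 - 1 / ((N : ℝ) + 1) < vl g b (u k) x0 := by
      intro k hk
      have h1 := hu k
      have h2 : 1 / ((k : ℝ) + 1) ≤ 1 / ((N : ℝ) + 1) := by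
        apply one_div_le_one_div_of_le (by positivity)
        have : (N : ℝ) ≤ k := by exact_mod_cast hk
        linarith
      linarith
    have h3 := near_close h (u n) (u m) (hN n hn) (hN m hm) i
    have h4 : 8 / b i x0 * (1 / ((N : ℝ) + 1)) = (8 * (1 / ((N : ℝ) + 1))) / b i x0 := by ring
    rw [h4, le_div_iff₀ hi]
    linarith
  obtain ⟨L, hL⟩ := cauchySeq_tendsto_of_complete hcs
  refine ⟨L, fun τ t ht => ?_⟩
  have h1 : Tendsto (fun n => b i x0 * (t.l i - (u n).l i) ^ 2) atTop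
      (𝓝 (b i x0 * (t.l i - L) ^ 2)) :=
    ((tendsto_const_nhds.sub hL).pow 2).const_mul _
  have hτ : 0 < τ := by
    have := le_comb h t x0
    linarith
  apply le_of_tendsto h1
  have h2 : ∀ᶠ n : ℕ in atTop, 1 / ((n : ℝ) + 1) < τ :=
    (tendsto_one_div_add_atTop_nhds_zero_nat (𝕜 := ℝ)).eventually (gt_mem_nhds hτ)
  filter_upwards [h2] with n hn
  exact near_close h t (u n) ht (by have := hu n; linarith) i

theorem comb_hasFDerivAt [Nonempty I] (h : CombHyp g b K) (hK : 0 ≤ K) {x0 : X} {Γ : Finset I}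
    {i0 : I} {ρ : ℝ} (hρ : 0 < ρ)
    (hout : ∀ i, i ∉ Γ → g i x0 + b i x0 ≤ g i0 x0 - ρ)
    (hb : ∀ i ∈ Γ, 0 < b i x0)
    (hg' : ∀ i ∈ Γ, ∃ l : X →L[ℝ] ℝ, HasFDerivAt (g i) l x0)
    (hb' : ∀ i ∈ Γ, ∃ l : X →L[ℝ] ℝ, HasFDerivAt (b i) l x0) :
    ∃ l : X →L[ℝ] ℝ, HasFDerivAt (comb g b) l x0 := by
  classical
  choose! Dg hDg using hg'
  choose! Db hDb using hb'
  have hlim : ∀ i ∈ Γ, ∃ L : ℝ, ∀ τ : ℝ, ∀ t : Wt I, comb g b x0 - τ < vl g b t x0 →
      b i x0 * (t.l i - L) ^ 2 ≤ 8 * τ := fun i hi => exists_lim h (hb i hi)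
  choose! L hL using hlim
  set l : X →L[ℝ] ℝ := ∑ i ∈ Γ, (L i • Dg i + (L i - L i ^ 2 / 2) • Db i) with hl
  refine ⟨l, ?_⟩
  apply danskin (Θ := Wt I) (fun t x => vl g b t x) (comb_semi h) (fun t x => le_comb h t x)
    (fun x r hr => comb_le hr) (K := 2 * K) (by positivity)
  · intro t x v
    show vl g b t (x + v) ≤ vl g b t x + 2 * K * ‖v‖
    refine ((vl_semi h t).add x v).trans ?_
    have : vl g b t v ≤ 2 * K * ‖v‖ := vl_le h t (fun i => by
      have := h.g_le i v
      have := h.b_le i v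
      linarith)
    linarith
  · intro η hη
    set S : ℝ := ∑ i ∈ Γ, (‖Dg i‖ + 3 * ‖Db i‖) with hS
    have hS0 : 0 ≤ S := Finset.sum_nonneg fun i _ => by positivity
    set σ : ℝ := min 1 (η / (4 * (S + 1))) with hσ
    have hσ0 : 0 < σ := lt_min one_pos (by positivity)
    have hσ1 : σ ≤ 1 := min_le_left _ _
    have hσ2 : σ * S ≤ η / 4 := by
      have : σ ≤ η / (4 * (S + 1)) := min_le_right _ _
      calc σ * S ≤ η / (4 * (S + 1)) * (S + 1) := by
            gcongr
            linarith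
        _ = η / 4 := by field_simp
    -- eventual conditions on τ
    have hpos : ∀ c : ℝ, 0 < c → ∀ᶠ τ : ℝ in 𝓝[>] 0, τ < c := fun c hc =>
      (gt_mem_nhds hc : ∀ᶠ τ in 𝓝 (0:ℝ), τ < c).filter_mono nhdsWithin_le_nhds
    have hder : ∀ (φ : X → ℝ) (l' : X →L[ℝ] ℝ), HasFDerivAt φ l' x0 →
        ∀ᶠ τ : ℝ in 𝓝[>] 0, ∀ v : X, ‖v‖ < τ → φ (x0 + v) - φ x0 ≤ l' v + η / 8 * ‖v‖ := by
      intro φ l' hφ
      rw [hasFDerivAt_iff_isLittleO_nhds_zero, Asymptotics.isLittleO_iff] at hφ
      obtain ⟨r, hr, hball⟩ := Metric.eventually_nhds_iff.1 (hφ (show 0 < η / 8 by positivity))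
      filter_upwards [hpos r hr] with τ hτ v hv
      have h1 := hball (y := v) (by rw [dist_zero_right]; linarith)
      rw [Real.norm_eq_abs] at h1
      have := (abs_le.1 h1).2
      linarith
    have e1 : ∀ᶠ τ : ℝ in 𝓝[>] 0, τ < ρ * η / (8 * (K + 1)) := hpos _ (by positivity)
    have e2 : ∀ᶠ τ : ℝ in 𝓝[>] 0, ∀ i ∈ Γ, τ < b i x0 * σ ^ 2 / 8 :=
      (Filter.eventually_all_finset Γ).2 fun i hi => hpos _ (by have := hb i hi; positivity)
    have e3 : ∀ᶠ τ : ℝ in 𝓝[>] 0, ∀ i ∈ Γ, ∀ v : X, ‖v‖ < τ →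
        g i (x0 + v) - g i x0 ≤ Dg i v + η / 8 * ‖v‖ :=
      (Filter.eventually_all_finset Γ).2 fun i hi => hder _ _ (hDg i hi)
    have e4 : ∀ᶠ τ : ℝ in 𝓝[>] 0, ∀ i ∈ Γ, ∀ v : X, ‖v‖ < τ →
        b i (x0 + v) - b i x0 ≤ Db i v + η / 8 * ‖v‖ :=
      (Filter.eventually_all_finset Γ).2 fun i hi => hder _ _ (hDb i hi)
    have e5 : ∀ᶠ τ : ℝ in 𝓝[>] 0, 0 < τ := self_mem_nhdsWithin
    obtain ⟨τ, h1, h2, h3, h4, h5⟩ := (e1.and (e2.and (e3.and (e4.and e5)))).exists
    refine ⟨τ, h5, fun t ht v hv => ?_⟩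
    show vl g b t (x0 + v) ≤ vl g b t x0 + l v + η * ‖v‖
    set G := t.F ∪ Γ with hG
    have hG1 : t.F ⊆ G := Finset.subset_union_left
    have hG2 : Γ ⊆ G := Finset.subset_union_right
    have hm := near_out h hρ hout t ht hG1 hG2
    set m := ∑ i ∈ G, (if i ∈ Γ then 0 else t.l i) with hmdef
    have hn := norm_nonneg v
    have hmK : 2 * K * m ≤ η / 4 := by
      have hm0 : 0 ≤ m := Finset.sum_nonneg fun i _ => by
        split_ifs
        · exact le_rfl
        · exact t.nonneg i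
      rw [lt_div_iff₀ (by positivity)] at h1
      have h6 : m * ρ * (8 * (K + 1)) ≤ ρ * η := by
        calc m * ρ * (8 * (K + 1)) ≤ τ * (8 * (K + 1)) := by gcongr
          _ ≤ ρ * η := h1.le
      have h7 : ρ * (m * (8 * (K + 1))) ≤ ρ * η := by linarith
      have h8 := le_of_mul_le_mul_left h7 hρ
      nlinarith
    rw [vl_eq g b t hG1, vl_eq g b t hG1]
    have hlv : l v = ∑ i ∈ G, (if i ∈ Γ then L i * Dg i v + (L i - L i ^ 2 / 2) * Db i v else 0) := by
      rw [hl, ← Finset.sum_subset hG2 (f := fun i => if i ∈ Γ then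
        L i * Dg i v + (L i - L i ^ 2 / 2) * Db i v else 0) (fun i _ hi => if_neg hi)]
      rw [sum_apply]
      apply Finset.sum_congr rfl
      intro i hi
      rw [if_pos hi]
      simp
    have hSG : S = ∑ i ∈ G, (if i ∈ Γ then ‖Dg i‖ + 3 * ‖Db i‖ else 0) := by
      rw [hS, ← Finset.sum_subset hG2 (f := fun i => if i ∈ Γ then
        ‖Dg i‖ + 3 * ‖Db i‖ else 0) (fun i _ hi => if_neg hi)]
      apply Finset.sum_congr rfl
      intro i hi
      rw [if_pos hi]
    have hterm : ∀ i ∈ G, trm g b (t.l i) i (x0 + v) ≤ trm g b (t.l i) i x0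
        + (if i ∈ Γ then L i * Dg i v + (L i - L i ^ 2 / 2) * Db i v else 0)
        + (σ * ‖v‖) * (if i ∈ Γ then ‖Dg i‖ + 3 * ‖Db i‖ else 0)
        + (η / 4 * ‖v‖) * t.l i + (2 * K * ‖v‖) * (if i ∈ Γ then 0 else t.l i) := by
      intro i _
      have hl0 := t.nonneg i
      have hl1 := t.le_one i
      have he0 := ev_nonneg hl0 hl1
      have he1 := @ev_le (t.l i)
      by_cases hi : i ∈ Γ
      · rw [if_pos hi, if_pos hi, if_pos hi]
        have hgi := h3 i hi v hv
        have hbi := h4 i hi v hv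
        have hLi := hL i hi τ t ht
        have hτi := h2 i hi
        have hd : |t.l i - L i| ≤ σ := by
          apply abs_le_of_sq_le_sq _ hσ0.le
          have hbp := hb i hi
          have : b i x0 * (t.l i - L i) ^ 2 ≤ b i x0 * σ ^ 2 := by linarith
          exact le_of_mul_le_mul_left this hbp
        have hd2 : |(t.l i - t.l i ^ 2 / 2) - (L i - L i ^ 2 / 2)| ≤ 3 * σ := by
          have e : (t.l i - t.l i ^ 2 / 2) - (L i - L i ^ 2 / 2)
              = (t.l i - L i) * (1 - (t.l i + L i) / 2) := by ring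
          rw [e, abs_mul]
          have hLb := abs_le.1 hd
          have : |1 - (t.l i + L i) / 2| ≤ 3 := by
            rw [abs_le]; constructor <;> linarith
          calc |t.l i - L i| * |1 - (t.l i + L i) / 2| ≤ σ * 3 := by gcongr
            _ = 3 * σ := by ring
        have hDgv : |Dg i v| ≤ ‖Dg i‖ * ‖v‖ := (Dg i).le_opNorm v
        have hDbv : |Db i v| ≤ ‖Db i‖ * ‖v‖ := (Db i).le_opNorm v
        have k1 : (t.l i - L i) * Dg i v ≤ σ * (‖Dg i‖ * ‖v‖) := by
          calc (t.l i - L i) * Dg i v ≤ |(t.l i - L i) * Dg i v| := le_abs_self _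
            _ = |t.l i - L i| * |Dg i v| := abs_mul _ _
            _ ≤ _ := by gcongr
        have k2 : ((t.l i - t.l i ^ 2 / 2) - (L i - L i ^ 2 / 2)) * Db i v
            ≤ 3 * σ * (‖Db i‖ * ‖v‖) := by
          calc ((t.l i - t.l i ^ 2 / 2) - (L i - L i ^ 2 / 2)) * Db i v
              ≤ |((t.l i - t.l i ^ 2 / 2) - (L i - L i ^ 2 / 2)) * Db i v| := le_abs_self _
            _ = |(t.l i - t.l i ^ 2 / 2) - (L i - L i ^ 2 / 2)| * |Db i v| := abs_mul _ _
            _ ≤ _ := by gcongr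
        have k3 : t.l i * (g i (x0 + v) - g i x0) ≤ t.l i * (Dg i v + η / 8 * ‖v‖) :=
          mul_le_mul_of_nonneg_left hgi hl0
        have k4 : (t.l i - t.l i ^ 2 / 2) * (b i (x0 + v) - b i x0)
            ≤ (t.l i - t.l i ^ 2 / 2) * (Db i v + η / 8 * ‖v‖) :=
          mul_le_mul_of_nonneg_left hbi he0
        have k5 : (t.l i - t.l i ^ 2 / 2) * (η / 8 * ‖v‖) ≤ t.l i * (η / 8 * ‖v‖) :=
          mul_le_mul_of_nonneg_right he1 (by positivity)
        unfold trm
        linarith
      · rw [if_neg hi, if_neg hi, if_neg hi]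
        have hgv : g i (x0 + v) ≤ g i x0 + K * ‖v‖ :=
          ((h.g_semi i).add x0 v).trans (by have := h.g_le i v; linarith)
        have hbv : b i (x0 + v) ≤ b i x0 + K * ‖v‖ :=
          ((h.b_semi i).add x0 v).trans (by have := h.b_le i v; linarith)
        have k3 : t.l i * g i (x0 + v) ≤ t.l i * (g i x0 + K * ‖v‖) :=
          mul_le_mul_of_nonneg_left hgv hl0
        have k4 : (t.l i - t.l i ^ 2 / 2) * b i (x0 + v)
            ≤ (t.l i - t.l i ^ 2 / 2) * (b i x0 + K * ‖v‖) :=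
          mul_le_mul_of_nonneg_left hbv he0
        have k5 : (t.l i - t.l i ^ 2 / 2) * (K * ‖v‖) ≤ t.l i * (K * ‖v‖) :=
          mul_le_mul_of_nonneg_right he1 (by positivity)
        have k6 : 0 ≤ (η / 4 * ‖v‖) * t.l i := by positivity
        unfold trm
        linarith
    have hsum := Finset.sum_le_sum hterm
    rw [Finset.sum_add_distrib, Finset.sum_add_distrib, Finset.sum_add_distrib,
      Finset.sum_add_distrib, ← hlv, ← Finset.mul_sum, ← Finset.mul_sum, ← Finset.mul_sum, ← hSG,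
      ← hmdef, t.sum_of_subset hG1] at hsum
    nlinarith

end comb

/-- The abstract smoothing theorem. -/
theorem smoothing {X : Type*} [NormedAddCommGroup X] [NormedSpace ℝ X] {I : Type*} [Nonempty I]
    (A : I → X → ℝ) (w : I → (X →L[ℝ] ℝ) → ℝ) (T : I → X →L[ℝ] ℝ) {L M : ℝ} (hL0 : 0 ≤ L)
    (hM0 : 0 ≤ M) (hA : ∀ i, IsSemi (A i)) (hL : ∀ i x, A i x ≤ L * ‖x‖)
    (hw : ∀ i, IsPen (A i) (w i)) (hM : ∀ i, ‖T i‖ ≤ M)
    (hfin : ∀ x, ∀ η > (0 : ℝ), {i | η ≤ |T i x|}.Finite) :
    ∃ N : X → ℝ, IsSemi N ∧ (∀ i x, A i x ≤ N x) ∧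
      (∀ x r, (∀ i, A i x + 3 * |T i x| ≤ r) → N x ≤ r) ∧
      ∀ x, (∃ i, T i x ≠ 0 ∧ ∀ j, A j x ≤ A i x) → ∃ l : X →L[ℝ] ℝ, HasFDerivAt N l x := by
  classical
  set g : I → X → ℝ := fun i x => pen (A i) (w i) (T i) x + |T i x| with hg
  set b : I → X → ℝ := fun i x => |T i x| with hb
  have hTb : ∀ i x, |T i x| ≤ M * ‖x‖ := fun i x => by
    have h1 := (T i).le_opNorm x
    rw [Real.norm_eq_abs] at h1
    exact h1.trans (mul_le_mul_of_nonneg_right (hM i) (norm_nonneg x))
  have hbs : ∀ i, IsSemi (b i) := fun i =>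
    ⟨fun x y => by
      show |T i (x + y)| ≤ |T i x| + |T i y|
      rw [map_add]; exact abs_add_le _ _, fun c x => by
      show |T i (c • x)| = |c| * |T i x|
      rw [map_smul, smul_eq_mul, abs_mul]⟩
  have hps : ∀ i, IsSemi (pen (A i) (w i) (T i)) := fun i => pen_semi (T i) (hA i) (hw i)
  have hgs : ∀ i, IsSemi (g i) := fun i =>
    ⟨fun x y => by
      have h1 := (hps i).add x y
      have h2 := (hbs i).add x y
      show pen (A i) (w i) (T i) (x + y) + |T i (x + y)| ≤
        pen (A i) (w i) (T i) x + |T i x| + (pen (A i) (w i) (T i) y + |T i y|)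
      simp only [hb] at h2
      linarith, fun c x => by
      have h1 := (hps i).smul c x
      have h2 := (hbs i).smul c x
      show pen (A i) (w i) (T i) (c • x) + |T i (c • x)| = |c| * (pen (A i) (w i) (T i) x + |T i x|)
      simp only [hb] at h2
      rw [h1, h2]
      ring⟩
  have hyp : CombHyp g b (L + 2 * M) :=
    { g_semi := hgs
      b_semi := hbs
      g_le := fun i x => by
        have h1 := pen_le (T i) (hA i) (hw i) x
        have h2 := hL i x
        have h3 := hTb i x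
        show pen (A i) (w i) (T i) x + |T i x| ≤ (L + 2 * M) * ‖x‖
        linarith
      b_le := fun i x => by
        have h3 := hTb i x
        have : 0 ≤ (L + M) * ‖x‖ := by positivity
        show |T i x| ≤ (L + 2 * M) * ‖x‖
        linarith }
  refine ⟨comb g b, comb_semi hyp, fun i x => ?_, fun x r hr => ?_, fun x0 hx0 => ?_⟩
  · refine le_trans ?_ (g_le_comb hyp i x)
    have h1 := pen_ge (T i) (hA i) (hL i) (hw i) x
    have h2 := abs_nonneg (T i x)
    show A i x ≤ pen (A i) (w i) (T i) x + |T i x|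
    linarith
  · apply comb_le
    intro t
    apply vl_le hyp
    intro i
    have h1 := pen_le (T i) (hA i) (hw i) x
    have h2 := hr i
    show pen (A i) (w i) (T i) x + |T i x| + |T i x| ≤ r
    linarith
  · obtain ⟨i0, hT, hmax⟩ := hx0
    have hpos : 0 < |T i0 x0| := abs_pos.2 hT
    have hF := hfin x0 (|T i0 x0| / 16) (by positivity)
    have hmem : ∀ i, i ∈ hF.toFinset ↔ |T i0 x0| / 16 ≤ |T i x0| := fun i => by simp
    have hTi : ∀ i ∈ hF.toFinset, T i x0 ≠ 0 := fun i hi => by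
      have h1 := (hmem i).1 hi
      have : 0 < |T i x0| := lt_of_lt_of_le (by positivity) h1
      exact abs_pos.1 this
    apply comb_hasFDerivAt hyp (by positivity) (Γ := hF.toFinset) (i0 := i0)
      (ρ := |T i0 x0| / 2) (by positivity)
    · intro i hi
      rw [hmem] at hi
      push Not at hi
      have h1 := pen_le (T i) (hA i) (hw i) x0
      have h2 := pen_ge (T i0) (hA i0) (hL i0) (hw i0) x0
      have h3 := hmax i
      show pen (A i) (w i) (T i) x0 + |T i x0| + |T i x0| ≤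
        pen (A i0) (w i0) (T i0) x0 + |T i0 x0| - |T i0 x0| / 2
      linarith
    · intro i hi
      exact abs_pos.2 (hTi i hi)
    · intro i hi
      obtain ⟨l1, h1⟩ := pen_hasFDerivAt (T i) (hA i) hL0 (hL i) (hw i) (hTi i hi)
      obtain ⟨l2, h2⟩ := abs_hasFDerivAt (hTi i hi)
      exact ⟨l1 + l2, h1.add h2⟩
    · intro i hi
      exact abs_hasFDerivAt (hTi i hi)

end Pool.Agent.Helper957
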