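import Mathlib
import Pool.Agent.Helper957.Club

set_option autoImplicit false

namespace Pool.Agent.Helper957

open Set Filter Topology

section nodual

variable {Ω : Type*} [LinearOrder Ω] [OrderBot Ω] [hΩ : Omg Ω]

theorem exists_level {p : XX Ω → ℝ} {D : (XX Ω →L[ℝ] ℝ) → ℝ} (hp0 : p 0 ≤ 1)
    (h1 : ∀ f x, p x ≤ 1 → f x ≤ D f) (h2 : ∀ f r, (∀ x, p x ≤ 1 → f x ≤ r) → D f ≤ r)
    {M : ℝ} (h3 : ∀ x, p x ≤ 1 → ‖x‖ ≤ M) :
    ∃ (c : ℝ) (α₀ : Ω), (∀ γ, α₀ < γ → c ≤ D (evl γ)) ∧ ∀ α, ∃ γ, α < γ ∧ D (evl γ) = c := by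
  set R : Set ℝ := {r | ∃ α : Ω, ∀ γ, α < γ → r ≤ D (evl γ)} with hR
  have hle : ∀ γ : Ω, D (evl γ) ≤ M := fun γ => h2 _ _ fun x hx =>
    (le_abs_self _).trans ((XX.abs_le_norm x γ).trans (h3 x hx))
  have hne : R.Nonempty := by
    refine ⟨0, ⊥, fun γ _ => ?_⟩
    have := h1 (evl γ) 0 hp0
    rwa [map_zero] at this
  have hbdd : BddAbove R := by
    refine ⟨M, ?_⟩
    rintro r ⟨α, hα⟩
    obtain ⟨b, hb⟩ := exists_gt_all (fun _ : ℕ => α)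
    exact (hα b (hb 0)).trans (hle b)
  set c := sSup R with hc
  have ha : ∃ α₀ : Ω, ∀ γ, α₀ < γ → c ≤ D (evl γ) := by
    have hn : ∀ n : ℕ, ∃ α : Ω, ∀ γ, α < γ → c - 1 / ((n : ℝ) + 1) ≤ D (evl γ) := by
      intro n
      obtain ⟨r, ⟨α, hα⟩, hlt⟩ := exists_lt_of_lt_csSup hne
        (show c - 1 / ((n : ℝ) + 1) < sSup R by
          have : (0:ℝ) < 1 / ((n : ℝ) + 1) := by positivity
          linarith)
      exact ⟨α, fun γ hγ => hlt.le.trans (hα γ hγ)⟩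
    choose α hα using hn
    obtain ⟨α₀, hα₀⟩ := exists_gt_all α
    refine ⟨α₀, fun γ hγ => ?_⟩
    apply le_of_forall_pos_le_add
    intro η hη
    obtain ⟨n, hn⟩ := exists_nat_one_div_lt hη
    have := hα n γ ((hα₀ n).trans hγ)
    linarith
  obtain ⟨α₀, hα₀⟩ := ha
  refine ⟨c, α₀, hα₀, fun α => ?_⟩
  have hn : ∀ (n : ℕ) (δ : Ω), ∃ γ, δ < γ ∧ D (evl γ) < c + 1 / ((n : ℝ) + 1) := by
    intro n δ
    by_contra hcon
    push Not at hcon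
    have : c + 1 / ((n : ℝ) + 1) ∈ R := ⟨δ, hcon⟩
    have h4 := le_csSup hbdd this
    have : (0:ℝ) < 1 / ((n : ℝ) + 1) := by positivity
    linarith
  choose g hg1 hg2 using hn
  have hh : ∀ δ : Ω, ∃ h, ∀ n, g n δ < h := fun δ => exists_gt_all fun n => g n δ
  choose h hh using hh
  obtain ⟨β, hβ1, hβ2⟩ := exists_closed_gt h (max α α₀)
  refine ⟨β, lt_of_le_of_lt (le_max_left _ _) hβ1, le_antisymm ?_
    (hα₀ β (lt_of_le_of_lt (le_max_right _ _) hβ1))⟩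
  apply h2
  intro x hx
  rw [evl_apply]
  apply le_of_forall_pos_le_add
  intro η hη
  obtain ⟨n, hn⟩ := exists_nat_one_div_lt (show 0 < η / 2 by positivity)
  obtain ⟨s, hs, hs2⟩ := XX.left x (lt_of_le_of_lt bot_le hβ1) (show 0 < η / 2 by positivity)
  have h4 : g n s < β := (hh s n).trans (hβ2 s hs)
  have h5 := hs2 (g n s) (hg1 n s) h4.le
  have h6 := h1 (evl (g n s)) x hx
  rw [evl_apply] at h6
  have h7 := hg2 n s
  have h8 := (abs_le.1 h5).1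
  linarith

/-- No equivalent norm on the long space has a locally uniformly rotund dual norm. -/
theorem no_dual_lur {p : XX Ω → ℝ} {D : (XX Ω →L[ℝ] ℝ) → ℝ} (hp0 : p 0 ≤ 1)
    (h1 : ∀ f x, p x ≤ 1 → f x ≤ D f) (h2 : ∀ f r, (∀ x, p x ≤ 1 → f x ≤ r) → D f ≤ r)
    {M : ℝ} (h3 : ∀ x, p x ≤ 1 → ‖x‖ ≤ M) :
    ∃ f g : XX Ω →L[ℝ] ℝ, f ≠ g ∧ 2 * D f ^ 2 + 2 * D g ^ 2 - D (f + g) ^ 2 = 0 := by
  obtain ⟨c, α₀, hc1, hc2⟩ := exists_level hp0 h1 h2 h3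
  have key : ∃ γ₁ γ₂ : Ω, ⊥ < γ₁ ∧ γ₁ < γ₂ ∧ D (evl γ₁) = c ∧ D (evl γ₂) = c ∧
      2 * c ≤ D (evl γ₁ + evl γ₂) := by
    by_contra hcon
    push Not at hcon
    have hn : ∃ n : ℕ, ∀ α, ∃ γ₁ γ₂ : Ω, α < γ₁ ∧ γ₁ < γ₂ ∧
        D (evl γ₁ + evl γ₂) < 2 * c - 1 / ((n : ℝ) + 1) := by
      by_contra hno
      push Not at hno
      choose α hα using hno
      obtain ⟨a, ha⟩ := exists_gt_all α
      obtain ⟨γ₁, h4, h5⟩ := hc2 a
      obtain ⟨γ₂, h6, h7⟩ := hc2 γ₁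
      have h8 := hcon γ₁ γ₂ (lt_of_le_of_lt bot_le h4) h6 h5 h7
      obtain ⟨n, hn⟩ := exists_nat_one_div_lt (sub_pos.2 h8)
      have h9 := hα n γ₁ γ₂ ((ha n).trans h4) h6
      linarith
    obtain ⟨n, hn⟩ := hn
    choose g1 g2 hg1 hg2 hg3 using hn
    obtain ⟨β, hβ1, hβ2⟩ := exists_closed_gt g2 α₀
    set e : ℝ := 1 / ((n : ℝ) + 1) with he
    have he0 : 0 < e := by positivity
    have hcβ := hc1 β hβ1
    obtain ⟨x, hx, hx2⟩ : ∃ x, p x ≤ 1 ∧ c - e / 4 < x β := by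
      by_contra hno
      push Not at hno
      have := h2 (evl β) (c - e / 4) hno
      linarith
    obtain ⟨s, hs, hs2⟩ := XX.left x (lt_of_le_of_lt bot_le hβ1) (show 0 < e / 8 by positivity)
    have h4 : g2 s < β := hβ2 s hs
    have h5 := (abs_le.1 (hs2 (g1 s) (hg1 s) ((hg2 s).trans h4).le)).1
    have h6 := (abs_le.1 (hs2 (g2 s) ((hg1 s).trans (hg2 s)) h4.le)).1
    have h7 := h1 (evl (g1 s) + evl (g2 s)) x hx
    rw [add_apply, evl_apply, evl_apply] at h7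
    have h8 := hg3 s
    linarith
  obtain ⟨γ₁, γ₂, h0, h4, h5, h6, h7⟩ := key
  refine ⟨evl γ₁, evl γ₂, fun heq => ?_, ?_⟩
  · have h8 : (evl γ₁) (ch γ₁) = (evl γ₂) (ch γ₁) := by rw [heq]
    rw [evl_apply, evl_apply, ch_apply, ch_apply, if_pos ⟨h0, le_rfl⟩,
      if_neg (fun hc => absurd hc.2 (not_le.2 h4))] at h8
    exact one_ne_zero h8
  · have h8 : D (evl γ₁ + evl γ₂) ≤ 2 * c := by
      apply h2
      intro x hx
      have h9 := h1 (evl γ₁) x hx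
      have h10 := h1 (evl γ₂) x hx
      rw [add_apply]
      linarith
    have h9 : D (evl γ₁ + evl γ₂) = 2 * c := le_antisymm h8 h7
    rw [h9, h5, h6]
    ring

end nodual

end Pool.Agent.Helper957
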