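import Mathlib
import Pool.Agent.Helper957.Comb
import Pool.Agent.Helper957.ClubA

set_option autoImplicit false

namespace Pool.Agent.Helper957

open Set Filter Topology

section thmA

variable {Ω : Type*} [LinearOrder Ω] [OrderBot Ω] [hΩ : Omg Ω]
variable {p : XX Ω → ℝ} {C : Set Ω} {nx : Ω → Ω} {L : ℝ}

/-- A functional vanishing on all functions vanishing on an initial segment is supported there. -/
theorem Sp_of_vanish {f : XX Ω →L[ℝ] ℝ} {c : Ω} (h : ∀ x : XX Ω, (∀ t ≤ c, x t = 0) → f x = 0) :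
    Sp f (Iic c) := by
  have h1 : res (Iic c) f = f := by
    apply ext_ch
    intro a
    have e1 : ∀ a, (res (Iic c) f) (ch a) = f (ch (min a c)) := by
      intro a
      unfold res
      rw [J_ch _ _ (by
        by_cases h : (⊥ : Ω) ∈ Iic c
        · rw [indicator_of_mem h, co_bot]
        · rw [indicator_of_notMem h])]
      have h2 := J_ch (co f) (co_summable f) (co_bot f) (min a c)
      rw [J_co] at h2
      rw [h2, indicator_indicator, Iic_inter_Iic]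
    rw [e1]
    have h3 : f (ch a - ch (min a c)) = 0 := by
      apply h
      intro t ht
      rw [ch_sub_apply (min_le_left _ _), if_neg]
      rintro ⟨h4, h5⟩
      rcases min_lt_iff.1 h4 with h6 | h6
      · exact absurd h6 (not_lt.2 h5)
      · exact absurd h6 (not_lt.2 ht)
    rw [map_sub] at h3
    linarith
  rw [← h1]
  exact Sp_res _ _

theorem AA_semi (hp : IsSemi p) (hL0 : 0 ≤ L) (hL : ∀ x, p x ≤ L * ‖x‖)
    {δ : ℝ} (hδ : 0 < δ) (γ : Ω) : IsSemi (AA p nx δ γ) := by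
  have h1 := (sym_Ea (nx := nx) hp hL0 hL γ).semi
  have h2 := (sym_Eb (p := p) (nx := nx) γ).semi
  refine ⟨fun x y => ?_, fun c x => ?_⟩
  · have h3 := h1.add x y
    have h4 := h2.add x y
    unfold AA
    nlinarith
  · unfold AA
    rw [h1.smul, h2.smul]
    ring

theorem AA_support (hp : IsSemi p) (hL0 : 0 ≤ L) (hL : ∀ x, p x ≤ L * ‖x‖)
    {δ : ℝ} (γ : Ω) {f : XX Ω →L[ℝ] ℝ} (hf : f ∈ Pol (AA p nx δ γ)) :
    Sp f (Iic (nx γ)) := by
  apply Sp_of_vanish
  intro x hx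
  have hz : ∀ y : XX Ω, (∀ t ≤ nx γ, y t = 0) → AA p nx δ γ y ≤ 0 := by
    intro y hy
    have h1 : sfn (Ea p nx γ) y = 0 := by
      apply le_antisymm _ ((sym_Ea hp hL0 hL γ).semi.nonneg y)
      apply (sym_Ea hp hL0 hL γ).le_of
      intro g hg
      exact (apply_eq_zero_of hg.2 fun t ht => hy t (le_of_lt ht)).le
    have h2 : sfn (Eb p nx γ) y = 0 := by
      apply le_antisymm _ (eb_nonneg γ y)
      apply (sym_Eb γ).le_of
      intro g hg
      exact (apply_eq_zero_of hg.2.2 fun t ht => hy t ht.2.le).le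
    unfold AA
    rw [h1, h2]
    simp
  have h1 := (hf x).trans (hz x hx)
  have h2 := (hf (-x)).trans (hz (-x) fun t ht => by rw [XX.neg_apply, hx t ht, neg_zero])
  rw [map_neg] at h2
  linarith

/-- Finiteness of the blocks where a given point is seen. -/
theorem finite_blocks (hC : Clb p C nx) (x : XX Ω) {η : ℝ} (hη : 0 < η) :
    {β | β ∈ C ∧ ∃ f ∈ TT p nx β, η ≤ |f x|}.Finite := by
  have hch : ∀ a : Ω, {β | β ∈ C ∧ ∃ f ∈ TT p nx β, f (ch a) ≠ 0}.Finite := by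
    intro a
    obtain ⟨β0, hβ0, h1, h2⟩ := hC.exists_pr a
    apply (Set.toFinite {⊥, β0}).subset
    rintro β ⟨hβ, f, hf, hne⟩
    rw [mem_insert_iff, mem_singleton_iff]
    by_contra hc
    push Not at hc
    obtain ⟨hc1, hc2⟩ := hc
    apply hne
    have hmass := hf.2.2.2 hc1
    rcases lt_or_gt_of_ne hc2 with h3 | h3
    · -- block to the left
      have h4 : nx β ≤ a := (hC.nx_le β β0 hβ0 h3).trans h1
      have h5 : Sp f (Iic a) := hf.2.2.1.mono fun t ht => ht.2.trans h4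
      rw [← mass_eq h5]
      exact hmass
    · have h4 : a < β := lt_of_lt_of_le h2 (hC.nx_le β0 β hβ h3)
      apply apply_eq_zero_of hf.2.2.1
      intro t ht
      rw [ch_apply, if_neg]
      rintro ⟨_, h5⟩
      exact absurd (lt_of_lt_of_le h4 ht.1) (not_lt.2 h5)
  have hspan : ∀ s ∈ Submodule.span ℝ (range (ch : Ω → XX Ω)),
      {β | β ∈ C ∧ ∃ f ∈ TT p nx β, f s ≠ 0}.Finite := by
    intro s hs
    induction hs using Submodule.span_induction with
    | mem x hx =>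
      obtain ⟨a, rfl⟩ := hx
      exact hch a
    | zero =>
      apply (Set.finite_empty (α := Ω)).subset
      rintro β ⟨_, f, _, hne⟩
      exact absurd (map_zero f) hne
    | add x y _ _ hx hy =>
      apply (hx.union hy).subset
      rintro β ⟨hβ, f, hf, hne⟩
      by_cases h : f x = 0
      · right
        refine ⟨hβ, f, hf, fun h2 => hne ?_⟩
        rw [map_add, h, h2, add_zero]
      · left
        exact ⟨hβ, f, hf, h⟩
    | smul c x _ hx =>
      apply hx.subset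
      rintro β ⟨hβ, f, hf, hne⟩
      refine ⟨hβ, f, hf, fun h2 => hne ?_⟩
      rw [map_smul, h2, smul_zero]
  obtain ⟨s, hs, hxs⟩ := span_ch_dense x (show 0 < η / 2 by positivity)
  apply (hspan s hs).subset
  rintro β ⟨hβ, f, hf, hle⟩
  refine ⟨hβ, f, hf, fun h0 => ?_⟩
  have h1 : f x = f (x - s) := by rw [map_sub, h0, sub_zero]
  have h2 : |f (x - s)| ≤ ‖f‖ * ‖x - s‖ := f.le_opNorm _
  have h3 : ‖f‖ * ‖x - s‖ ≤ 1 * (η / 2) := mul_le_mul hf.2.1 hxs (norm_nonneg _) zero_le_one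
  rw [h1] at hle
  linarith

/-- The main smoothing theorem for seminorms on the long space. -/
theorem theoremA (hp : IsSemi p) (hL0 : 0 ≤ L) (hL : ∀ x, p x ≤ L * ‖x‖) {K : ℝ} (hK0 : 0 ≤ K)
    (hK : ∀ f : XX Ω →L[ℝ] ℝ, (∀ x, p x = 0 → f x = 0) → ∀ x, f x ≤ K * ‖f‖ * p x)
    {ε : ℝ} (hε : 0 < ε) :
    ∃ N : XX Ω → ℝ, IsSemi N ∧ (∀ x, p x ≤ N x) ∧ (∀ x, N x ≤ (1 + ε) * p x) ∧
      ∀ x, p x ≠ 0 → ∃ l : XX Ω →L[ℝ] ℝ, HasFDerivAt N l x := by
  classical
  obtain ⟨C, nx, hC⟩ := exists_Clb hp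
  set δ : ℝ := ε / (4 * (K + 1)) with hδ
  have hδ0 : 0 < δ := by positivity
  -- dense sequences
  have hTTne : ∀ β : Ω, (TT p nx β).Nonempty := fun β =>
    ⟨0, Zf.zero, by rw [norm_zero]; exact zero_le_one, Sp_zero _, fun _ => by
      have := mass_smul (0:ℝ) (0 : XX Ω →L[ℝ] ℝ)
      rw [zero_smul, zero_mul] at this
      exact this⟩
  have hds : ∀ β : Ω, ∃ τ : ℕ → XX Ω →L[ℝ] ℝ, (∀ n, τ n ∈ TT p nx β) ∧
      ∀ f ∈ TT p nx β, ∀ η > (0 : ℝ), ∃ n, ‖f - τ n‖ < η := fun β =>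
    exists_dense_seq (γ := nx β) (T := TT p nx β)
      (fun f hf => hf.2.2.1.mono fun t ht => ht.2) (hTTne β)
  choose τ hτ1 hτ2 using hds
  choose W hW0 hW1 hW2 hW3 using fun β : Ω => exists_wt (nx β)
  let I : Type _ := Prod ↥C ℕ
  have hIne : Nonempty I := Nonempty.intro ((⟨⊥, hC.bot_mem⟩ : C), 0)
  let T : I → XX Ω →L[ℝ] ℝ := fun i => (δ * (1/2) ^ i.2) • τ i.1.1 i.2
  have hAle : ∀ i : I, ∀ x, AA p nx δ i.1.1 x ≤ (L + δ) * ‖x‖ := fun i x =>
    AA_le hp hL0 hL hδ0 _ x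
  have hTn : ∀ i : I, ‖T i‖ ≤ δ := by
    intro i
    show ‖(δ * (1/2) ^ i.2) • τ i.1.1 i.2‖ ≤ δ
    rw [norm_smul, Real.norm_eq_abs, abs_of_nonneg (by positivity)]
    have h1 := (hτ1 i.1.1 i.2).2.1
    have h2 : (1/2 : ℝ) ^ i.2 ≤ 1 := pow_le_one₀ (by norm_num) (by norm_num)
    calc δ * (1/2) ^ i.2 * ‖τ i.1.1 i.2‖ ≤ δ * 1 * 1 := by gcongr
      _ = δ := by ring
  have hTx : ∀ (i : I) x, |T i x| = δ * (1/2) ^ i.2 * |τ i.1.1 i.2 x| := by
    intro i x
    show |((δ * (1/2) ^ i.2) • τ i.1.1 i.2) x| = _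
    rw [smul_apply, smul_eq_mul, abs_mul, abs_of_nonneg (by positivity : (0:ℝ) ≤ δ * (1/2) ^ i.2)]
  obtain ⟨N, hN1, hN2, hN3, hN4⟩ := smoothing (fun i : I => AA p nx δ i.1.1)
    (fun i => pw (W i.1.1) (L + δ)) T (L := L + δ) (M := δ) (by positivity) hδ0.le
    (fun i => AA_semi hp hL0 hL hδ0 _) hAle
    (fun i => isPen_pw (AA_semi hp hL0 hL hδ0 _) (by positivity) (c := nx i.1.1)
      (fun f hf => norm_le_of_Pol (AA_semi hp hL0 hL hδ0 _) (by positivity) (hAle i) hf)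
      (fun f hf => AA_support hp hL0 hL _ hf) (hW0 _) (hW1 _) (hW2 _) (hW3 _)) hTn (by
      intro x η hη
      obtain ⟨k0, hk0⟩ : ∃ k0 : ℕ, δ * (1/2) ^ k0 * ‖x‖ < η := by
        have h1 : Tendsto (fun n : ℕ => δ * (1/2 : ℝ) ^ n * ‖x‖) atTop (𝓝 (δ * 0 * ‖x‖)) :=
          ((tendsto_pow_atTop_nhds_zero_of_lt_one (by norm_num) (by norm_num)).const_mul
            δ).mul_const _
        rw [mul_zero, zero_mul] at h1
        exact (h1.eventually (gt_mem_nhds hη)).exists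
      have hf1 := finite_blocks hC x (show 0 < η / δ by positivity)
      have hf2 : ((Subtype.val ⁻¹' {β | β ∈ C ∧ ∃ f ∈ TT p nx β, η / δ ≤ |f x|} : Set C) ×ˢ
          {k : ℕ | k < k0}).Finite :=
        (hf1.preimage Subtype.val_injective.injOn).prod (Set.finite_lt_nat k0)
      apply hf2.subset
      intro i hi
      have hi' : η ≤ δ * (1/2) ^ i.2 * |τ i.1.1 i.2 x| := by rw [← hTx]; exact hi
      have h3 : |τ i.1.1 i.2 x| ≤ ‖x‖ := by
        have h4 := (τ i.1.1 i.2).le_opNorm x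
        have h5 := (hτ1 i.1.1 i.2).2.1
        rw [Real.norm_eq_abs] at h4
        have := norm_nonneg x
        nlinarith
      constructor
      · refine ⟨i.1.2, τ i.1.1 i.2, hτ1 _ _, ?_⟩
        rw [div_le_iff₀ hδ0]
        have h2 : (1/2 : ℝ) ^ i.2 ≤ 1 := pow_le_one₀ (by norm_num) (by norm_num)
        calc η ≤ δ * (1/2) ^ i.2 * |τ i.1.1 i.2 x| := hi'
          _ ≤ δ * 1 * |τ i.1.1 i.2 x| := by gcongr
          _ = |τ i.1.1 i.2 x| * δ := by ring
      · show i.2 < k0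
        by_contra hc
        rw [not_lt] at hc
        have h2 : (1/2 : ℝ) ^ i.2 ≤ (1/2) ^ k0 :=
          pow_le_pow_of_le_one (by norm_num) (by norm_num) hc
        have : δ * (1/2) ^ i.2 * |τ i.1.1 i.2 x| ≤ δ * (1/2) ^ k0 * ‖x‖ := by gcongr
        linarith)
  have hKδ : δ * K ≤ ε / 4 := by
    rw [hδ, div_mul_eq_mul_div, div_le_div_iff₀ (by positivity) (by norm_num)]
    nlinarith
  refine ⟨N, hN1, fun x => ?_, fun x => ?_, fun x hx => ?_⟩
  · -- lower bound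
    obtain ⟨f, hf, hfx⟩ := exists_mem_Pol hp hL x
    obtain ⟨b, hb⟩ := Sp_bound f
    have h1 : f ∈ Ea p nx (nx b) := ⟨hf, hb.mono fun t ht =>
      lt_of_le_of_lt ht ((hC.lt_nx b).trans (hC.lt_nx _))⟩
    have h2 := (sym_Ea hp hL0 hL (nx b)).le h1 x
    have h3 := hN2 (⟨nx b, hC.nx_mem b⟩, 0) x
    have h4 := eb_nonneg (p := p) (nx := nx) (nx b) x
    have h5 : sfn (Ea p nx (nx b)) x ≤ AA p nx δ (nx b) x := by
      unfold AA
      have : 0 ≤ δ * sfn (Eb p nx (nx b)) x := by positivity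
      linarith
    rw [← hfx]
    exact h2.trans (h5.trans h3)
  · apply hN3
    intro i
    have h1 := ea_le (nx := nx) hp hL0 hL i.1.1 x
    have h2 := eb_le_K (nx := nx) hp hK0 hK i.1.1 x
    have h3 := hp.nonneg x
    have h4 : δ * sfn (Eb p nx i.1.1) x ≤ ε / 4 * p x := by
      calc δ * sfn (Eb p nx i.1.1) x ≤ δ * (K * p x) := by gcongr
        _ = δ * K * p x := by ring
        _ ≤ ε / 4 * p x := by gcongr
    have h5 : |T i x| ≤ ε / 4 * p x := by
      rw [hTx]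
      have h6 : |τ i.1.1 i.2 x| ≤ K * p x := by
        have h7 := (hτ1 i.1.1 i.2)
        have h8 := hK _ h7.1 x
        have h9 := hK _ (Zf.neg h7.1) x
        rw [norm_neg] at h9
        have h10 : (-τ i.1.1 i.2) x = -(τ i.1.1 i.2 x) := rfl
        rw [h10] at h9
        have h11 : K * ‖τ i.1.1 i.2‖ * p x ≤ K * 1 * p x := by
          have := h7.2.1
          gcongr
        rw [abs_le]
        constructor <;> linarith
      have h2 : (1/2 : ℝ) ^ i.2 ≤ 1 := pow_le_one₀ (by norm_num) (by norm_num)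
      calc δ * (1/2) ^ i.2 * |τ i.1.1 i.2 x| ≤ δ * 1 * (K * p x) := by gcongr
        _ = δ * K * p x := by ring
        _ ≤ ε / 4 * p x := by gcongr
    show AA p nx δ i.1.1 x + 3 * |T i x| ≤ (1 + ε) * p x
    unfold AA
    nlinarith
  · apply hN4
    obtain ⟨β, hβ, ⟨f, hf, hfx⟩, hmax⟩ := propP hp hL0 hL hC hδ0 hx
    have hex : ∃ k, τ β k x ≠ 0 := by
      by_contra hc
      push Not at hc
      have hpos : 0 < |f x| := abs_pos.2 hfx
      obtain ⟨k, hk⟩ := hτ2 β f hf (|f x| / (‖x‖ + 1)) (by positivity)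
      have h1 : f x = (f - τ β k) x := by rw [sub_apply, hc k, sub_zero]
      have h2 : |(f - τ β k) x| ≤ ‖f - τ β k‖ * ‖x‖ := (f - τ β k).le_opNorm x
      have h3 : ‖f - τ β k‖ * ‖x‖ ≤ |f x| / (‖x‖ + 1) * ‖x‖ := by gcongr
      have h4 : |f x| / (‖x‖ + 1) * ‖x‖ < |f x| := by
        rw [div_mul_eq_mul_div, div_lt_iff₀ (by positivity)]
        nlinarith
      rw [← h1] at h2
      linarith
    obtain ⟨k, hk⟩ := hex
    refine ⟨(⟨β, hβ⟩, k), ?_, fun j => hmax j.1.1 j.1.2⟩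
    show ((δ * (1/2) ^ k) • τ β k) x ≠ 0
    rw [smul_apply, smul_eq_mul]
    have : (δ * (1/2) ^ k : ℝ) ≠ 0 := by positivity
    exact mul_ne_zero this hk

end thmA

end Pool.Agent.Helper957
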