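import Mathlib
import Pool.Agent.Helper957.ThmA
import Pool.Agent.Helper957.NoDual

set_option autoImplicit false

namespace Pool.Agent.Helper957

open Set Filter Topology

/-- The first uncountable well order as a small type. -/
abbrev Om : Type := (Cardinal.aleph.{0} 1).ord.ToType

theorem aleph_one_ord_ne : (Cardinal.aleph.{0} 1).ord ≠ 0 := by
  rw [Ne, Cardinal.ord_eq_zero]
  exact (Cardinal.aleph0_pos.trans_le (Cardinal.aleph0_le_aleph 1)).ne'

noncomputable instance : OrderBot Om := Ordinal.toTypeOrderBot aleph_one_ord_ne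

instance : Omg Om where
  wf := inferInstance
  ctbl a := by
    have h1 : (Iio a).Countable := by
      rw [Cardinal.countable_iff_lt_aleph_one]
      have := Cardinal.mk_Iio_lt a (by simp)
      rwa [Cardinal.mk_ord_toType] at this
    have h2 : Iic a = insert a (Iio a) := by
      ext t
      simp [le_iff_eq_or_lt]
    rw [h2]
    exact h1.insert a
  unc h := by
    rw [Cardinal.countable_iff_lt_aleph_one, Cardinal.mk_univ, Cardinal.mk_ord_toType] at h
    exact lt_irrefl _ h

section density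

variable {Ω : Type*} [LinearOrder Ω] [OrderBot Ω] [hΩ : Omg Ω]

/-- Smooth approximation of equivalent norms. -/
theorem density_XX {p : XX Ω → ℝ} (hp : IsSemi p) {c C : ℝ} (hc : 0 < c) (hC : 0 < C)
    (h1 : ∀ x, c * ‖x‖ ≤ p x) (h2 : ∀ x, p x ≤ C * ‖x‖) {ε : ℝ} (hε : 0 < ε) :
    ∃ N : XX Ω → ℝ, IsSemi N ∧ (∀ x, p x ≤ N x) ∧ (∀ x, N x ≤ p x + ε * ‖x‖) ∧
      ∀ x, x ≠ 0 → ∃ l : XX Ω →L[ℝ] ℝ, HasFDerivAt N l x := by
  obtain ⟨N, hN1, hN2, hN3, hN4⟩ := theoremA hp hC.le h2 (K := c⁻¹) (by positivity) (fun f _ x => by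
    have h3 := (le_abs_self _).trans (f.le_opNorm x)
    have h4 : ‖x‖ ≤ c⁻¹ * p x := by
      rw [← mul_le_mul_iff_of_pos_left hc, ← mul_assoc, mul_inv_cancel₀ hc.ne', one_mul]
      exact h1 x
    calc f x ≤ ‖f‖ * ‖x‖ := h3
      _ ≤ ‖f‖ * (c⁻¹ * p x) := by gcongr
      _ = c⁻¹ * ‖f‖ * p x := by ring) (show 0 < ε / C by positivity)
  refine ⟨N, hN1, hN2, fun x => ?_, fun x hx => hN4 x ?_⟩
  · have h3 := hN3 x
    have h4 : ε / C * p x ≤ ε / C * (C * ‖x‖) := by
      have := h2 x
      gcongr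
    have h5 : ε / C * (C * ‖x‖) = ε * ‖x‖ := by field_simp
    linarith
  · have h3 := h1 x
    have h4 : 0 < ‖x‖ := norm_pos_iff.2 hx
    have : 0 < c * ‖x‖ := by positivity
    linarith

/-- Every quotient has a smooth norm. -/
theorem quot_XX (Y : Submodule ℝ (XX Ω)) (hY : IsClosed (Y : Set (XX Ω))) :
    ∃ N : XX Ω → ℝ, IsSemi N ∧ (∀ x, Metric.infDist x (Y : Set (XX Ω)) ≤ N x) ∧
      (∀ x, N x ≤ 2 * Metric.infDist x (Y : Set (XX Ω))) ∧
      ∀ x, x ∉ Y → ∃ l : XX Ω →L[ℝ] ℝ, HasFDerivAt N l x := by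
  have hne : (Y : Set (XX Ω)).Nonempty := ⟨0, Y.zero_mem⟩
  have hadd : ∀ x y : XX Ω, Metric.infDist (x + y) (Y : Set (XX Ω))
      ≤ Metric.infDist x (Y : Set (XX Ω)) + Metric.infDist y (Y : Set (XX Ω)) := by
    intro x y
    apply le_of_forall_pos_le_add
    intro η hη
    obtain ⟨a, ha, ha2⟩ := (Metric.infDist_lt_iff hne).1
      (show Metric.infDist x (Y : Set (XX Ω)) < Metric.infDist x (Y : Set (XX Ω)) + η / 2 by linarith)
    obtain ⟨b, hb, hb2⟩ := (Metric.infDist_lt_iff hne).1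
      (show Metric.infDist y (Y : Set (XX Ω)) < Metric.infDist y (Y : Set (XX Ω)) + η / 2 by linarith)
    have h3 : Metric.infDist (x + y) (Y : Set (XX Ω)) ≤ dist (x + y) (a + b) :=
      Metric.infDist_le_dist_of_mem (Y.add_mem ha hb)
    have h4 := dist_add_add_le x y a b
    linarith
  have hsm : ∀ (c : ℝ) (x : XX Ω), Metric.infDist (c • x) (Y : Set (XX Ω))
      ≤ |c| * Metric.infDist x (Y : Set (XX Ω)) := by
    intro c x
    apply le_of_forall_pos_le_add
    intro η hη
    obtain ⟨a, ha, ha2⟩ := (Metric.infDist_lt_iff hne).1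
      (show Metric.infDist x (Y : Set (XX Ω))
        < Metric.infDist x (Y : Set (XX Ω)) + η / (|c| + 1) by
          have : 0 < η / (|c| + 1) := by positivity
          linarith)
    have h3 : Metric.infDist (c • x) (Y : Set (XX Ω)) ≤ dist (c • x) (c • a) :=
      Metric.infDist_le_dist_of_mem (Y.smul_mem c ha)
    rw [dist_smul₀, Real.norm_eq_abs] at h3
    have h4 : |c| * dist x a ≤ |c| * (Metric.infDist x (Y : Set (XX Ω)) + η / (|c| + 1)) := by
      gcongr
    have h5 : |c| * (η / (|c| + 1)) ≤ (|c| + 1) * (η / (|c| + 1)) := by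
      gcongr
      linarith
    have h6 : (|c| + 1) * (η / (|c| + 1)) = η := by field_simp
    linarith
  have hp : IsSemi fun x : XX Ω => Metric.infDist x (Y : Set (XX Ω)) := by
    refine ⟨hadd, fun c x => le_antisymm (hsm c x) ?_⟩
    rcases eq_or_ne c 0 with rfl | hc
    · rw [abs_zero, zero_mul]
      exact Metric.infDist_nonneg
    · have h1 := hsm c⁻¹ (c • x)
      rw [smul_smul, inv_mul_cancel₀ hc, one_smul, abs_inv] at h1
      have h2 : 0 < |c| := abs_pos.2 hc
      calc |c| * Metric.infDist x (Y : Set (XX Ω))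
          ≤ |c| * (|c|⁻¹ * Metric.infDist (c • x) (Y : Set (XX Ω))) := by gcongr
        _ = Metric.infDist (c • x) (Y : Set (XX Ω)) := by field_simp
  have hmem : ∀ x : XX Ω, Metric.infDist x (Y : Set (XX Ω)) = 0 ↔ x ∈ Y := by
    intro x
    rw [← Metric.mem_closure_iff_infDist_zero hne, hY.closure_eq]
    rfl
  obtain ⟨N, hN1, hN2, hN3, hN4⟩ := theoremA hp (L := 1) zero_le_one (fun x => by
    have := Metric.infDist_le_dist_of_mem (x := x) (s := (Y : Set (XX Ω))) Y.zero_mem
    rw [dist_zero_right] at this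
    rw [one_mul]
    exact this) (K := 1) zero_le_one (fun f hf x => by
      rw [one_mul]
      apply le_of_forall_pos_le_add
      intro η hη
      obtain ⟨a, ha, ha2⟩ := (Metric.infDist_lt_iff hne).1
        (show Metric.infDist x (Y : Set (XX Ω))
          < Metric.infDist x (Y : Set (XX Ω)) + η / (‖f‖ + 1) by
            have : 0 < η / (‖f‖ + 1) := by positivity
            linarith)
      have h3 : f a = 0 := hf a ((hmem a).2 ha)
      have h4 : f x = f (x - a) := by rw [map_sub, h3, sub_zero]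
      have h5 := (le_abs_self _).trans (f.le_opNorm (x - a))
      rw [dist_eq_norm] at ha2
      have h6 : ‖f‖ * ‖x - a‖ ≤ ‖f‖ * (Metric.infDist x (Y : Set (XX Ω)) + η / (‖f‖ + 1)) := by
        gcongr
      have h7 : ‖f‖ * (η / (‖f‖ + 1)) ≤ (‖f‖ + 1) * (η / (‖f‖ + 1)) := by
        gcongr
        linarith
      have h8 : (‖f‖ + 1) * (η / (‖f‖ + 1)) = η := by
        have : ‖f‖ + 1 ≠ 0 := by positivity
        field_simp
      rw [h4]
      linarith) (show (0:ℝ) < 1 by norm_num)
  refine ⟨N, hN1, hN2, fun x => ?_, fun x hx => hN4 x fun h => hx ((hmem x).1 h)⟩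
  have := hN3 x
  norm_num at this
  exact this

end density

end Pool.Agent.Helper957
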