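import Mathlib
import Pool.Agent.Helper957.Inst
import Pool.Agent.Helper957.COne

set_option autoImplicit false

namespace Pool.Agent.Helper957

open Set Filter Topology

/-- The first uncountable ordinal. -/
noncomputable abbrev kap : Ordinal.{0} := (Cardinal.aleph.{0} 1).ord

/-- The index set. -/
abbrev Oc : Type 1 := WithBot (WithBot (Set.Iio kap))

theorem ctbl_Iio_ord {a : Ordinal.{0}} (ha : a < kap) : (Iio a).Countable := by
  rw [← Cardinal.le_aleph0_iff_set_countable, Cardinal.mk_Iio_ordinal, Cardinal.lift_le_aleph0]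
  have h1 : a.card < Cardinal.aleph 1 := Cardinal.lt_ord.1 ha
  have h2 : Cardinal.aleph 1 = Order.succ Cardinal.aleph0 := by
    rw [← Cardinal.aleph_zero, ← Cardinal.aleph_succ, Order.succ_eq_add_one, zero_add]
  rw [h2] at h1
  exact Order.lt_succ_iff.1 h1

theorem ctbl_Iic_kap (a : Set.Iio kap) : (Iic a).Countable := by
  have h1 : (Iic a.1).Countable := by
    have : Iic a.1 = insert a.1 (Iio a.1) := by
      ext t
      simp [le_iff_eq_or_lt]
    rw [this]
    exact (ctbl_Iio_ord a.2).insert _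
  have h2 : Iic a = Subtype.val ⁻¹' Iic a.1 := rfl
  rw [h2]
  exact h1.preimage Subtype.val_injective

theorem unc_kap : ¬ (univ : Set (Set.Iio kap)).Countable := by
  intro h
  rw [← Cardinal.le_aleph0_iff_set_countable, Cardinal.mk_univ, Cardinal.mk_Iio_ordinal,
    Cardinal.lift_le_aleph0, Cardinal.card_ord] at h
  exact absurd h (not_le.2 Cardinal.aleph0_lt_aleph_one)

theorem withBot_ctbl {Ω : Type*} [LinearOrder Ω] (h : ∀ a : Ω, (Iic a).Countable) (a : WithBot Ω) :
    (Iic a).Countable := by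
  induction a using WithBot.recBotCoe with
  | bot =>
    rw [Iic_bot]
    exact countable_singleton _
  | coe a =>
    have : Iic (a : WithBot Ω) ⊆ insert ⊥ ((fun b : Ω => (b : WithBot Ω)) '' Iic a) := by
      intro b hb
      induction b using WithBot.recBotCoe with
      | bot => exact mem_insert _ _
      | coe b =>
        right
        exact ⟨b, WithBot.coe_le_coe.1 hb, rfl⟩
    exact (((h a).image _).insert _).mono this

theorem withBot_unc {Ω : Type*} (h : ¬ (univ : Set Ω).Countable) :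
    ¬ (univ : Set (WithBot Ω)).Countable := by
  intro hc
  apply h
  have := hc.preimage (f := fun b : Ω => (b : WithBot Ω)) WithBot.coe_injective
  rwa [preimage_univ] at this

instance : Omg Oc where
  wf := inferInstance
  ctbl := withBot_ctbl (withBot_ctbl ctbl_Iic_kap)
  unc := withBot_unc (withBot_unc unc_kap)

/-- The space. -/
abbrev EE : Type 1 := BoundedContinuousFunction (Set.Iic kap) ℝ

/-- The top point. -/
noncomputable def tp : Set.Iic kap := ⟨kap, Set.mem_Iic.2 le_rfl⟩

/-- Inclusion of points. -/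
noncomputable def inc (t : Set.Iio kap) : Set.Iic kap :=
  ⟨t.1, Set.mem_Iic.2 (le_of_lt (Set.mem_Iio.1 t.2))⟩

theorem tp_val : (tp : Set.Iic kap).1 = kap := rfl

theorem inc_val (t : Set.Iio kap) : (inc t).1 = t.1 := rfl

theorem EE_left (x : EE) (t : Set.Iic kap) (ht : 0 < t.1) {η : ℝ} (hη : 0 < η) :
    ∃ s : Set.Iio kap, s.1 < t.1 ∧ ∀ u : Set.Iic kap, s.1 < u.1 → u.1 ≤ t.1 → |x u - x t| ≤ η := by
  have h1 : ∀ᶠ u in 𝓝 t, |x u - x t| < η := by
    have h2 : ContinuousAt (fun u => |x u - x t|) t := by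
      have := x.continuous
      fun_prop
    apply h2.eventually (gt_mem_nhds _)
    simpa using hη
  obtain ⟨l, hl, hsub⟩ := exists_Ioc_subset_of_mem_nhds h1
    ⟨⟨0, Set.mem_Iic.2 zero_le⟩, ht⟩
  refine ⟨⟨l.1, Set.mem_Iio.2 (lt_of_lt_of_le hl (Set.mem_Iic.1 t.2))⟩, hl, fun u hu hut => ?_⟩
  exact (hsub (show u ∈ Ioc l t from ⟨hu, hut⟩)).le

/-- The underlying function of the transfer map. -/
noncomputable def gX (x : EE) : Oc → ℝ :=
  WithBot.recBotCoe 0 (WithBot.recBotCoe (x tp) (fun t => x (inc t) - x tp))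

theorem gX_bot (x : EE) : gX x ⊥ = 0 := rfl
theorem gX_one (x : EE) : gX x ((⊥ : WithBot (Set.Iio kap)) : Oc) = x tp := rfl
theorem gX_coe (x : EE) (t : Set.Iio kap) : gX x ((t : WithBot (Set.Iio kap)) : Oc)
    = x (inc t) - x tp := rfl

theorem Oc_cases {P : Oc → Prop} (h0 : P ⊥) (h1 : P ((⊥ : WithBot (Set.Iio kap)) : Oc))
    (h2 : ∀ t : Set.Iio kap, P ((t : WithBot (Set.Iio kap)) : Oc)) (t : Oc) : P t := by
  induction t using WithBot.recBotCoe with
  | bot => exact h0
  | coe t =>
    induction t using WithBot.recBotCoe with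
    | bot => exact h1
    | coe t => exact h2 t

theorem gX_abs (x : EE) (t : Oc) : |gX x t| ≤ 2 * ‖x‖ := by
  have h1 : ∀ u, |x u| ≤ ‖x‖ := fun u => x.norm_coe_le_norm u
  have h0 := norm_nonneg x
  induction t using Oc_cases with
  | h0 => rw [gX_bot, abs_zero]; positivity
  | h1 =>
    rw [gX_one]
    have := h1 tp
    linarith
  | h2 t =>
    rw [gX_coe]
    refine (abs_sub _ _).trans ?_
    have := h1 tp
    have := h1 (inc t)
    linarith

theorem gX_left (x : EE) (t : Oc) (ht : ⊥ < t) (η : ℝ) (hη : 0 < η) :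
    ∃ s < t, ∀ u, s < u → u ≤ t → |gX x u - gX x t| ≤ η := by
  revert ht
  induction t using Oc_cases with
  | h0 => intro ht; exact absurd ht (lt_irrefl _)
  | h1 =>
    intro ht
    refine ⟨⊥, ht, fun u hu hut => ?_⟩
    have : u = ((⊥ : WithBot (Set.Iio kap)) : Oc) := by
      induction u using Oc_cases with
      | h0 => exact absurd hu (lt_irrefl _)
      | h1 => rfl
      | h2 u =>
        rw [WithBot.coe_le_coe] at hut
        exact absurd hut (not_le.2 (WithBot.bot_lt_coe u))
    rw [this, sub_self, abs_zero]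
    exact hη.le
  | h2 t =>
    intro _
    rcases eq_or_lt_of_le (zero_le (a := t.1)) with h0 | h0
    · refine ⟨((⊥ : WithBot (Set.Iio kap)) : Oc), WithBot.coe_lt_coe.2 (WithBot.bot_lt_coe t),
        fun u hu hut => ?_⟩
      have : u = ((t : WithBot (Set.Iio kap)) : Oc) := by
        induction u using Oc_cases with
        | h0 => exact absurd hu not_lt_bot
        | h1 => exact absurd hu (lt_irrefl _)
        | h2 u =>
          rw [WithBot.coe_le_coe, WithBot.coe_le_coe] at hut
          have h3 : u.1 ≤ t.1 := hut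
          rw [← h0] at h3
          have h4 : u.1 = 0 := le_antisymm h3 zero_le
          have h5 : u = t := Subtype.ext (h4.trans h0)
          rw [h5]
      rw [this, sub_self, abs_zero]
      exact hη.le
    · obtain ⟨s, hs, hs2⟩ := EE_left x (inc t) h0 hη
      refine ⟨((s : WithBot (Set.Iio kap)) : Oc),
        WithBot.coe_lt_coe.2 (WithBot.coe_lt_coe.2 hs), fun u hu hut => ?_⟩
      induction u using Oc_cases with
      | h0 => exact absurd hu not_lt_bot
      | h1 =>
        rw [WithBot.coe_lt_coe] at hu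
        exact absurd hu not_lt_bot
      | h2 u =>
        rw [WithBot.coe_lt_coe, WithBot.coe_lt_coe] at hu
        rw [WithBot.coe_le_coe, WithBot.coe_le_coe] at hut
        rw [gX_coe, gX_coe]
        have h3 := hs2 (inc u) hu hut
        have e : x (inc u) - x tp - (x (inc t) - x tp) = x (inc u) - x (inc t) := by ring
        rw [e]
        exact h3

theorem gX_ev (x : EE) : ∃ b, ∀ u, b < u → gX x u = 0 := by
  have h1 : ∀ n : ℕ, ∃ s : Set.Iio kap, ∀ u : Set.Iic kap, s.1 < u.1 →
      |x u - x tp| ≤ 1 / ((n : ℝ) + 1) := by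
    intro n
    obtain ⟨s, _, hs2⟩ := EE_left x tp (pos_iff_ne_zero.2 aleph_one_ord_ne)
      (show (0:ℝ) < 1 / ((n : ℝ) + 1) by positivity)
    exact ⟨s, fun u hu => hs2 u hu (Set.mem_Iic.1 u.2)⟩
  choose s hs using h1
  obtain ⟨b, hb⟩ := exists_gt_all fun n => ((s n : WithBot (Set.Iio kap)) : Oc)
  refine ⟨b, fun u hu => ?_⟩
  induction u using Oc_cases with
  | h0 => exact absurd hu not_lt_bot
  | h1 =>
    have := (hb 0).trans hu
    rw [WithBot.coe_lt_coe] at this
    exact absurd this not_lt_bot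
  | h2 u =>
    rw [gX_coe]
    by_contra hne
    obtain ⟨n, hn⟩ := exists_nat_one_div_lt (abs_pos.2 hne)
    have h2 := (hb n).trans hu
    rw [WithBot.coe_lt_coe, WithBot.coe_lt_coe] at h2
    have h3 := hs n (inc u) h2
    linarith

/-- The transfer map. -/
noncomputable def toX : EE →L[ℝ] XX Oc :=
  LinearMap.mkContinuous
    { toFun := fun x => XX.mk' (gX x) ⟨2 * ‖x‖, gX_abs x⟩ (gX_bot x) (gX_left x) (gX_ev x)
      map_add' := fun x y => by
        apply XX.ext
        intro t
        rw [XX.add_apply, XX.mk'_apply, XX.mk'_apply, XX.mk'_apply]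
        induction t using Oc_cases with
        | h0 => rw [gX_bot, gX_bot, gX_bot, add_zero]
        | h1 => rw [gX_one, gX_one, gX_one]; rfl
        | h2 t =>
          rw [gX_coe, gX_coe, gX_coe, BoundedContinuousFunction.add_apply,
            BoundedContinuousFunction.add_apply]
          ring
      map_smul' := fun c x => by
        apply XX.ext
        intro t
        rw [XX.smul_apply, XX.mk'_apply, XX.mk'_apply, RingHom.id_apply]
        induction t using Oc_cases with
        | h0 => rw [gX_bot, gX_bot, mul_zero]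
        | h1 => rw [gX_one, gX_one]; rfl
        | h2 t =>
          rw [gX_coe, gX_coe, BoundedContinuousFunction.smul_apply,
            BoundedContinuousFunction.smul_apply, smul_eq_mul, smul_eq_mul]
          ring } 2 (fun x => XX.norm_le (by positivity) (gX_abs x))

theorem toX_apply (x : EE) (t : Oc) : toX x t = gX x t := rfl

theorem norm_toX_le (x : EE) : ‖toX x‖ ≤ 2 * ‖x‖ := XX.norm_le (by positivity) (gX_abs x)

/-- The underlying function of the inverse. -/
noncomputable def gE (y : XX Oc) (o : Ordinal.{0}) : ℝ :=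
  if h : o < kap then y (((⟨o, h⟩ : Set.Iio kap) : WithBot (Set.Iio kap)) : Oc)
    + y ((⊥ : WithBot (Set.Iio kap)) : Oc)
  else y ((⊥ : WithBot (Set.Iio kap)) : Oc)

theorem gE_lt (y : XX Oc) {o : Ordinal.{0}} (h : o < kap) :
    gE y o = y (((⟨o, h⟩ : Set.Iio kap) : WithBot (Set.Iio kap)) : Oc)
      + y ((⊥ : WithBot (Set.Iio kap)) : Oc) := dif_pos h

theorem gE_tp (y : XX Oc) : gE y kap = y ((⊥ : WithBot (Set.Iio kap)) : Oc) :=
  dif_neg (lt_irrefl _)

theorem gE_abs (y : XX Oc) (o : Ordinal.{0}) : |gE y o| ≤ 2 * ‖y‖ := by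
  unfold gE
  have h0 := norm_nonneg y
  split_ifs with h
  · refine (abs_add_le _ _).trans ?_
    have h1 := XX.abs_le_norm y (((⟨o, h⟩ : Set.Iio kap) : WithBot (Set.Iio kap)) : Oc)
    have h2 := XX.abs_le_norm y ((⊥ : WithBot (Set.Iio kap)) : Oc)
    linarith
  · have h2 := XX.abs_le_norm y ((⊥ : WithBot (Set.Iio kap)) : Oc)
    linarith

theorem gE_left (y : XX Oc) {o : Ordinal.{0}} (ho : 0 < o) {η : ℝ} (hη : 0 < η) (hok : o ≤ kap) :
    ∃ s < o, ∀ u, s < u → u ≤ o → |gE y u - gE y o| ≤ η := by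
  rcases eq_or_lt_of_le hok with h | h
  · -- at the top
    obtain ⟨b, hb⟩ := XX.bound y
    obtain ⟨s, hs1, hs2⟩ : ∃ s < kap, ∀ u : Set.Iio kap, s < u.1 →
        b < ((u : WithBot (Set.Iio kap)) : Oc) := by
      induction b using Oc_cases with
      | h0 => exact ⟨0, h ▸ ho, fun u _ => WithBot.bot_lt_coe _⟩
      | h1 => exact ⟨0, h ▸ ho, fun u _ => WithBot.coe_lt_coe.2 (WithBot.bot_lt_coe _)⟩
      | h2 b => exact ⟨b.1, b.2, fun u hu => WithBot.coe_lt_coe.2 (WithBot.coe_lt_coe.2 hu)⟩
    refine ⟨s, by rw [h]; exact hs1, fun u hu huo => ?_⟩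
    rw [h]
    rw [h] at huo
    have e1 : gE y kap = y ((⊥ : WithBot (Set.Iio kap)) : Oc) := by
      unfold gE
      rw [dif_neg (lt_irrefl _)]
    rcases eq_or_lt_of_le huo with h2 | h2
    · rw [h2, sub_self, abs_zero]
      exact hη.le
    · have e2 : gE y u = y ((⊥ : WithBot (Set.Iio kap)) : Oc) := by
        unfold gE
        rw [dif_pos h2, hb _ (hs2 ⟨u, h2⟩ hu), zero_add]
      rw [e1, e2, sub_self, abs_zero]
      exact hη.le
  · obtain ⟨s, hs1, hs2⟩ := XX.left y (t := (((⟨o, h⟩ : Set.Iio kap) : WithBot (Set.Iio kap)) : Oc))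
      (WithBot.bot_lt_coe _) hη
    obtain ⟨s', hs1', hs2'⟩ : ∃ s' < o, ∀ u : Set.Iio kap, s' < u.1 →
        s < ((u : WithBot (Set.Iio kap)) : Oc) := by
      revert hs1
      clear hs2
      induction s using Oc_cases with
      | h0 => exact fun _ => ⟨0, ho, fun u _ => WithBot.bot_lt_coe _⟩
      | h1 => exact fun _ => ⟨0, ho, fun u _ => WithBot.coe_lt_coe.2 (WithBot.bot_lt_coe _)⟩
      | h2 b =>
        intro hs
        rw [WithBot.coe_lt_coe, WithBot.coe_lt_coe] at hs
        exact ⟨b.1, hs, fun u hu => WithBot.coe_lt_coe.2 (WithBot.coe_lt_coe.2 hu)⟩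
    refine ⟨s', hs1', fun u hu huo => ?_⟩
    have huk : u < kap := lt_of_le_of_lt huo h
    have h3 := hs2 (((⟨u, huk⟩ : Set.Iio kap) : WithBot (Set.Iio kap)) : Oc) (hs2' ⟨u, huk⟩ hu)
      (WithBot.coe_le_coe.2 (WithBot.coe_le_coe.2 huo))
    unfold gE
    rw [dif_pos huk, dif_pos h, add_sub_add_right_eq_sub]
    exact h3

theorem gE_contAt (y : XX Oc) {o : Ordinal.{0}} (ho : o ≤ kap) : ContinuousAt (gE y) o := by
  rcases eq_or_lt_of_le (zero_le (a := o)) with h0 | h0
  · have h1 : 𝓝 o = pure o := by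
      rw [← SuccOrder.nhdsLE_eq_nhds o, ← h0]
      have : Iic (0 : Ordinal.{0}) = {0} := by
        ext t
        simp
      rw [this, nhdsWithin_singleton]
    unfold ContinuousAt
    rw [h1]
    exact tendsto_pure_nhds _ _
  · unfold ContinuousAt
    rw [Metric.tendsto_nhds]
    intro η hη
    obtain ⟨s, hs1, hs2⟩ := gE_left y h0 (show 0 < η / 2 by positivity) ho
    rw [(SuccOrder.hasBasis_nhds_Ioc_of_exists_lt ⟨s, hs1⟩).eventually_iff]
    refine ⟨s, hs1, fun u hu => ?_⟩
    rw [Real.dist_eq]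
    have := hs2 u hu.1 hu.2
    linarith

theorem gE_cont (y : XX Oc) : Continuous fun t : Set.Iic kap => gE y t.1 := by
  rw [continuous_iff_continuousAt]
  intro t
  exact (gE_contAt y t.2).comp continuous_subtype_val.continuousAt

/-- The inverse map. -/
noncomputable def toE (y : XX Oc) : EE :=
  BoundedContinuousFunction.ofNormedAddCommGroup (fun t : Set.Iic kap => gE y t.1) (gE_cont y)
    (2 * ‖y‖) fun t => gE_abs y t.1

theorem toE_apply (y : XX Oc) (t : Set.Iic kap) : toE y t = gE y t.1 := rfl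

theorem norm_toE_le (y : XX Oc) : ‖toE y‖ ≤ 2 * ‖y‖ :=
  (BoundedContinuousFunction.norm_le (by positivity)).2 fun t => gE_abs y t.1

theorem toE_toX (x : EE) : toE (toX x) = x := by
  ext t
  rw [toE_apply]
  unfold gE
  split_ifs with h
  · rw [toX_apply, toX_apply, gX_one, gX_coe, sub_add_cancel]
    rfl
  · rw [toX_apply, gX_one]
    have : tp = t := Subtype.ext (le_antisymm (not_lt.1 h) (Set.mem_Iic.1 t.2))
    rw [this]

theorem toX_toE (y : XX Oc) : toX (toE y) = y := by
  apply XX.ext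
  intro t
  rw [toX_apply]
  induction t using Oc_cases with
  | h0 => rw [gX_bot, XX.bot]
  | h1 => rw [gX_one, toE_apply, tp_val, gE_tp]
  | h2 t =>
    rw [gX_coe, toE_apply, toE_apply, tp_val, gE_tp, inc_val, gE_lt y (Set.mem_Iio.1 t.2),
      add_sub_cancel_right]

theorem toX_inj {x y : EE} (h : toX x = toX y) : x = y := by
  rw [← toE_toX x, h, toE_toX]

theorem toE_add (y z : XX Oc) : toE (y + z) = toE y + toE z := by
  apply toX_inj
  rw [map_add, toX_toE, toX_toE, toX_toE]

theorem toE_smul (c : ℝ) (y : XX Oc) : toE (c • y) = c • toE y := by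
  apply toX_inj
  rw [map_smul, toX_toE, toX_toE]

theorem norm_le_toE (y : XX Oc) : ‖y‖ ≤ 2 * ‖toE y‖ := by
  have := norm_toX_le (toE y)
  rwa [toX_toE] at this

/-- Density of smooth norms on the space of continuous functions on the closed long interval. -/
theorem density_EE (p : Seminorm ℝ EE) (h1 : ∃ c : ℝ, 0 < c ∧ ∀ x, c * ‖x‖ ≤ p x)
    (h2 : ∃ C : ℝ, 0 < C ∧ ∀ x, p x ≤ C * ‖x‖) (ε : ℝ) (hε : 0 < ε) :
    ∃ q : Seminorm ℝ EE, (∀ x, p x ≤ q x) ∧ (∀ x, q x ≤ p x + ε * ‖x‖) ∧
      ContDiffOn ℝ 1 (fun x => q x) {x | x ≠ 0} := by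
  obtain ⟨c, hc, hc1⟩ := h1
  obtain ⟨C, hC, hC1⟩ := h2
  have hp : IsSemi fun y : XX Oc => p (toE y) := by
    refine ⟨fun y z => ?_, fun a y => ?_⟩
    · show p (toE (y + z)) ≤ p (toE y) + p (toE z)
      rw [toE_add]
      exact map_add_le_add p _ _
    · show p (toE (a • y)) = |a| * p (toE y)
      rw [toE_smul, map_smul_eq_mul, Real.norm_eq_abs]
  obtain ⟨N, hN1, hN2, hN3, hN4⟩ := density_XX hp (c := c / 2) (C := 2 * C) (by positivity)
    (by positivity) (fun y => by
      have h3 := hc1 (toE y)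
      have h4 := norm_le_toE y
      show c / 2 * ‖y‖ ≤ p (toE y)
      nlinarith) (fun y => by
      have h3 := hC1 (toE y)
      have h4 := norm_toE_le y
      show p (toE y) ≤ 2 * C * ‖y‖
      nlinarith) (show 0 < ε / 2 by positivity)
  have hq : IsSemi fun x : EE => N (toX x) := by
    refine ⟨fun y z => ?_, fun a y => ?_⟩
    · show N (toX (y + z)) ≤ N (toX y) + N (toX z)
      rw [map_add]
      exact hN1.add _ _
    · show N (toX (a • y)) = |a| * N (toX y)
      rw [map_smul, hN1.smul]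
  refine ⟨hq.toSeminorm, fun x => ?_, fun x => ?_, ?_⟩
  · have h3 := hN2 (toX x)
    simp only [toE_toX] at h3
    exact h3
  · have h3 := hN3 (toX x)
    simp only [toE_toX] at h3
    have h4 := norm_toX_le x
    show N (toX x) ≤ p x + ε * ‖x‖
    nlinarith
  · apply contDiffOn_of_semi hq
    intro z hz
    have hz' : toX z ≠ 0 := by
      intro h
      apply hz
      apply toX_inj
      rw [h, map_zero]
    obtain ⟨l, hl⟩ := hN4 (toX z) hz'
    exact ⟨l.comp toX, hl.comp z toX.hasFDerivAt⟩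

end Pool.Agent.Helper957
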